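import Pool.Agent.CH76.Defs

/-!
# CH76/Dat: the explicit data of the 6-dimensional spindle (note 1705), as integer tables

`cI i / cD i` are the eight rows, `vN v / vD v` the 18 vertices of `B`, `wI v` the local functionals.
-/

namespace Pool.Agent.CH76

open Matrix

/-- the rows of `B`, times `cD` -/
def cI : Fin 8 → Fin 5 → ℤ := ![
  ![3, 6, -60000, 30000, 1000],
  ![9, -3, 30000, -60000, 1000],
  ![-6, 3, 30000, 30000, 1000],
  ![7, 7, 1400, 1000, 70000],
  ![18, -27, 1500, -1000, -90000],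
  ![-400, 200, 1, 0, 10],
  ![100, -200, 0, 1, 10],
  ![200, 200, 2, 1, -30]]

/-- common denominators of the rows -/
def cD : Fin 8 → ℤ := ![30000, 30000, 30000, 70000, 90000, 200, 100, 200]

/-- numerators of the vertices of `B` -/
def vN : Fin 18 → Fin 5 → ℤ := ![
  ![-3548047019070000, -3488965110380000, -3654967474681800, -3654855114638700, 3910388796859560],
  ![545587362570000, 8305558428380000, -7307233198909200, -7308027382261200, 7818428924020740],
  ![2046856818720000, 165928110980000, -1826683970422350, -1826564106112200, 1954601255065350],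
  ![-1043681029044000, -1061643751696000, -1004686617609180, -1004650031969280, -977302014487062],
  ![-123663293256000, 1804151375296000, -2008684926559020, -2008873585916100, -1955388361651878],
  ![460038399369000, -39879983654000, -502131175064160, -502096517839170, -488603120493783],
  ![-1758814013155000, -1721667049035000, -233270302950, 1827069827705850, 1863380554628535],
  ![242285761405000, 4076547129285000, 160113480450, 3653550915948150, 3725629196810715],
  ![1000568096380000, 79139364360000, 102694788450, 913608578912400, 931404308533290],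
  ![-2584543389130000, -2617118558610000, -345691624200, 2511110870792100, -2456766912120840],
  ![-336065705120000, 4431896916360000, 114123326700, 5021480275776900, -4915445716822410],
  ![2248620430385000, -200525381655000, 218177863650, 2511267386287050, -2456521200471195],
  ![-3518346761620000, -3462685347550000, 3654029113621800, -355545437100, 3705158864649600],
  ![481691795620000, 8111513957050000, 7307883162571200, -460485631200, 7408062501223500],
  ![400011110504000, 29648868860000, 365419826814930, 64691927160, 370401925554054],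
  ![-2582292477260000, -2626299255650000, 2511021380896800, -255295462500, -2389253506217820],
  ![-327065713240000, 4422537715400000, 5021946457874700, -349346799900, -4780445770823130],
  ![2255370412270000, -207454770575000, 2511097869738750, 389725386750, -2389021126618185]]

/-- common denominators of the vertices of `B` -/
def vD : Fin 18 → ℤ := ![
  3784373530229569,
  7568768983446491,
  1892195081205413,
  971829772579601,
  1943665119092611,
  485917089449230,
  1889128838654912,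
  3778257866882938,
  944565884302453,
  2429128145585837,
  4858256611375513,
  2429131747510751,
  3777536264490589,
  7555072906684031,
  377754212258677,
  2431378130463593,
  4862756585628217,
  2431381738012049]

/-- the local functionals -/
def wI : Fin 18 → Fin 5 → ℤ := ![
  ![0, 0, -2, -2, 3],
  ![0, 0, -2, -2, 3],
  ![0, 0, -2, -2, 3],
  ![0, 0, -2, -2, -3],
  ![0, 0, -2, -2, -3],
  ![0, 0, -2, -2, -3],
  ![0, 0, -2, 4, 3],
  ![0, 0, -2, 4, 3],
  ![0, 0, -2, 4, 3],
  ![0, 0, -2, 4, -3],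
  ![0, 0, -2, 4, -3],
  ![0, 0, -2, 4, -3],
  ![0, 0, 4, -2, 3],
  ![0, 0, 4, -2, 3],
  ![0, 0, 4, -2, 3],
  ![0, 0, 4, -2, -3],
  ![0, 0, 4, -2, -3],
  ![0, 0, 4, -2, -3]]

/-- the rows of `B` -/
noncomputable def cR (i : Fin 8) (k : Fin 5) : ℝ := (cI i k : ℝ) / (cD i : ℝ)

/-- the vertices of `B` -/
noncomputable def vR (v : Fin 18) (k : Fin 5) : ℝ := (vN v k : ℝ) / (vD v : ℝ)

/-- the local functionals -/
noncomputable def wR (v : Fin 18) (k : Fin 5) : ℝ := (wI v k : ℝ)

/-- `cD i * (c i · x)` -/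
def cS (i : Fin 8) (x : Fin 5 → ℝ) : ℝ :=
  (cI i 0 : ℝ) * x 0 + (cI i 1 : ℝ) * x 1 + (cI i 2 : ℝ) * x 2 + (cI i 3 : ℝ) * x 3 +
    (cI i 4 : ℝ) * x 4

theorem cD_pos (i : Fin 8) : 0 < cD i := by revert i; decide

theorem vD_pos (v : Fin 18) : 0 < vD v := by revert v; decide +kernel

theorem cD_posR (i : Fin 8) : (0 : ℝ) < (cD i : ℝ) := by exact_mod_cast cD_pos i

theorem vD_posR (v : Fin 18) : (0 : ℝ) < (vD v : ℝ) := by exact_mod_cast vD_pos v

theorem cR_dot (i : Fin 8) (x : Fin 5 → ℝ) : cR i ⬝ᵥ x = cS i x / (cD i : ℝ) := by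
  simp only [dotProduct, cR, Fin.sum_univ_five, cS]
  ring

theorem cR_le (i : Fin 8) (x : Fin 5 → ℝ) : cR i ⬝ᵥ x ≤ 1 ↔ cS i x ≤ (cD i : ℝ) := by
  rw [cR_dot, div_le_one (cD_posR i)]

theorem cR_le0 (i : Fin 8) (x : Fin 5 → ℝ) : cR i ⬝ᵥ x ≤ 0 ↔ cS i x ≤ 0 := by
  rw [cR_dot, div_le_iff₀ (cD_posR i), zero_mul]

theorem cR_eq1 (i : Fin 8) (x : Fin 5 → ℝ) : cR i ⬝ᵥ x = 1 ↔ cS i x = (cD i : ℝ) := by
  rw [cR_dot, div_eq_one_iff_eq (cD_posR i).ne']

theorem cR_eq0 (i : Fin 8) (x : Fin 5 → ℝ) : cR i ⬝ᵥ x = 0 ↔ cS i x = 0 := by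
  rw [cR_dot, div_eq_zero_iff, or_iff_left (cD_posR i).ne']

theorem cR_eq (i : Fin 8) (x x' : Fin 5 → ℝ) : cR i ⬝ᵥ x = cR i ⬝ᵥ x' ↔ cS i x = cS i x' := by
  rw [cR_dot, cR_dot, div_left_inj' (cD_posR i).ne']

theorem wR_dot (v : Fin 18) (x : Fin 5 → ℝ) : wR v ⬝ᵥ x = (wI v 2 : ℝ) * x 2 + (wI v 3 : ℝ) * x 3 +
    (wI v 4 : ℝ) * x 4 := by
  have h0 : wI v 0 = 0 := by revert v; decide
  have h1 : wI v 1 = 0 := by revert v; decide
  simp only [dotProduct, wR, Fin.sum_univ_five, h0, h1]
  push_cast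
  ring

theorem cS_0 (x : Fin 5 → ℝ) : cS 0 x = 3 * x 0 + 6 * x 1 - 60000 * x 2 + 30000 * x 3 + 1000 * x 4 := by
  simp only [cS, cI, Matrix.cons_val, Matrix.cons_val_zero, Matrix.cons_val_one]
  push_cast
  ring

theorem cS_1 (x : Fin 5 → ℝ) : cS 1 x = 9 * x 0 - 3 * x 1 + 30000 * x 2 - 60000 * x 3 + 1000 * x 4 := by
  simp only [cS, cI, Matrix.cons_val, Matrix.cons_val_zero, Matrix.cons_val_one]
  push_cast
  ring

theorem cS_2 (x : Fin 5 → ℝ) : cS 2 x = -6 * x 0 + 3 * x 1 + 30000 * x 2 + 30000 * x 3 + 1000 * x 4 := by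
  simp only [cS, cI, Matrix.cons_val, Matrix.cons_val_zero, Matrix.cons_val_one]
  push_cast
  ring

theorem cS_3 (x : Fin 5 → ℝ) : cS 3 x = 7 * x 0 + 7 * x 1 + 1400 * x 2 + 1000 * x 3 + 70000 * x 4 := by
  simp only [cS, cI, Matrix.cons_val, Matrix.cons_val_zero, Matrix.cons_val_one]
  push_cast
  ring

theorem cS_4 (x : Fin 5 → ℝ) : cS 4 x = 18 * x 0 - 27 * x 1 + 1500 * x 2 - 1000 * x 3 - 90000 * x 4 := by
  simp only [cS, cI, Matrix.cons_val, Matrix.cons_val_zero, Matrix.cons_val_one]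
  push_cast
  ring

theorem cS_5 (x : Fin 5 → ℝ) : cS 5 x = -400 * x 0 + 200 * x 1 + 1 * x 2 + 10 * x 4 := by
  simp only [cS, cI, Matrix.cons_val, Matrix.cons_val_zero, Matrix.cons_val_one]
  push_cast
  ring

theorem cS_6 (x : Fin 5 → ℝ) : cS 6 x = 100 * x 0 - 200 * x 1 + 1 * x 3 + 10 * x 4 := by
  simp only [cS, cI, Matrix.cons_val, Matrix.cons_val_zero, Matrix.cons_val_one]
  push_cast
  ring

theorem cS_7 (x : Fin 5 → ℝ) : cS 7 x = 200 * x 0 + 200 * x 1 + 2 * x 2 + 1 * x 3 - 30 * x 4 := by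
  simp only [cS, cI, Matrix.cons_val, Matrix.cons_val_zero, Matrix.cons_val_one]
  push_cast
  ring

end Pool.Agent.CH76
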