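import Pool.Agent.CH76.Dat

/-!
# CH76/DatF: the fields of `Data` except `hC`, for the explicit data (note 1705)
-/

namespace Pool.Agent.CH76

open Matrix

theorem wR_0 (v : Fin 18) : wR v 0 = 0 := by
  have h0 : wI v 0 = 0 := by revert v; decide
  simp [wR, h0]

theorem wR_1 (v : Fin 18) : wR v 1 = 0 := by
  have h0 : wI v 1 = 0 := by revert v; decide
  simp [wR, h0]

theorem vR_hp (v : Fin 18) : vR v 0 ≠ 0 ∨ vR v 1 ≠ 0 := by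
  have h : vN v 0 ≠ 0 := by revert v; decide +kernel
  left
  have h2 : (vN v 0 : ℝ) ≠ 0 := by exact_mod_cast h
  exact div_ne_zero h2 (vD_posR v).ne'

theorem vR_hdir (v v' : Fin 18) (hv : v ≠ v') : vR v 0 * vR v' 1 - vR v 1 * vR v' 0 ≠ 0 ∨
    vR v 0 * vR v' 0 + vR v 1 * vR v' 1 < 0 := by
  have h : vN v 0 * vN v' 1 - vN v 1 * vN v' 0 ≠ 0 := by
    revert v v'; decide +kernel
  left
  have h2 : (vN v 0 : ℝ) * vN v' 1 - vN v 1 * vN v' 0 ≠ 0 := by exact_mod_cast h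
  have e : vR v 0 * vR v' 1 - vR v 1 * vR v' 0 =
      ((vN v 0 : ℝ) * vN v' 1 - vN v 1 * vN v' 0) / ((vD v : ℝ) * vD v') := by
    have h3 := (vD_posR v).ne'
    have h4 := (vD_posR v').ne'
    simp only [vR]
    field_simp
  rw [e]
  exact div_ne_zero h2 (mul_ne_zero (vD_posR v).ne' (vD_posR v').ne')

theorem cR_hc (x : Fin 5 → ℝ) (h : ∀ i, cR i ⬝ᵥ x ≤ 0) : x = 0 := by
  have h0 := (cR_le0 0 x).1 (h 0)
  have h1 := (cR_le0 1 x).1 (h 1)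
  have h2 := (cR_le0 2 x).1 (h 2)
  have h3 := (cR_le0 3 x).1 (h 3)
  have h4 := (cR_le0 4 x).1 (h 4)
  have h5 := (cR_le0 5 x).1 (h 5)
  have h6 := (cR_le0 6 x).1 (h 6)
  have h7 := (cR_le0 7 x).1 (h 7)
  rw [cS_0] at h0
  rw [cS_1] at h1
  rw [cS_2] at h2
  rw [cS_3] at h3
  rw [cS_4] at h4
  rw [cS_5] at h5
  rw [cS_6] at h6
  rw [cS_7] at h7
  have e0 : x 0 = 0 := by apply le_antisymm <;> linarith
  have e1 : x 1 = 0 := by apply le_antisymm <;> linarith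
  have e2 : x 2 = 0 := by apply le_antisymm <;> linarith
  have e3 : x 3 = 0 := by apply le_antisymm <;> linarith
  have e4 : x 4 = 0 := by apply le_antisymm <;> linarith
  funext i
  fin_cases i <;> simp [e0, e1, e2, e3, e4]

theorem wR_span (x : Fin 5 → ℝ) (h : ∀ v, wR v ⬝ᵥ x ≤ 0) : x 2 = 0 ∧ x 3 = 0 ∧ x 4 = 0 := by
  have h0 := h 0
  have h3 := h 3
  have h6 := h 6
  have h9 := h 9
  have h12 := h 12
  have h15 := h 15
  rw [wR_dot] at h0 h3 h6 h9 h12 h15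
  simp only [wI, Matrix.cons_val] at h0 h3 h6 h9 h12 h15
  push_cast at h0 h3 h6 h9 h12 h15
  refine ⟨?_, ?_, ?_⟩ <;> apply le_antisymm <;> linarith

theorem g1_aux (a b c : Fin 3 → ℤ) (x y z : ℝ)
    (h1 : (a 0 : ℝ) * x + a 1 * y + a 2 * z = 0) (h2 : (b 0 : ℝ) * x + b 1 * y + b 2 * z = 0)
    (h3 : (c 0 : ℝ) * x + c 1 * y + c 2 * z = 0)
    (hd : a 0 * (b 1 * c 2 - b 2 * c 1) - a 1 * (b 0 * c 2 - b 2 * c 0) +
      a 2 * (b 0 * c 1 - b 1 * c 0) ≠ 0) : x = 0 ∧ y = 0 ∧ z = 0 := by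
  have hd' : (a 0 : ℝ) * (b 1 * c 2 - b 2 * c 1) - a 1 * (b 0 * c 2 - b 2 * c 0) +
      a 2 * (b 0 * c 1 - b 1 * c 0) ≠ 0 := by exact_mod_cast hd
  refine ⟨?_, ?_, ?_⟩ <;> apply (mul_eq_zero.1 _).resolve_left hd'
  · linear_combination ((b 1 : ℝ) * c 2 - b 2 * c 1) * h1 - ((a 1 : ℝ) * c 2 - a 2 * c 1) * h2 +
      ((a 1 : ℝ) * b 2 - a 2 * b 1) * h3
  · linear_combination -((b 0 : ℝ) * c 2 - b 2 * c 0) * h1 + ((a 0 : ℝ) * c 2 - a 2 * c 0) * h2 -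
      ((a 0 : ℝ) * b 2 - a 2 * b 0) * h3
  · linear_combination ((b 0 : ℝ) * c 1 - b 1 * c 0) * h1 - ((a 0 : ℝ) * c 1 - a 1 * c 0) * h2 +
      ((a 0 : ℝ) * b 1 - a 1 * b 0) * h3

end Pool.Agent.CH76
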