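import Pool.Agent.CH76.DatW

/-!
# CH76/DatM: `Data (Fin 18)` from the field `hC` (note 1705)
-/

namespace Pool.Agent.CH76

open Matrix

/-- the explicit data, from the field `hC` -/
noncomputable def datOf (hC : ∀ v, ∀ x2 x3 x4 : Fin 5 → ℝ,
    (x2 = vR v ∨ (x2 0 = vR v 0 / 2 ∧ x2 1 = vR v 1 / 2 ∧ (∀ i, cR i ⬝ᵥ x2 ≤ 1) ∧
      ∃ T : Finset (Fin 8), 3 ≤ T.card ∧ ∀ i ∈ T, cR i ⬝ᵥ x2 = cR i ⬝ᵥ vR v)) →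
    x3 0 = 0 → x3 1 = 0 → (∀ i, cR i ⬝ᵥ x3 ≤ 1) →
    (∃ T : Finset (Fin 8), 3 ≤ T.card ∧ ∀ i ∈ T, cR i ⬝ᵥ x3 = cR i ⬝ᵥ x2) →
    x4 0 = 0 → x4 1 = 0 → (∀ i, cR i ⬝ᵥ x4 ≤ 1) →
    (∃ T : Finset (Fin 8), 2 ≤ T.card ∧ ∀ i ∈ T, cR i ⬝ᵥ x4 = cR i ⬝ᵥ x3) →
    0 < wR v ⬝ᵥ x4) : Data (Fin 18) where
  c := cR
  vt := vR
  w := wR
  w0 := wR_0
  w1 := wR_1
  hV := cR_hV
  hp := vR_hp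
  hdir := vR_hdir
  hc := cR_hc
  hpspan := vR_span
  hwspan := wR_span
  g1 := cR_g1
  g4 := cR_g4
  hC := hC

end Pool.Agent.CH76
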