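import Pool.Agent.CH76.DatF

/-!
# CH76/DatV: fields `g1`, `g4`, `hV`, `hpspan` of the explicit data (note 1705)

`hV` is checked with the inverse matrices of the 56 systems of five tight rows.
-/

namespace Pool.Agent.CH76

open Matrix

theorem cR_g1 (S : Finset (Fin 8)) (hS : 3 ≤ S.card) (x : Fin 5 → ℝ) (x0 : x 0 = 0) (x1 : x 1 = 0)
    (h : ∀ i ∈ S, cR i ⬝ᵥ x = 0) : x = 0 := by
  obtain ⟨a, ha, b, hb, c, hc, hab, hac, hbc⟩ := Finset.two_lt_card.1 (show 2 < S.card by omega)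
  have key : ∀ i ∈ S, (cI i 2 : ℝ) * x 2 + cI i 3 * x 3 + cI i 4 * x 4 = 0 := by
    intro i hi
    have := (cR_eq0 i x).1 (h i hi)
    rw [cS, x0, x1] at this
    linarith
  have hd : ∀ a b c : Fin 8, a ≠ b → a ≠ c → b ≠ c →
      cI a 2 * (cI b 3 * cI c 4 - cI b 4 * cI c 3) - cI a 3 * (cI b 2 * cI c 4 - cI b 4 * cI c 2) +
      cI a 4 * (cI b 2 * cI c 3 - cI b 3 * cI c 2) ≠ 0 := by
    decide +kernel
  obtain ⟨e2, e3, e4⟩ := g1_aux ![cI a 2, cI a 3, cI a 4] ![cI b 2, cI b 3, cI b 4]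
    ![cI c 2, cI c 3, cI c 4] (x 2) (x 3) (x 4) (by simpa using key a ha) (by simpa using key b hb)
    (by simpa using key c hc) (by simpa using hd a b c hab hac hbc)
  funext i
  fin_cases i <;> simp [x0, x1, e2, e3, e4]

/-- determinant of a `4 × 4` matrix, expanded -/
def det4 (a b c d : Fin 4 → ℤ) : ℤ :=
  a 0 * (b 1 * (c 2 * d 3 - c 3 * d 2) - b 2 * (c 1 * d 3 - c 3 * d 1) +
    b 3 * (c 1 * d 2 - c 2 * d 1)) -
  a 1 * (b 0 * (c 2 * d 3 - c 3 * d 2) - b 2 * (c 0 * d 3 - c 3 * d 0) +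
    b 3 * (c 0 * d 2 - c 2 * d 0)) +
  a 2 * (b 0 * (c 1 * d 3 - c 3 * d 1) - b 1 * (c 0 * d 3 - c 3 * d 0) +
    b 3 * (c 0 * d 1 - c 1 * d 0)) -
  a 3 * (b 0 * (c 1 * d 2 - c 2 * d 1) - b 1 * (c 0 * d 2 - c 2 * d 0) +
    b 2 * (c 0 * d 1 - c 1 * d 0))

/-- minors -/
def m3 (a b c : Fin 4 → ℤ) (i j k : Fin 4) : ℤ :=
  a i * (b j * c k - b k * c j) - a j * (b i * c k - b k * c i) + a k * (b i * c j - b j * c i)

theorem g4_aux (a b c d : Fin 4 → ℤ) (x : Fin 4 → ℝ)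
    (h1 : (a 0 : ℝ) * x 0 + a 1 * x 1 + a 2 * x 2 + a 3 * x 3 = 0)
    (h2 : (b 0 : ℝ) * x 0 + b 1 * x 1 + b 2 * x 2 + b 3 * x 3 = 0)
    (h3 : (c 0 : ℝ) * x 0 + c 1 * x 1 + c 2 * x 2 + c 3 * x 3 = 0)
    (h4 : (d 0 : ℝ) * x 0 + d 1 * x 1 + d 2 * x 2 + d 3 * x 3 = 0)
    (hd : det4 a b c d ≠ 0) : x 0 = 0 ∧ x 1 = 0 ∧ x 2 = 0 ∧ x 3 = 0 := by
  have hd' : (det4 a b c d : ℝ) ≠ 0 := by exact_mod_cast hd
  refine ⟨?_, ?_, ?_, ?_⟩ <;> apply (mul_eq_zero.1 _).resolve_left hd'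
  · linear_combination (norm := (simp only [det4, m3]; push_cast; ring)) (m3 b c d 1 2 3 : ℝ) * h1 - (m3 a c d 1 2 3 : ℝ) * h2 +
      (m3 a b d 1 2 3 : ℝ) * h3 - (m3 a b c 1 2 3 : ℝ) * h4
  · linear_combination (norm := (simp only [det4, m3]; push_cast; ring)) -(m3 b c d 0 2 3 : ℝ) * h1 + (m3 a c d 0 2 3 : ℝ) * h2 -
      (m3 a b d 0 2 3 : ℝ) * h3 + (m3 a b c 0 2 3 : ℝ) * h4
  · linear_combination (norm := (simp only [det4, m3]; push_cast; ring)) (m3 b c d 0 1 3 : ℝ) * h1 - (m3 a c d 0 1 3 : ℝ) * h2 +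
      (m3 a b d 0 1 3 : ℝ) * h3 - (m3 a b c 0 1 3 : ℝ) * h4
  · linear_combination (norm := (simp only [det4, m3]; push_cast; ring)) -(m3 b c d 0 1 2 : ℝ) * h1 + (m3 a c d 0 1 2 : ℝ) * h2 -
      (m3 a b d 0 1 2 : ℝ) * h3 + (m3 a b c 0 1 2 : ℝ) * h4

theorem exists_sorted {k : ℕ} (S : Finset (Fin 8)) (hS : k ≤ S.card) :
    ∃ e : Fin k → Fin 8, StrictMono e ∧ ∀ i, e i ∈ S := by
  obtain ⟨T, hT, hc⟩ := Finset.exists_subset_card_eq hS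
  exact ⟨T.orderEmbOfFin hc, (T.orderEmbOfFin hc).strictMono,
    fun i => hT (Finset.orderEmbOfFin_mem T hc i)⟩

/-- rows of the system of `g4` -/
def r4 (v : Fin 18) (i : Fin 8) : Fin 4 → ℤ :=
  ![cI i 0 * vN v 0 + cI i 1 * vN v 1, cI i 2, cI i 3, cI i 4]

theorem r4_det : ∀ a b c d : Fin 8, a < b → b < c → c < d → ∀ v : Fin 18,
    det4 (r4 v a) (r4 v b) (r4 v c) (r4 v d) ≠ 0 := by
  decide +kernel

theorem cR_g4 (S : Finset (Fin 8)) (hS : 4 ≤ S.card) (v : Fin 18) (x : Fin 5 → ℝ) (t : ℝ)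
    (x0 : x 0 = t * vR v 0) (x1 : x 1 = t * vR v 1) (h : ∀ i ∈ S, cR i ⬝ᵥ x = 0) : x = 0 := by
  obtain ⟨e, he, hm⟩ := exists_sorted S hS
  have key : ∀ i ∈ S, (r4 v i 0 : ℝ) * (t / vD v) + r4 v i 1 * x 2 + r4 v i 2 * x 3 +
      r4 v i 3 * x 4 = 0 := by
    intro i hi
    have := (cR_eq0 i x).1 (h i hi)
    rw [cS, x0, x1] at this
    simp only [r4, vR] at this ⊢
    simp only [Matrix.cons_val]
    push_cast
    have hv := (vD_posR v).ne'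
    field_simp at this ⊢
    linarith
  have hd := r4_det (e 0) (e 1) (e 2) (e 3) (he (by decide)) (he (by decide)) (he (by decide)) v
  obtain ⟨e1, e2, e3, e4⟩ := g4_aux _ _ _ _ ![t / vD v, x 2, x 3, x 4]
    (by simpa using key _ (hm 0)) (by simpa using key _ (hm 1)) (by simpa using key _ (hm 2))
    (by simpa using key _ (hm 3)) hd
  have ht : t = 0 := by
    have hv := (vD_posR v).ne'
    have : t / (vD v : ℝ) = 0 := e1
    rcases div_eq_zero_iff.1 this with h | h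
    · exact h
    · exact absurd h hv
  funext i
  fin_cases i
  · simp [x0, ht]
  · simp [x1, ht]
  · exact e2
  · exact e3
  · exact e4

end Pool.Agent.CH76
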