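import Mathlib

/-!
# CH76/Defs: robust walks in the cylinder model, and the data of the 6-dimensional spindle

(Circuit Hirsch conjecture, MP_c5fcd0_co, note 1705.)

Cylinder model: `B = {x | c i · x ≤ 1}` in `ℝ^n`, walls `y j`; the start is at infinity over `B`, the
target is `0`.  `RobustWalk c y k x j`: points `x 0, ..., x (k-1)` of `B` and different walls
`j 0, ..., j (k-1)`; the walls `j 0, ..., j l` are maximal at `x l`, at least `n` rows of `B` are tight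
at `x 0`, and at least `n` rows (counted by index, no independence) vanish on every step.
-/

namespace Pool.Agent.CH76

open Matrix

/-- robust walks of the cylinder model (`k` points, `k` walls) -/
structure RobustWalk {n : ℕ} {α β : Type*} (c : α → Fin n → ℝ) (y : β → Fin n → ℝ) (k : ℕ)
    (x : ℕ → Fin n → ℝ) (j : ℕ → β) : Prop where
  mem : ∀ l < k, ∀ i, c i ⬝ᵥ x l ≤ 1
  inj : ∀ l < k, ∀ m < k, j l = j m → l = m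
  max : ∀ l < k, ∀ i, y i ⬝ᵥ x l ≤ y (j 0) ⬝ᵥ x l
  tie : ∀ l < k, ∀ m ≤ l, y (j m) ⬝ᵥ x l = y (j 0) ⬝ᵥ x l
  first : ∃ S : Finset α, n ≤ S.card ∧ ∀ i ∈ S, c i ⬝ᵥ x 0 = 1
  step : ∀ l, l + 1 < k → ∃ (SA : Finset α) (SB : Finset β), n ≤ SA.card + SB.card ∧
    (∀ i ∈ SA, c i ⬝ᵥ (x (l + 1) - x l) = 0) ∧
    (∀ i ∈ SB, y i ⬝ᵥ (x (l + 1) - x l) = y (j 0) ⬝ᵥ (x (l + 1) - x l))

/-- The data of the example: `8` rows in `ℝ^5 = ℝ^2 × ℝ^3` (coordinates `0, 1` are the `p`-part,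
coordinates `2, 3, 4` the `q`-part), the vertices `vt v` of `B`, a functional `w v` of the `q`-part for
every vertex. -/
structure Data (V : Type*) where
  c : Fin 8 → Fin 5 → ℝ
  vt : V → Fin 5 → ℝ
  w : V → Fin 5 → ℝ
  w0 : ∀ v, w v 0 = 0
  w1 : ∀ v, w v 1 = 0
  /-- every point of `B` with at least five tight rows is one of the `vt v` -/
  hV : ∀ x : Fin 5 → ℝ, (∀ i, c i ⬝ᵥ x ≤ 1) →
    (∃ S : Finset (Fin 8), 5 ≤ S.card ∧ ∀ i ∈ S, c i ⬝ᵥ x = 1) → ∃ v, x = vt v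
  hp : ∀ v, vt v 0 ≠ 0 ∨ vt v 1 ≠ 0
  /-- the directions of the `p`-parts of the vertices are different -/
  hdir : ∀ v v', v ≠ v' → vt v 0 * vt v' 1 - vt v 1 * vt v' 0 ≠ 0 ∨
    vt v 0 * vt v' 0 + vt v 1 * vt v' 1 < 0
  hc : ∀ x : Fin 5 → ℝ, (∀ i, c i ⬝ᵥ x ≤ 0) → x = 0
  hpspan : ∀ a b : ℝ, (∀ v, vt v 0 * a + vt v 1 * b ≤ 0) → a = 0 ∧ b = 0
  hwspan : ∀ x : Fin 5 → ℝ, (∀ v, w v ⬝ᵥ x ≤ 0) → x 2 = 0 ∧ x 3 = 0 ∧ x 4 = 0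
  g1 : ∀ S : Finset (Fin 8), 3 ≤ S.card → ∀ x : Fin 5 → ℝ, x 0 = 0 → x 1 = 0 →
    (∀ i ∈ S, c i ⬝ᵥ x = 0) → x = 0
  g4 : ∀ S : Finset (Fin 8), 4 ≤ S.card → ∀ v, ∀ x : Fin 5 → ℝ, ∀ t : ℝ, x 0 = t * vt v 0 →
    x 1 = t * vt v 1 → (∀ i ∈ S, c i ⬝ᵥ x = 0) → x = 0
  hC : ∀ v, ∀ x2 x3 x4 : Fin 5 → ℝ,
    (x2 = vt v ∨ (x2 0 = vt v 0 / 2 ∧ x2 1 = vt v 1 / 2 ∧ (∀ i, c i ⬝ᵥ x2 ≤ 1) ∧
      ∃ T : Finset (Fin 8), 3 ≤ T.card ∧ ∀ i ∈ T, c i ⬝ᵥ x2 = c i ⬝ᵥ vt v)) →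
    x3 0 = 0 → x3 1 = 0 → (∀ i, c i ⬝ᵥ x3 ≤ 1) →
    (∃ T : Finset (Fin 8), 3 ≤ T.card ∧ ∀ i ∈ T, c i ⬝ᵥ x3 = c i ⬝ᵥ x2) →
    x4 0 = 0 → x4 1 = 0 → (∀ i, c i ⬝ᵥ x4 ≤ 1) →
    (∃ T : Finset (Fin 8), 2 ≤ T.card ∧ ∀ i ∈ T, c i ⬝ᵥ x4 = c i ⬝ᵥ x3) →
    0 < w v ⬝ᵥ x4


end Pool.Agent.CH76
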