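import Pool.Agent.CH76.Dat

/-!
# CH76/HC: the field hC of the data of the 6-dimensional spindle (note 1705)

A verified checker over the integers; the final check is done by the kernel.
-/

namespace Pool.Agent.CH76.HC

open Matrix

/-- a row `a x0 + b x1 + u x2 + v x3 + w x4 ≤ n` with integer coefficients -/
structure Row where
  a : ℤ
  b : ℤ
  u : ℤ
  v : ℤ
  w : ℤ
  n : ℤ

/-- a rational point with common denominator `d` -/
structure Pt where
  x0 : ℤ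
  x1 : ℤ
  x2 : ℤ
  x3 : ℤ
  x4 : ℤ
  d : ℤ

def row : Fin 8 → Row
  | 0 => ⟨3, 6, -60000, 30000, 1000, 30000⟩
  | 1 => ⟨9, -3, 30000, -60000, 1000, 30000⟩
  | 2 => ⟨-6, 3, 30000, 30000, 1000, 30000⟩
  | 3 => ⟨7, 7, 1400, 1000, 70000, 70000⟩
  | 4 => ⟨18, -27, 1500, -1000, -90000, 90000⟩
  | 5 => ⟨-400, 200, 1, 0, 10, 200⟩
  | 6 => ⟨100, -200, 0, 1, 10, 100⟩
  | 7 => ⟨200, 200, 2, 1, -30, 200⟩

def vtx : Fin 18 → Pt := ![
  ⟨-3548047019070000, -3488965110380000, -3654967474681800, -3654855114638700, 3910388796859560, 3784373530229569⟩,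
  ⟨545587362570000, 8305558428380000, -7307233198909200, -7308027382261200, 7818428924020740, 7568768983446491⟩,
  ⟨2046856818720000, 165928110980000, -1826683970422350, -1826564106112200, 1954601255065350, 1892195081205413⟩,
  ⟨-1043681029044000, -1061643751696000, -1004686617609180, -1004650031969280, -977302014487062, 971829772579601⟩,
  ⟨-123663293256000, 1804151375296000, -2008684926559020, -2008873585916100, -1955388361651878, 1943665119092611⟩,
  ⟨460038399369000, -39879983654000, -502131175064160, -502096517839170, -488603120493783, 485917089449230⟩,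
  ⟨-1758814013155000, -1721667049035000, -233270302950, 1827069827705850, 1863380554628535, 1889128838654912⟩,
  ⟨242285761405000, 4076547129285000, 160113480450, 3653550915948150, 3725629196810715, 3778257866882938⟩,
  ⟨1000568096380000, 79139364360000, 102694788450, 913608578912400, 931404308533290, 944565884302453⟩,
  ⟨-2584543389130000, -2617118558610000, -345691624200, 2511110870792100, -2456766912120840, 2429128145585837⟩,
  ⟨-336065705120000, 4431896916360000, 114123326700, 5021480275776900, -4915445716822410, 4858256611375513⟩,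
  ⟨2248620430385000, -200525381655000, 218177863650, 2511267386287050, -2456521200471195, 2429131747510751⟩,
  ⟨-3518346761620000, -3462685347550000, 3654029113621800, -355545437100, 3705158864649600, 3777536264490589⟩,
  ⟨481691795620000, 8111513957050000, 7307883162571200, -460485631200, 7408062501223500, 7555072906684031⟩,
  ⟨400011110504000, 29648868860000, 365419826814930, 64691927160, 370401925554054, 377754212258677⟩,
  ⟨-2582292477260000, -2626299255650000, 2511021380896800, -255295462500, -2389253506217820, 2431378130463593⟩,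
  ⟨-327065713240000, 4422537715400000, 5021946457874700, -349346799900, -4780445770823130, 4862756585628217⟩,
  ⟨2255370412270000, -207454770575000, 2511097869738750, 389725386750, -2389021126618185, 2431381738012049⟩]

def wrow : Fin 18 → Row := ![
  ⟨0, 0, -2, -2, 3, 0⟩,
  ⟨0, 0, -2, -2, 3, 0⟩,
  ⟨0, 0, -2, -2, 3, 0⟩,
  ⟨0, 0, -2, -2, -3, 0⟩,
  ⟨0, 0, -2, -2, -3, 0⟩,
  ⟨0, 0, -2, -2, -3, 0⟩,
  ⟨0, 0, -2, 4, 3, 0⟩,
  ⟨0, 0, -2, 4, 3, 0⟩,
  ⟨0, 0, -2, 4, 3, 0⟩,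
  ⟨0, 0, -2, 4, -3, 0⟩,
  ⟨0, 0, -2, 4, -3, 0⟩,
  ⟨0, 0, -2, 4, -3, 0⟩,
  ⟨0, 0, 4, -2, 3, 0⟩,
  ⟨0, 0, 4, -2, 3, 0⟩,
  ⟨0, 0, 4, -2, 3, 0⟩,
  ⟨0, 0, 4, -2, -3, 0⟩,
  ⟨0, 0, 4, -2, -3, 0⟩,
  ⟨0, 0, 4, -2, -3, 0⟩]

def rowsL : List Row := [row 0, row 1, row 2, row 3, row 4, row 5, row 6, row 7]

def Row.ev (r : Row) (P : Pt) : ℤ :=
  r.a * P.x0 + r.b * P.x1 + r.u * P.x2 + r.v * P.x3 + r.w * P.x4

def det3 (r s t : Row) : ℤ :=
  r.u * (s.v * t.w - s.w * t.v) - r.v * (s.u * t.w - s.w * t.u) + r.w * (s.u * t.v - s.v * t.u)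

/-- the point with first coordinates `y0/dd, y1/dd` and `q`-part solving the three rows with
right-hand sides `e1/dd, e2/dd, e3/dd`. -/
def mk3 (r s t : Row) (e1 e2 e3 y0 y1 dd : ℤ) : Pt :=
  ⟨Int.sign (det3 r s t) * (det3 r s t * y0), Int.sign (det3 r s t) * (det3 r s t * y1),
   Int.sign (det3 r s t) * (e1 * (s.v * t.w - s.w * t.v) - r.v * (e2 * t.w - s.w * e3) +
     r.w * (e2 * t.v - s.v * e3)),
   Int.sign (det3 r s t) * (r.u * (e2 * t.w - s.w * e3) - e1 * (s.u * t.w - s.w * t.u) +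
     r.w * (s.u * e3 - e2 * t.u)),
   Int.sign (det3 r s t) * (r.u * (s.v * e3 - e2 * t.v) - r.v * (s.u * e3 - e2 * t.u) +
     e1 * (s.u * t.v - s.v * t.u)),
   Int.sign (det3 r s t) * (det3 r s t * dd)⟩

def inB (P : Pt) : Bool := rowsL.all fun r => decide (r.ev P ≤ r.n * P.d)

def trips : List (Row × Row × Row) :=
  (List.finRange 8).flatMap fun i => (List.finRange 8).flatMap fun j =>
    ((List.finRange 8).filter fun k => decide (i < j) && decide (j < k)).map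
      fun k => (row i, row j, row k)

def pairsL : List (Row × Row) :=
  (List.finRange 8).flatMap fun i =>
    ((List.finRange 8).filter fun j => decide (i < j)).map fun j => (row i, row j)

def okRow (a b w : Row) (P : Pt) (r : Row) : Bool :=
  decide (det3 a b r ≠ 0) && decide (det3 a b r * det3 a b w ≤ 0) &&
      decide (|det3 a b w| * (r.n * P.d - r.ev P) < |det3 a b r| * (w.ev P))

/-- the final test: on the line through `P` which is orthogonal to rows `a, b`, the functional `w`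
is positive on the part inside `B` -/
def chkC (w : Row) (P : Pt) : Bool :=
  pairsL.all fun ab => rowsL.any fun r => okRow ab.1 ab.2 w P r

def chkB (w : Row) (P : Pt) : Bool :=
  trips.all fun T =>
    decide (det3 T.1 T.2.1 T.2.2 ≠ 0) &&
    (!inB (mk3 T.1 T.2.1 T.2.2 (T.1.ev P) (T.2.1.ev P) (T.2.2.ev P) 0 0 P.d) ||
      chkC w (mk3 T.1 T.2.1 T.2.2 (T.1.ev P) (T.2.1.ev P) (T.2.2.ev P) 0 0 P.d))

def halfP (T : Row × Row × Row) (V : Pt) : Pt :=
  mk3 T.1 T.2.1 T.2.2 (2 * T.1.ev V - (T.1.a * V.x0 + T.1.b * V.x1))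
    (2 * T.2.1.ev V - (T.2.1.a * V.x0 + T.2.1.b * V.x1))
    (2 * T.2.2.ev V - (T.2.2.a * V.x0 + T.2.2.b * V.x1)) V.x0 V.x1 (2 * V.d)

def chkA (w : Row) (V : Pt) : Bool :=
  chkB w V && trips.all fun T => !inB (halfP T V) || chkB w (halfP T V)

theorem chk_all (v : Fin 18) : chkA (wrow v) (vtx v) = true := by
  revert v; decide +kernel

/-! ### soundness -/

def Row.evR (r : Row) (x : Fin 5 → ℝ) : ℝ :=
  (r.a : ℝ) * x 0 + (r.b : ℝ) * x 1 + (r.u : ℝ) * x 2 + (r.v : ℝ) * x 3 + (r.w : ℝ) * x 4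

/-- `P` represents `x` -/
structure Rep (P : Pt) (x : Fin 5 → ℝ) : Prop where
  pos : 0 < P.d
  h0 : (P.d : ℝ) * x 0 = P.x0
  h1 : (P.d : ℝ) * x 1 = P.x1
  h2 : (P.d : ℝ) * x 2 = P.x2
  h3 : (P.d : ℝ) * x 3 = P.x3
  h4 : (P.d : ℝ) * x 4 = P.x4

theorem Rep.ev {P : Pt} {x : Fin 5 → ℝ} (h : Rep P x) (r : Row) :
    ((r.ev P : ℤ) : ℝ) = (P.d : ℝ) * r.evR x := by
  simp only [Row.ev, Row.evR]
  push_cast
  rw [← h.h0, ← h.h1, ← h.h2, ← h.h3, ← h.h4]
  ring

theorem Rep.inB {P : Pt} {x : Fin 5 → ℝ} (h : Rep P x)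
    (hx : ∀ i, (row i).evR x ≤ ((row i).n : ℝ)) : inB P = true := by
  have key : ∀ i, (row i).ev P ≤ (row i).n * P.d := by
    intro i
    have h1 : (((row i).ev P : ℤ) : ℝ) ≤ (((row i).n * P.d : ℤ) : ℝ) := by
      rw [h.ev]
      push_cast
      have hd : (0 : ℝ) < (P.d : ℝ) := by exact_mod_cast h.pos
      nlinarith [hx i]
    exact_mod_cast h1
  simp only [HC.inB, rowsL, List.all_cons, List.all_nil, Bool.and_true, Bool.and_eq_true,
    decide_eq_true_eq]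
  exact ⟨key 0, key 1, key 2, key 3, key 4, key 5, key 6, key 7⟩

theorem rep_mk3 {r s t : Row} {e1 e2 e3 y0 y1 dd : ℤ} {x : Fin 5 → ℝ} (hD : det3 r s t ≠ 0)
    (hd : 0 < dd) (h0 : (dd : ℝ) * x 0 = y0) (h1 : (dd : ℝ) * x 1 = y1)
    (hr : (dd : ℝ) * ((r.u : ℝ) * x 2 + (r.v : ℝ) * x 3 + (r.w : ℝ) * x 4) = e1)
    (hs : (dd : ℝ) * ((s.u : ℝ) * x 2 + (s.v : ℝ) * x 3 + (s.w : ℝ) * x 4) = e2)
    (ht : (dd : ℝ) * ((t.u : ℝ) * x 2 + (t.v : ℝ) * x 3 + (t.w : ℝ) * x 4) = e3) :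
    Rep (mk3 r s t e1 e2 e3 y0 y1 dd) x := by
  have hpos : 0 < Int.sign (det3 r s t) * det3 r s t := by
    rw [mul_comm, Int.mul_sign_self]
    exact_mod_cast Int.natAbs_pos.2 hD
  refine ⟨?_, ?_, ?_, ?_, ?_, ?_⟩
  · simp only [mk3]
    have := mul_pos hpos hd
    calc 0 < _ := this
      _ = _ := by ring
  · simp only [mk3]
    push_cast
    rw [← h0]
    ring
  · simp only [mk3]
    push_cast
    rw [← h1]
    ring
  · simp only [mk3]
    push_cast
    rw [← hr, ← hs, ← ht]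
    simp only [det3]
    push_cast
    ring
  · simp only [mk3]
    push_cast
    rw [← hr, ← hs, ← ht]
    simp only [det3]
    push_cast
    ring
  · simp only [mk3]
    push_cast
    rw [← hr, ← hs, ← ht]
    simp only [det3]
    push_cast
    ring

theorem mem_rowsL (i : Fin 8) : row i ∈ rowsL := by
  fin_cases i <;> simp [rowsL]

theorem exists_of_mem_rowsL {r : Row} (h : r ∈ rowsL) : ∃ i, r = row i := by
  simp only [rowsL, List.mem_cons, List.not_mem_nil, or_false] at h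
  rcases h with h | h | h | h | h | h | h | h
  exacts [⟨0, h⟩, ⟨1, h⟩, ⟨2, h⟩, ⟨3, h⟩, ⟨4, h⟩, ⟨5, h⟩, ⟨6, h⟩, ⟨7, h⟩]

theorem mem_trips {i j k : Fin 8} (hij : i < j) (hjk : j < k) : (row i, row j, row k) ∈ trips := by
  simp only [trips, List.mem_flatMap, List.mem_map, List.mem_filter, List.mem_finRange, true_and,
    Bool.and_eq_true, decide_eq_true_eq]
  exact ⟨i, j, k, ⟨hij, hjk⟩, rfl⟩

theorem mem_pairsL {i j : Fin 8} (hij : i < j) : (row i, row j) ∈ pairsL := by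
  simp only [pairsL, List.mem_flatMap, List.mem_map, List.mem_filter, List.mem_finRange, true_and,
    decide_eq_true_eq]
  exact ⟨i, j, hij, rfl⟩

theorem sound_okRow {a b w r : Row} {P : Pt} {x y : Fin 5 → ℝ} (hP : Rep P x)
    (h : okRow a b w P r = true) (hx0 : x 0 = 0) (hx1 : x 1 = 0) (hy0 : y 0 = 0) (hy1 : y 1 = 0)
    (ha : a.evR y = a.evR x) (hb : b.evR y = b.evR x) (hr : r.evR y ≤ (r.n : ℝ)) :
    0 < w.evR y := by
  simp only [okRow, Bool.and_eq_true, decide_eq_true_eq] at h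
  obtain ⟨⟨hD, hDW⟩, hlt⟩ := h
  have hd : (0 : ℝ) < (P.d : ℝ) := by exact_mod_cast hP.pos
  set D : ℤ := det3 a b r with hDdef
  set W : ℤ := det3 a b w with hWdef
  have hlt' : |(W : ℝ)| * ((r.n : ℝ) - r.evR x) < |(D : ℝ)| * w.evR x := by
    have h1 : ((|W| * (r.n * P.d - r.ev P) : ℤ) : ℝ) < ((|D| * (w.ev P) : ℤ) : ℝ) := by
      exact_mod_cast hlt
    push_cast at h1
    rw [hP.ev, hP.ev] at h1
    have h2 : (P.d : ℝ) * (|(W : ℝ)| * ((r.n : ℝ) - r.evR x)) < (P.d : ℝ) * (|(D : ℝ)| * w.evR x) := by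
      calc _ = |(W : ℝ)| * ((r.n : ℝ) * (P.d : ℝ) - (P.d : ℝ) * r.evR x) := by ring
        _ < _ := h1
        _ = _ := by ring
    exact lt_of_mul_lt_mul_left h2 hd.le
  have hid : (D : ℝ) * (w.evR y - w.evR x) = (W : ℝ) * (r.evR y - r.evR x) := by
    rw [hDdef, hWdef]
    simp only [det3, Row.evR, hx0, hx1, hy0, hy1] at ha hb ⊢
    push_cast
    linear_combination
      (((b.u : ℝ) * (r.v * w.w - r.w * w.v) - b.v * (r.u * w.w - r.w * w.u) +
        b.w * (r.u * w.v - r.v * w.u))) * ha -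
      (((a.u : ℝ) * (r.v * w.w - r.w * w.v) - a.v * (r.u * w.w - r.w * w.u) +
        a.w * (r.u * w.v - r.v * w.u))) * hb
  have hDR : (D : ℝ) ≠ 0 := by exact_mod_cast hD
  have hDWR : (D : ℝ) * (W : ℝ) ≤ 0 := by exact_mod_cast hDW
  rcases lt_or_gt_of_ne hDR with hneg | hpos
  · have hW : 0 ≤ (W : ℝ) := by
      by_contra hc
      push Not at hc
      nlinarith
    rw [abs_of_nonneg hW, abs_of_neg hneg] at hlt'
    have h3 : 0 < (-(D : ℝ)) * w.evR y := by nlinarith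
    exact (mul_pos_iff_of_pos_left (by linarith)).1 h3
  · have hW : (W : ℝ) ≤ 0 := by
      by_contra hc
      push Not at hc
      nlinarith
    rw [abs_of_nonpos hW, abs_of_pos hpos] at hlt'
    have h3 : 0 < (D : ℝ) * w.evR y := by nlinarith
    exact (mul_pos_iff_of_pos_left hpos).1 h3

theorem sound_chkC {w : Row} {P : Pt} {x y : Fin 5 → ℝ} (hP : Rep P x)
    (h : chkC w P = true) (hx0 : x 0 = 0) (hx1 : x 1 = 0) (hy0 : y 0 = 0) (hy1 : y 1 = 0)
    {i j : Fin 8} (hij : i < j) (hi : (row i).evR y = (row i).evR x)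
    (hj : (row j).evR y = (row j).evR x) (hy : ∀ i, (row i).evR y ≤ ((row i).n : ℝ)) :
    0 < w.evR y := by
  have h1 := (List.all_eq_true.1 h) _ (mem_pairsL hij)
  obtain ⟨r, hr, hok⟩ := List.any_eq_true.1 h1
  obtain ⟨k, rfl⟩ := exists_of_mem_rowsL hr
  exact sound_okRow hP hok hx0 hx1 hy0 hy1 hi hj (hy k)

theorem sound_chkB {w : Row} {P : Pt} {x2 x3 x4 : Fin 5 → ℝ} (hP : Rep P x2)
    (h : chkB w P = true) (h30 : x3 0 = 0) (h31 : x3 1 = 0)
    (h3 : ∀ i, (row i).evR x3 ≤ ((row i).n : ℝ))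
    {i j k : Fin 8} (hij : i < j) (hjk : j < k) (hi : (row i).evR x3 = (row i).evR x2)
    (hj : (row j).evR x3 = (row j).evR x2) (hk : (row k).evR x3 = (row k).evR x2)
    (h40 : x4 0 = 0) (h41 : x4 1 = 0) (h4 : ∀ i, (row i).evR x4 ≤ ((row i).n : ℝ))
    {a b : Fin 8} (hab : a < b) (ha : (row a).evR x4 = (row a).evR x3)
    (hb : (row b).evR x4 = (row b).evR x3) : 0 < w.evR x4 := by
  have h1 := (List.all_eq_true.1 h) _ (mem_trips hij hjk)
  simp only [Bool.and_eq_true, decide_eq_true_eq, Bool.or_eq_true, Bool.not_eq_true'] at h1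
  obtain ⟨hD, h2⟩ := h1
  have q : ∀ r : Row, r.evR x3 = (r.u : ℝ) * x3 2 + (r.v : ℝ) * x3 3 + (r.w : ℝ) * x3 4 := by
    intro r
    simp only [Row.evR, h30, h31]
    ring
  have hrep := rep_mk3 (x := x3) (e1 := (row i).ev P) (e2 := (row j).ev P) (e3 := (row k).ev P)
    (y0 := 0) (y1 := 0) hD hP.pos (by rw [h30]; simp) (by rw [h31]; simp)
    (by rw [← q, hi, hP.ev]) (by rw [← q, hj, hP.ev]) (by rw [← q, hk, hP.ev])
  have hin := hrep.inB h3
  rcases h2 with h2 | h2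
  · rw [hin] at h2
    exact absurd h2 (by simp)
  · exact sound_chkC hrep h2 h30 h31 h40 h41 hab ha hb h4

theorem sound_half {P : Pt} {v x2 : Fin 5 → ℝ} (hP : Rep P v) (h20 : x2 0 = v 0 / 2)
    (h21 : x2 1 = v 1 / 2) {i j k : Fin 8} (hD : det3 (row i) (row j) (row k) ≠ 0)
    (hi : (row i).evR x2 = (row i).evR v)
    (hj : (row j).evR x2 = (row j).evR v) (hk : (row k).evR x2 = (row k).evR v) :
    Rep (halfP (row i, row j, row k) P) x2 := by
  have q : ∀ r : Row, r.evR x2 = r.evR v →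
      ((2 * P.d : ℤ) : ℝ) * ((r.u : ℝ) * x2 2 + (r.v : ℝ) * x2 3 + (r.w : ℝ) * x2 4) =
        ((2 * r.ev P - (r.a * P.x0 + r.b * P.x1) : ℤ) : ℝ) := by
    intro r hr
    push_cast
    rw [hP.ev, ← hP.h0, ← hP.h1, ← hr]
    simp only [Row.evR, h20, h21]
    ring
  have hpos := hP.pos
  refine rep_mk3 hD (by omega) ?_ ?_ (q _ hi) (q _ hj) (q _ hk)
  · push_cast
    rw [h20, ← hP.h0]
    ring
  · push_cast
    rw [h21, ← hP.h1]
    ring

theorem chkB_det {w : Row} {P : Pt} (h : chkB w P = true) {i j k : Fin 8} (hij : i < j)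
    (hjk : j < k) : det3 (row i) (row j) (row k) ≠ 0 := by
  have h1 := (List.all_eq_true.1 h) _ (mem_trips hij hjk)
  simp only [Bool.and_eq_true, decide_eq_true_eq] at h1
  exact h1.1

theorem exists_triple {T : Finset (Fin 8)} (h : 3 ≤ T.card) :
    ∃ i j k, i < j ∧ j < k ∧ i ∈ T ∧ j ∈ T ∧ k ∈ T := by
  obtain ⟨U, hU, hc⟩ := Finset.exists_subset_card_eq h
  refine ⟨U.orderEmbOfFin hc 0, U.orderEmbOfFin hc 1, U.orderEmbOfFin hc 2, ?_, ?_,
    hU (Finset.orderEmbOfFin_mem _ _ _), hU (Finset.orderEmbOfFin_mem _ _ _),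
    hU (Finset.orderEmbOfFin_mem _ _ _)⟩
  · exact (U.orderEmbOfFin hc).strictMono (by decide)
  · exact (U.orderEmbOfFin hc).strictMono (by decide)

theorem exists_pair {T : Finset (Fin 8)} (h : 2 ≤ T.card) :
    ∃ i j, i < j ∧ i ∈ T ∧ j ∈ T := by
  obtain ⟨U, hU, hc⟩ := Finset.exists_subset_card_eq h
  refine ⟨U.orderEmbOfFin hc 0, U.orderEmbOfFin hc 1, ?_,
    hU (Finset.orderEmbOfFin_mem _ _ _), hU (Finset.orderEmbOfFin_mem _ _ _)⟩
  exact (U.orderEmbOfFin hc).strictMono (by decide)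

theorem row_cS (i : Fin 8) (x : Fin 5 → ℝ) : (row i).evR x = cS i x := by
  simp only [Row.evR, cS]
  fin_cases i <;> simp [row, cI]

theorem row_n (i : Fin 8) : (row i).n = cD i := by
  fin_cases i <;> rfl

theorem vtx_rep (v : Fin 18) : Rep (vtx v) (vR v) := by
  have hd : (vtx v).d = vD v := by revert v; decide
  have h0 : (vtx v).x0 = vN v 0 := by revert v; decide
  have h1 : (vtx v).x1 = vN v 1 := by revert v; decide
  have h2 : (vtx v).x2 = vN v 2 := by revert v; decide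
  have h3 : (vtx v).x3 = vN v 3 := by revert v; decide
  have h4 : (vtx v).x4 = vN v 4 := by revert v; decide
  have hne : (vD v : ℝ) ≠ 0 := (vD_posR v).ne'
  refine ⟨by rw [hd]; exact vD_pos v, ?_, ?_, ?_, ?_, ?_⟩
  · rw [hd, h0, vR]; field_simp
  · rw [hd, h1, vR]; field_simp
  · rw [hd, h2, vR]; field_simp
  · rw [hd, h3, vR]; field_simp
  · rw [hd, h4, vR]; field_simp

theorem wrow_ev (v : Fin 18) (x : Fin 5 → ℝ) (h0 : x 0 = 0) (h1 : x 1 = 0) :
    (wrow v).evR x = wR v ⬝ᵥ x := by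
  have h2 : (wrow v).u = wI v 2 := by revert v; decide
  have h3 : (wrow v).v = wI v 3 := by revert v; decide
  have h4 : (wrow v).w = wI v 4 := by revert v; decide
  rw [wR_dot, Row.evR, h0, h1, h2, h3, h4]
  ring

end Pool.Agent.CH76.HC

namespace Pool.Agent.CH76

open Matrix HC

/-- the field `hC` of the data -/
theorem cR_hC : ∀ v : Fin 18, ∀ x2 x3 x4 : Fin 5 → ℝ,
    (x2 = vR v ∨ (x2 0 = vR v 0 / 2 ∧ x2 1 = vR v 1 / 2 ∧ (∀ i, cR i ⬝ᵥ x2 ≤ 1) ∧
      ∃ T : Finset (Fin 8), 3 ≤ T.card ∧ ∀ i ∈ T, cR i ⬝ᵥ x2 = cR i ⬝ᵥ vR v)) →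
    x3 0 = 0 → x3 1 = 0 → (∀ i, cR i ⬝ᵥ x3 ≤ 1) →
    (∃ T : Finset (Fin 8), 3 ≤ T.card ∧ ∀ i ∈ T, cR i ⬝ᵥ x3 = cR i ⬝ᵥ x2) →
    x4 0 = 0 → x4 1 = 0 → (∀ i, cR i ⬝ᵥ x4 ≤ 1) →
    (∃ T : Finset (Fin 8), 2 ≤ T.card ∧ ∀ i ∈ T, cR i ⬝ᵥ x4 = cR i ⬝ᵥ x3) →
    0 < wR v ⬝ᵥ x4 := by
  intro v x2 x3 x4 h2 h30 h31 h3 hT3 h40 h41 h4 hT4
  obtain ⟨T3, hc3, hT3⟩ := hT3
  obtain ⟨T4, hc4, hT4⟩ := hT4
  obtain ⟨i, j, k, hij, hjk, hi, hj, hk⟩ := exists_triple hc3
  obtain ⟨a, b, hab, ha, hb⟩ := exists_pair hc4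
  have le : ∀ x : Fin 5 → ℝ, (∀ i, cR i ⬝ᵥ x ≤ 1) → ∀ i, (HC.row i).evR x ≤ ((HC.row i).n : ℝ) := by
    intro x hx i
    rw [row_cS, row_n]
    exact (cR_le i x).1 (hx i)
  have eq : ∀ (x y : Fin 5 → ℝ) (i : Fin 8), cR i ⬝ᵥ x = cR i ⬝ᵥ y →
      (HC.row i).evR x = (HC.row i).evR y := by
    intro x y i h
    rw [row_cS, row_cS]
    exact (cR_eq i x y).1 h
  have hchk := chk_all v
  simp only [chkA, Bool.and_eq_true] at hchk
  obtain ⟨hA, hH⟩ := hchk
  rw [← wrow_ev v x4 h40 h41]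
  rcases h2 with rfl | ⟨h20, h21, h2B, T2, hc2, hT2⟩
  · exact sound_chkB (vtx_rep v) hA h30 h31 (le _ h3) hij hjk (eq _ _ _ (hT3 i hi))
      (eq _ _ _ (hT3 j hj)) (eq _ _ _ (hT3 k hk)) h40 h41 (le _ h4) hab (eq _ _ _ (hT4 a ha))
      (eq _ _ _ (hT4 b hb))
  · obtain ⟨i', j', k', hij', hjk', hi', hj', hk'⟩ := exists_triple hc2
    have hrep := sound_half (vtx_rep v) h20 h21 (chkB_det hA hij' hjk') (eq _ _ _ (hT2 i' hi'))
      (eq _ _ _ (hT2 j' hj')) (eq _ _ _ (hT2 k' hk'))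
    have hin := hrep.inB (le _ h2B)
    have h1 := (List.all_eq_true.1 hH) _ (mem_trips hij' hjk')
    simp only [hin, Bool.not_true, Bool.false_or] at h1
    exact sound_chkB hrep h1 h30 h31 (le _ h3) hij hjk (eq _ _ _ (hT3 i hi))
      (eq _ _ _ (hT3 j hj)) (eq _ _ _ (hT3 k hk)) h40 h41 (le _ h4) hab (eq _ _ _ (hT4 a ha))
      (eq _ _ _ (hT4 b hb))

end Pool.Agent.CH76

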