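import Mathlib

/-!
# CH76/Lib: positively spanning families
-/

namespace Pool.Agent.CH76

open Matrix Filter Topology

/-- a positively spanning finite family is positive with a margin -/
theorem exists_margin {n : ℕ} {α : Type*} [Finite α] (c : α → Fin n → ℝ)
    (hc : ∀ x : Fin n → ℝ, (∀ i, c i ⬝ᵥ x ≤ 0) → x = 0) :
    ∃ m : ℝ, 0 < m ∧ ∀ x : Fin n → ℝ, x ≠ 0 → ∃ i, m * ‖x‖ ≤ c i ⬝ᵥ x := by
  classical
  by_cases hS : (Metric.sphere (0 : Fin n → ℝ) 1).Nonempty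
  swap
  · refine ⟨1, one_pos, fun x hx => ?_⟩
    exfalso
    apply hS
    refine ⟨‖x‖⁻¹ • x, ?_⟩
    have : ‖x‖ ≠ 0 := norm_ne_zero_iff.2 hx
    rw [mem_sphere_zero_iff_norm, norm_smul, norm_inv, norm_norm, inv_mul_cancel₀ this]
  have hne : Nonempty α := by
    obtain ⟨x, hx⟩ := hS
    by_contra h
    rw [not_nonempty_iff] at h
    have := hc x fun i => (h.false i).elim
    rw [this] at hx
    simp at hx
  have : Fintype α := Fintype.ofFinite α
  have hcont : ∀ i, Continuous fun x : Fin n → ℝ => c i ⬝ᵥ x := by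
    intro i
    unfold dotProduct
    fun_prop
  have hf : Continuous fun x : Fin n → ℝ => Finset.univ.sup' Finset.univ_nonempty fun i => c i ⬝ᵥ x :=
    Continuous.finset_sup'_apply Finset.univ_nonempty fun i _ => hcont i
  obtain ⟨x0, hx0, hmin⟩ := (isCompact_sphere (0 : Fin n → ℝ) 1).exists_isMinOn hS hf.continuousOn
  have hpos : 0 < Finset.univ.sup' Finset.univ_nonempty fun i => c i ⬝ᵥ x0 := by
    by_contra h
    push Not at h
    have h1 : x0 = 0 := hc x0 fun i => by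
      have := (Finset.sup'_le_iff Finset.univ_nonempty _).1 h i (Finset.mem_univ i)
      exact this
    rw [h1] at hx0
    simp at hx0
  refine ⟨_, hpos, fun x hx => ?_⟩
  have hnx : 0 < ‖x‖ := norm_pos_iff.2 hx
  have hmem : ‖x‖⁻¹ • x ∈ Metric.sphere (0 : Fin n → ℝ) 1 := by
    rw [mem_sphere_zero_iff_norm, norm_smul, norm_inv, norm_norm, inv_mul_cancel₀ hnx.ne']
  have h2 := hmin hmem
  rw [Set.mem_ofPred_eq] at h2
  obtain ⟨i, _, hi⟩ := Finset.exists_mem_eq_sup' Finset.univ_nonempty fun i => c i ⬝ᵥ (‖x‖⁻¹ • x)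
  refine ⟨i, ?_⟩
  have h3 := h2.trans_eq hi
  rw [dotProduct_smul, smul_eq_mul] at h3
  rw [← div_eq_inv_mul, le_div_iff₀ hnx] at h3
  exact h3

/-- the polyhedron of a positively spanning family is bounded -/
theorem exists_bound {n : ℕ} {α : Type*} [Finite α] (c : α → Fin n → ℝ)
    (hc : ∀ x : Fin n → ℝ, (∀ i, c i ⬝ᵥ x ≤ 0) → x = 0) :
    ∃ M : ℝ, ∀ x : Fin n → ℝ, (∀ i, c i ⬝ᵥ x ≤ 1) → ‖x‖ ≤ M := by
  obtain ⟨m, hm, h⟩ := exists_margin c hc
  refine ⟨1 / m, fun x hx => ?_⟩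
  by_cases h0 : x = 0
  · rw [h0, norm_zero]; positivity
  obtain ⟨i, hi⟩ := h x h0
  rw [le_div_iff₀ hm, mul_comm]
  exact hi.trans (hx i)

end Pool.Agent.CH76
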