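import Pool.Agent.CH74.LiftMain
import Pool.Agent.CH76.Defs
import Pool.Agent.CH76.Lib

/-!
# CH76/LemU: from the cylinder model to a violation of the circuit Hirsch bound

If there is no robust walk with `k ≤ n` points, then for small `δ > 0` the spindle with the rows
`(-c i, 1)` and `(δ y j, 1)` satisfies `CH74.Base`, so the lifting theorem applies.
-/

namespace Pool.Agent.CH76

open Matrix Filter Topology Module
open Pool.Agent.CH74 (Reach BCirc BPoly Base Violates ultra_const ultra_lim)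

/-- the first coordinates -/
def xp {n : ℕ} (z : Fin (n + 1) → ℝ) : Fin n → ℝ := fun k => z k.castSucc

/-- the rows at the start -/
def rA {n : ℕ} (c : Fin n → ℝ) : Fin (n + 1) → ℝ := Fin.snoc (α := fun _ => ℝ) (fun k => -c k) 1

/-- the rows at the target -/
def rB {n : ℕ} (δ : ℝ) (y : Fin n → ℝ) : Fin (n + 1) → ℝ :=
  Fin.snoc (α := fun _ => ℝ) (fun k => δ * y k) 1

theorem rA_dot {n : ℕ} (c : Fin n → ℝ) (z : Fin (n + 1) → ℝ) :
    rA c ⬝ᵥ z = -(c ⬝ᵥ xp z) + z (Fin.last n) := by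
  unfold rA xp dotProduct
  rw [Fin.sum_univ_castSucc]
  simp only [Fin.snoc_castSucc, Fin.snoc_last, one_mul, neg_mul, Finset.sum_neg_distrib]

theorem rB_dot {n : ℕ} (δ : ℝ) (y : Fin n → ℝ) (z : Fin (n + 1) → ℝ) :
    rB δ y ⬝ᵥ z = δ * (y ⬝ᵥ xp z) + z (Fin.last n) := by
  unfold rB xp dotProduct
  rw [Fin.sum_univ_castSucc]
  simp only [Fin.snoc_castSucc, Fin.snoc_last, one_mul, mul_assoc, ← Finset.mul_sum]

theorem xp_sub {n : ℕ} (z w : Fin (n + 1) → ℝ) : xp (z - w) = xp z - xp w := rfl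

theorem xp_smul {n : ℕ} (t : ℝ) (z : Fin (n + 1) → ℝ) : xp (t • z) = t • xp z := rfl

theorem ext_xp {n : ℕ} {z w : Fin (n + 1) → ℝ} (h1 : xp z = xp w) (h2 : z (Fin.last n) = w (Fin.last n)) :
    z = w := by
  ext k
  refine Fin.lastCases ?_ (fun k => ?_) k
  · exact h2
  · exact congrFun h1 k

/-! ## choice of a basis -/

theorem exists_basis_equiv {D : ℕ} {α : Type} [Fintype α] (v : α → Fin D → ℝ)
    (hv : ∀ g : Fin D → ℝ, (∀ i, v i ⬝ᵥ g = 0) → g = 0) :
    ∃ (a : ℕ) (e : Fin D ⊕ Fin a ≃ α), ∀ g : Fin D → ℝ, (∀ i, v (e (Sum.inl i)) ⬝ᵥ g = 0) → g = 0 := by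
  classical
  obtain ⟨κ, s, hs, hspan, hli⟩ := exists_linearIndependent' ℝ v
  have hfin : Finite κ := Finite.of_injective s hs
  have : Fintype κ := Fintype.ofFinite κ
  have hkill : ∀ g : Fin D → ℝ, (∀ i, v (s i) ⬝ᵥ g = 0) → g = 0 := by
    intro g hg
    apply hv
    intro i
    set f : (Fin D → ℝ) →ₗ[ℝ] ℝ := CH74.dl g with hf
    have hfa : ∀ w, f w = w ⬝ᵥ g := by
      intro w
      rw [hf, CH74.dl_apply, dotProduct_comm]
    have h1 : Submodule.span ℝ (Set.range (v ∘ s)) ≤ LinearMap.ker f := by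
      rw [Submodule.span_le]
      rintro _ ⟨i, rfl⟩
      rw [SetLike.mem_coe, LinearMap.mem_ker, hfa]
      exact hg i
    rw [hspan] at h1
    have h2 : v i ∈ LinearMap.ker f := h1 (Submodule.subset_span ⟨i, rfl⟩)
    rwa [LinearMap.mem_ker, hfa] at h2
  have hcard : Fintype.card κ = D := by
    apply le_antisymm
    · have := hli.fintype_card_le_finrank
      rwa [finrank_fin_fun] at this
    · set f : (Fin D → ℝ) →ₗ[ℝ] (κ → ℝ) := LinearMap.pi fun i => CH74.dl (v (s i)) with hf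
      have hinj : Function.Injective f := by
        rw [← LinearMap.ker_eq_bot, LinearMap.ker_eq_bot']
        intro g hg
        exact hkill g fun i => congrFun hg i
      have := LinearMap.finrank_le_finrank_of_injective hinj
      rwa [finrank_fin_fun, finrank_fintype_fun_eq_card] at this
  set e1 : Fin D ≃ κ := (Fintype.equivFinOfCardEq hcard).symm with he1
  set e2 : κ ≃ Set.range s := Equiv.ofInjective s hs with he2
  set a := Fintype.card ((Set.range s)ᶜ : Set α) with ha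
  set e3 : Fin a ≃ ((Set.range s)ᶜ : Set α) := (Fintype.equivFin _).symm with he3
  refine ⟨a, (Equiv.sumCongr (e1.trans e2) e3).trans (Equiv.Set.sumCompl (Set.range s)), ?_⟩
  intro g hg
  apply hkill
  intro i
  have h1 := hg (e1.symm i)
  have h2 : ((Equiv.sumCongr (e1.trans e2) e3).trans (Equiv.Set.sumCompl (Set.range s)))
      (Sum.inl (e1.symm i)) = s i := by
    simp [he2]
  rwa [h2] at h1

/-! ## chains -/

theorem reach_all {D : ℕ} {α β : Type*} [DecidableEq β] {RA : α → Fin D → ℝ} {RB : β → Fin D → ℝ}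
    {Y : Fin D → ℝ} (hY : Y ∈ BPoly RA RB) (bY : ∀ j, RB j ⬝ᵥ Y = 1) {S : Finset β}
    (h : Reach RA RB S Y) (T : Finset β) : Reach RA RB (S ∪ T) Y := by
  induction T using Finset.induction_on with
  | empty => rwa [Finset.union_empty]
  | insert j T _ ih =>
    rw [Finset.union_insert]
    by_cases hj : j ∈ S ∪ T
    · rwa [Finset.insert_eq_of_mem hj]
    · exact Reach.step j Y ih hj (Or.inl rfl) hY fun i _ => bY i

theorem chain {D : ℕ} {α β : Type*} [DecidableEq β] [Nonempty β] {RA : α → Fin D → ℝ}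
    {RB : β → Fin D → ℝ} {S : Finset β} {x : Fin D → ℝ} (h : Reach RA RB S x) :
    ∃ (p : ℕ → Fin D → ℝ) (j : ℕ → β), p 0 = 0 ∧ p S.card = x ∧
      (∀ l < S.card, (p (l + 1) = p l ∨ ∃ g, BCirc RA RB g ∧ ∃ t : ℝ, p (l + 1) - p l = t • g) ∧
        p (l + 1) ∈ BPoly RA RB ∧ ∀ m ≤ l, RB (j m) ⬝ᵥ p (l + 1) = 1) ∧
      (∀ l < S.card, j l ∈ S) ∧ ∀ l < S.card, ∀ m < S.card, j l = j m → l = m := by
  induction h with
  | zero =>
    refine ⟨fun _ => 0, fun _ => Classical.arbitrary β, rfl, rfl, ?_, ?_, ?_⟩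
    · intro l hl
      rw [Finset.card_empty] at hl
      omega
    · intro l hl
      rw [Finset.card_empty] at hl
      omega
    · intro l hl
      rw [Finset.card_empty] at hl
      omega
  | @step S x j x' h1 hj hg hP hw ih =>
    obtain ⟨p, q, hp0, hpx, hst, hq, hinj⟩ := ih
    have hcard : (insert j S).card = S.card + 1 := Finset.card_insert_of_notMem hj
    refine ⟨fun l => if l ≤ S.card then p l else x', fun l => if l < S.card then q l else j, ?_, ?_,
      ?_, ?_, ?_⟩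
    · simp [hp0]
    · rw [hcard]
      simp
    · intro l hl
      rw [hcard] at hl
      rcases Nat.lt_succ_iff_lt_or_eq.1 hl with hl | hl
      · obtain ⟨h3, h4, h5⟩ := hst l hl
        simp only [if_pos hl.le, if_pos (Nat.succ_le_of_lt hl)]
        refine ⟨h3, h4, fun m hm => ?_⟩
        rw [if_pos (lt_of_le_of_lt hm hl)]
        exact h5 m hm
      · subst hl
        simp only [le_refl, if_true, if_neg (Nat.not_succ_le_self S.card)]
        rw [hpx]
        refine ⟨hg, hP, fun m hm => ?_⟩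
        split_ifs with h6
        · exact hw _ (Finset.mem_insert_of_mem (hq m h6))
        · exact hw _ (Finset.mem_insert_self _ _)
    · intro l hl
      beta_reduce
      split_ifs with h6
      · exact Finset.mem_insert_of_mem (hq l h6)
      · exact Finset.mem_insert_self _ _
    · intro l hl m hm
      rw [hcard] at hl hm
      beta_reduce
      split_ifs with h6 h7 h7
      · exact hinj l h6 m h7
      · intro h8
        exact absurd (h8 ▸ hq l h6) hj
      · intro h8
        exact absurd (h8 ▸ hq m h7) hj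
      · intro _
        omega

/-- at least `D - 1` rows vanish on a circuit -/
theorem circ_card {D : ℕ} {α β : Type*} [Fintype α] [Fintype β] {RA : α → Fin (D + 1) → ℝ}
    {RB : β → Fin (D + 1) → ℝ} {g : Fin (D + 1) → ℝ} (hg : BCirc RA RB g) (SA : Finset α) (SB : Finset β)
    (hA : ∀ i, RA i ⬝ᵥ g = 0 → i ∈ SA) (hB : ∀ j, RB j ⬝ᵥ g = 0 → j ∈ SB) :
    D ≤ SA.card + SB.card := by
  set f : (Fin (D + 1) → ℝ) →ₗ[ℝ] (SA → ℝ) × (SB → ℝ) :=
    LinearMap.prod (LinearMap.pi fun i : SA => CH74.dl (RA i))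
      (LinearMap.pi fun j : SB => CH74.dl (RB j)) with hf
  have hker : LinearMap.ker f ≤ Submodule.span ℝ {g} := by
    intro h hh
    have h0 : f h = 0 := hh
    obtain ⟨t, ht⟩ := hg.2 h (fun i hi => by
      have := congrFun (congrArg Prod.fst h0) ⟨i, hA i hi⟩
      exact this) (fun j hj => by
      have := congrFun (congrArg Prod.snd h0) ⟨j, hB j hj⟩
      exact this)
    exact Submodule.mem_span_singleton.2 ⟨t, ht.symm⟩
  have h1 : finrank ℝ (LinearMap.ker f) ≤ 1 :=
    (Submodule.finrank_mono hker).trans (finrank_span_singleton hg.1).le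
  have h2 := LinearMap.finrank_range_add_finrank_ker f
  have h3 : finrank ℝ (LinearMap.range f) ≤ SA.card + SB.card := by
    refine (Submodule.finrank_le _).trans ?_
    rw [finrank_prod, finrank_fintype_fun_eq_card, finrank_fintype_fun_eq_card]
    simp
  rw [finrank_fin_fun] at h2
  omega

/-! ## the limit `δ → 0` -/

/-- target -/
def yT (n : ℕ) : Fin (n + 1) → ℝ := Fin.snoc (α := fun _ => ℝ) (fun _ => 0) 1

theorem xp_yT (n : ℕ) : xp (yT n) = 0 := by
  ext k
  simp [xp, yT]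

theorem yT_last (n : ℕ) : yT n (Fin.last n) = 1 := by
  simp [yT]

theorem span_ge {n : ℕ} {α : Type*} [Fintype α] (c : α → Fin n → ℝ)
    (hc : ∀ x : Fin n → ℝ, (∀ i, c i ⬝ᵥ x ≤ 0) → x = 0) : n ≤ Fintype.card α := by
  set f : (Fin n → ℝ) →ₗ[ℝ] (α → ℝ) := LinearMap.pi fun i => CH74.dl (c i) with hf
  have hinj : Function.Injective f := by
    rw [← LinearMap.ker_eq_bot, LinearMap.ker_eq_bot']
    intro g hg
    exact hc g fun i => (congrFun hg i : c i ⬝ᵥ g = 0).le
  have := LinearMap.finrank_le_finrank_of_injective hinj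
  rwa [finrank_fin_fun, finrank_fintype_fun_eq_card] at this

theorem exists_base {n k a b : ℕ} (c : Fin (n + 1) ⊕ Fin a → Fin n → ℝ)
    (y : Fin (n + 1) ⊕ Fin b → Fin n → ℝ) (hk1 : 1 ≤ k) (hk : k ≤ n)
    (hc : ∀ x : Fin n → ℝ, (∀ i, c i ⬝ᵥ x ≤ 0) → x = 0)
    (hy : ∀ x : Fin n → ℝ, (∀ j, y j ⬝ᵥ x ≤ 0) → x = 0)
    (hcb : ∀ g : Fin (n + 1) → ℝ, (∀ i, rA (c (Sum.inl i)) ⬝ᵥ g = 0) → g = 0)
    (hyb : ∀ g : Fin (n + 1) → ℝ, (∀ i, rB 1 (y (Sum.inl i)) ⬝ᵥ g = 0) → g = 0)
    (h : ¬ ∃ x j, RobustWalk c y k x j) :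
    ∃ δ0 : ℝ, 0 < δ0 ∧ ∃ δ : ℝ, 0 < δ ∧ δ ≤ δ0 ∧
      Base (fun i => rA (c i)) (fun j => rB δ (y j)) (yT n) := by
  classical
  refine ⟨1, one_pos, ?_⟩
  by_contra hcon
  push Not at hcon
  -- generalities
  have hYB : ∀ δ : ℝ, yT n ∈ BPoly (fun i => rA (c i)) (fun j => rB δ (y j)) := by
    intro δ
    constructor
    · intro i
      rw [rA_dot, xp_yT, yT_last, dotProduct_zero]
      norm_num
    · intro j
      rw [rB_dot, xp_yT, yT_last, dotProduct_zero]
      norm_num
  have hbY : ∀ δ : ℝ, ∀ j, rB δ (y j) ⬝ᵥ yT n = 1 := by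
    intro δ j
    rw [rB_dot, xp_yT, yT_last, dotProduct_zero]
    norm_num
  have hGnn : ∀ x : Fin n → ℝ, ∃ j, 0 ≤ y j ⬝ᵥ x := by
    intro x
    by_contra h1
    push Not at h1
    have h2 := hy x fun j => (h1 j).le
    have h3 := h1 (Sum.inl 0)
    rw [h2, dotProduct_zero] at h3
    exact lt_irrefl _ h3
  have hreach : ∀ δ : ℝ, 0 < δ → δ ≤ 1 →
      Reach (fun i => rA (c i)) (fun j => rB δ (y j)) Finset.univ (yT n) := by
    intro δ hδ hδ1
    by_contra hno
    apply hcon δ hδ hδ1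
    refine ⟨hbY δ, ?_, ?_, hcb, ?_, ?_⟩
    · intro i
      rw [rA_dot, xp_yT, yT_last, dotProduct_zero]
      norm_num
    · intro x hA hB
      have h1 : ∀ i, c i ⬝ᵥ xp x ≤ x (Fin.last n) := by
        intro i
        have := hA i
        rw [rA_dot] at this
        linarith
      have h2 : x (Fin.last n) ≤ 0 := by
        obtain ⟨j, hj⟩ := hGnn (xp x)
        have := hB j
        rw [rB_dot] at this
        have : 0 ≤ δ * (y j ⬝ᵥ xp x) := by positivity
        linarith
      have h3 : xp x = 0 := hc _ fun i => (h1 i).trans h2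
      have h4 : x (Fin.last n) = 0 := by
        apply le_antisymm h2
        have := h1 (Sum.inl 0)
        rwa [h3, dotProduct_zero] at this
      exact ext_xp (w := 0) h3 h4
    · intro g hg
      -- rescale the first coordinates
      set g' : Fin (n + 1) → ℝ := Fin.snoc (α := fun _ => ℝ) (fun k => δ * xp g k) (g (Fin.last n)) with hg'
      have hxp : xp g' = δ • xp g := by
        ext k
        simp [xp, hg']
      have hlast : g' (Fin.last n) = g (Fin.last n) := by simp [hg']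
      have h1 : g' = 0 := by
        apply hyb
        intro i
        have := hg i
        rw [rB_dot] at this ⊢
        rw [hxp, hlast, dotProduct_smul, smul_eq_mul, one_mul]
        exact this
      have h2 : xp g = 0 := by
        have : xp g' = 0 := by rw [h1]; rfl
        rw [hxp] at this
        rcases smul_eq_zero.1 this with h | h
        · exact absurd h hδ.ne'
        · exact h
      have h3 : g (Fin.last n) = 0 := by rw [← hlast, h1]; rfl
      exact ext_xp (w := 0) h2 h3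
    · intro S hS
      apply hno
      have := reach_all (hYB δ) (hbY δ) hS Finset.univ
      rwa [Finset.union_eq_right.2 (Finset.subset_univ S)] at this
  -- the sequence
  set δ : ℕ → ℝ := fun m => 1 / ((m : ℝ) + 1) with hδ
  have hδpos : ∀ m, 0 < δ m := fun m => by rw [hδ]; positivity
  have hδ1 : ∀ m, δ m ≤ 1 := by
    intro m
    rw [hδ]
    simp only
    rw [div_le_one (by positivity)]
    have : (0 : ℝ) ≤ m := Nat.cast_nonneg m
    linarith
  have hδ0 : Tendsto δ atTop (𝓝 0) := tendsto_one_div_add_atTop_nhds_zero_nat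
  have hN : k ≤ (Finset.univ : Finset (Fin (n + 1) ⊕ Fin b)).card := by
    rw [Finset.card_univ]
    simp only [Fintype.card_sum, Fintype.card_fin]
    omega
  choose p j hp0 _ hst _ hinj using fun m => chain (hreach (δ m) (hδpos m) (hδ1 m))
  set U : Ultrafilter ℕ := Filter.hyperfilter ℕ with hU
  have hUle : (U : Filter ℕ) ≤ atTop := Nat.hyperfilter_le_atTop
  have hδU : Tendsto δ U (𝓝 0) := hδ0.mono_left hUle
  obtain ⟨J, hJ⟩ := ultra_const U (fun m => fun l : Fin k => j m l)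
  obtain ⟨Z, hZ⟩ := ultra_const U (fun m => fun l : Fin k =>
    ((Finset.univ.filter fun i => rA (c i) ⬝ᵥ (p m (l + 1) - p m l) = 0),
      (Finset.univ.filter fun i => rB (δ m) (y i) ⬝ᵥ (p m (l + 1) - p m l) = 0)))
  -- facts for every m, l < k
  have hstk : ∀ m, ∀ l < k, (p m (l + 1) = p m l ∨ ∃ g, BCirc (fun i => rA (c i))
      (fun j => rB (δ m) (y j)) g ∧ ∃ t : ℝ, p m (l + 1) - p m l = t • g) ∧
      p m (l + 1) ∈ BPoly (fun i => rA (c i)) (fun j => rB (δ m) (y j)) ∧
      ∀ q ≤ l, rB (δ m) (y (j m q)) ⬝ᵥ p m (l + 1) = 1 :=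
    fun m l hl => hst m l (lt_of_lt_of_le hl hN)
  have hlast1 : ∀ m, ∀ l < k, p m (l + 1) (Fin.last n) ≤ 1 := by
    intro m l hl
    obtain ⟨q, hq⟩ := hGnn (xp (p m (l + 1)))
    have h1 := (hstk m l hl).2.1.2 q
    rw [rB_dot] at h1
    have : 0 ≤ δ m * (y q ⬝ᵥ xp (p m (l + 1))) := mul_nonneg (hδpos m).le hq
    linarith
  have hcle : ∀ m, ∀ l < k, ∀ i, c i ⬝ᵥ xp (p m (l + 1)) ≤ 1 := by
    intro m l hl i
    have h1 := (hstk m l hl).2.1.1 i
    rw [rA_dot] at h1
    have := hlast1 m l hl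
    linarith
  obtain ⟨M, hM⟩ := exists_bound c hc
  have hlimex : ∀ l : ℕ, ∃ q : Fin n → ℝ, l < k → Tendsto (fun m => xp (p m (l + 1))) U (𝓝 q) := by
    intro l
    by_cases hl : l < k
    · obtain ⟨q, hq⟩ := ultra_lim U (fun m => xp (p m (l + 1))) M
        (Eventually.of_forall fun m => hM _ (hcle m l hl))
      exact ⟨q, fun _ => hq⟩
    · exact ⟨0, fun h => absurd h hl⟩
  choose x hx using hlimex
  have hdl : ∀ R : Fin n → ℝ, Continuous (fun x : Fin n → ℝ => R ⬝ᵥ x) := by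
    intro R
    exact (LinearMap.continuous_of_finiteDimensional (CH74.dl R) :)
  have hdot : ∀ R : Fin n → ℝ, ∀ l < k, Tendsto (fun m => R ⬝ᵥ xp (p m (l + 1))) U (𝓝 (R ⬝ᵥ x l)) :=
    fun R l hl => ((hdl R).tendsto _).comp (hx l hl)
  -- last coordinate tends to one
  have hlastlim : ∀ l < k, Tendsto (fun m => p m (l + 1) (Fin.last n)) U (𝓝 1) := by
    intro l hl
    have h1 : ∀ᶠ m in (U : Filter ℕ), p m (l + 1) (Fin.last n) =
        1 - δ m * (y (J ⟨0, hk1⟩) ⬝ᵥ xp (p m (l + 1))) := by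
      filter_upwards [hJ] with m hm
      have h2 := (hstk m l hl).2.2 0 (Nat.zero_le l)
      have h3 : j m 0 = J ⟨0, hk1⟩ := congrFun hm ⟨0, hk1⟩
      rw [h3, rB_dot] at h2
      linarith
    have h2 : Tendsto (fun m => 1 - δ m * (y (J ⟨0, hk1⟩) ⬝ᵥ xp (p m (l + 1)))) U
        (𝓝 (1 - 0 * (y (J ⟨0, hk1⟩) ⬝ᵥ x l))) :=
      tendsto_const_nhds.sub (hδU.mul (hdot _ l hl))
    rw [zero_mul, sub_zero] at h2
    exact h2.congr' (h1.mono fun m hm => hm.symm)
  apply h
  set j' : ℕ → Fin (n + 1) ⊕ Fin b := fun l => if hl : l < k then J ⟨l, hl⟩ else Sum.inl 0 with hj'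
  have hj'J : ∀ l (hl : l < k), ∀ᶠ m in (U : Filter ℕ), j m l = j' l := by
    intro l hl
    filter_upwards [hJ] with m hm
    rw [hj']
    simp only [dif_pos hl]
    exact congrFun hm ⟨l, hl⟩
  have htight : ∀ l < k, ∀ q ≤ l, ∀ᶠ m in (U : Filter ℕ),
      δ m * (y (j' q) ⬝ᵥ xp (p m (l + 1))) + p m (l + 1) (Fin.last n) = 1 := by
    intro l hl q hq
    filter_upwards [hj'J q (lt_of_le_of_lt hq hl)] with m hm
    have := (hstk m l hl).2.2 q hq
    rwa [hm, rB_dot] at this
  refine ⟨x, j', ?_, ?_, ?_, ?_, ?_, ?_⟩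
  · -- mem
    intro l hl i
    exact le_of_tendsto (hdot _ l hl) (Eventually.of_forall fun m => hcle m l hl i)
  · -- inj
    intro l hl q hq hlq
    obtain ⟨m, hm1, hm2⟩ := ((hj'J l hl).and (hj'J q hq)).exists
    exact hinj m l (lt_of_lt_of_le hl hN) q (lt_of_lt_of_le hq hN) (by rw [hm1, hm2, hlq])
  · -- max
    intro l hl i
    refine le_of_tendsto_of_tendsto (hdot _ l hl) (hdot _ l hl) ?_
    filter_upwards [htight l hl 0 (Nat.zero_le l)] with m hm
    have h1 := (hstk m l hl).2.1.2 i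
    rw [rB_dot] at h1
    have h2 : δ m * (y i ⬝ᵥ xp (p m (l + 1))) ≤ δ m * (y (j' 0) ⬝ᵥ xp (p m (l + 1))) := by linarith
    exact le_of_mul_le_mul_left h2 (hδpos m)
  · -- tie
    intro l hl q hq
    refine tendsto_nhds_unique (hdot _ l hl) ((hdot (y (j' 0)) l hl).congr' ?_)
    filter_upwards [htight l hl 0 (Nat.zero_le l), htight l hl q hq] with m hm1 hm2
    have h2 : δ m * (y (j' 0) ⬝ᵥ xp (p m (l + 1))) = δ m * (y (j' q) ⬝ᵥ xp (p m (l + 1))) := by
      linarith
    exact mul_left_cancel₀ (hδpos m).ne' h2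
  · -- first
    refine ⟨(Z ⟨0, hk1⟩).1, ?_, ?_⟩
    · -- for large m no wall vanishes on the first direction
      have hsmall : ∀ᶠ m in (U : Filter ℕ), ∀ q,
          0 < rB (δ m) (y q) ⬝ᵥ p m (0 + 1) := by
        rw [eventually_all]
        intro q
        have h1 : Tendsto (fun m => δ m * (y q ⬝ᵥ xp (p m (0 + 1))) + p m (0 + 1) (Fin.last n)) U
            (𝓝 (0 * (y q ⬝ᵥ x 0) + 1)) := (hδU.mul (hdot _ 0 hk1)).add (hlastlim 0 hk1)
        have h0 : (0 : ℝ) < 0 * (y q ⬝ᵥ x 0) + 1 := by rw [zero_mul]; norm_num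
        filter_upwards [h1.eventually (lt_mem_nhds h0)] with m hm
        rw [rB_dot]
        exact hm
      obtain ⟨m, hm1, hm2⟩ := (hsmall.and hZ).exists
      have hZm := congrFun hm2 ⟨0, hk1⟩
      simp only at hZm
      have hne : p m (0 + 1) - p m 0 ≠ 0 := by
        intro h0
        have := hm1 (Sum.inl 0)
        rw [sub_eq_zero.1 h0, hp0, dotProduct_zero] at this
        exact lt_irrefl _ this
      rcases (hstk m 0 hk1).1 with h1 | ⟨g, hg, t, ht⟩
      · exact absurd (sub_eq_zero.2 h1) hne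
      · have hcard := circ_card hg (Z ⟨0, hk1⟩).1 ∅ (by
          intro i hi
          rw [← hZm]
          simp only [Finset.mem_filter, Finset.mem_univ, true_and]
          rw [ht, dotProduct_smul, hi, smul_zero]) (by
          intro q hq
          exfalso
          have h2 := hm1 q
          have h3 : p m (0 + 1) = t • g := by rw [← ht, hp0, sub_zero]
          rw [h3, dotProduct_smul, hq, smul_zero] at h2
          exact lt_irrefl _ h2)
        simpa using hcard
    · intro i hi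
      have h1 : ∀ᶠ m in (U : Filter ℕ), c i ⬝ᵥ xp (p m (0 + 1)) = p m (0 + 1) (Fin.last n) := by
        filter_upwards [hZ] with m hm
        have hZm := congrFun hm ⟨0, hk1⟩
        simp only at hZm
        rw [← hZm] at hi
        simp only [Finset.mem_filter, Finset.mem_univ, true_and] at hi
        rw [hp0, sub_zero, rA_dot] at hi
        linarith
      exact tendsto_nhds_unique ((hdot _ 0 hk1).congr' h1) (hlastlim 0 hk1)
  · -- step
    intro l hl
    have hl' : l < k := by omega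
    refine ⟨(Z ⟨l + 1, hl⟩).1, (Z ⟨l + 1, hl⟩).2, ?_, ?_, ?_⟩
    · obtain ⟨m, hm⟩ := hZ.exists
      have hZm := congrFun hm ⟨l + 1, hl⟩
      simp only at hZm
      rw [← hZm]
      rcases (hstk m (l + 1) hl).1 with h1 | ⟨g, hg, t, ht⟩
      · rw [h1, sub_self]
        simp only [dotProduct_zero, Finset.filter_true, Finset.card_univ, Fintype.card_sum,
          Fintype.card_fin]
        omega
      · apply circ_card hg
        · intro i hi
          simp only [Finset.mem_filter, Finset.mem_univ, true_and]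
          rw [ht, dotProduct_smul, hi, smul_zero]
        · intro i hi
          simp only [Finset.mem_filter, Finset.mem_univ, true_and]
          rw [ht, dotProduct_smul, hi, smul_zero]
    · intro i hi
      have h1 : ∀ᶠ m in (U : Filter ℕ), c i ⬝ᵥ xp (p m (l + 1 + 1)) - c i ⬝ᵥ xp (p m (l + 1)) =
          p m (l + 1 + 1) (Fin.last n) - p m (l + 1) (Fin.last n) := by
        filter_upwards [hZ] with m hm
        have hZm := congrFun hm ⟨l + 1, hl⟩
        simp only at hZm
        rw [← hZm] at hi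
        simp only [Finset.mem_filter, Finset.mem_univ, true_and] at hi
        rw [rA_dot, xp_sub, dotProduct_sub, Pi.sub_apply] at hi
        linarith
      have h2 := ((hdot (c i) (l + 1) hl).sub (hdot (c i) l hl')).congr' h1
      have h3 := (hlastlim (l + 1) hl).sub (hlastlim l hl')
      have h4 := tendsto_nhds_unique h2 h3
      rw [dotProduct_sub, h4, sub_self]
    · intro i hi
      have h1 : ∀ᶠ m in (U : Filter ℕ), y i ⬝ᵥ xp (p m (l + 1 + 1)) - y i ⬝ᵥ xp (p m (l + 1)) =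
          y (j' 0) ⬝ᵥ xp (p m (l + 1 + 1)) - y (j' 0) ⬝ᵥ xp (p m (l + 1)) := by
        filter_upwards [hZ, htight (l + 1) hl 0 (Nat.zero_le _), htight l hl' 0 (Nat.zero_le _)] with m hm
          hm1 hm2
        have hZm := congrFun hm ⟨l + 1, hl⟩
        simp only at hZm
        rw [← hZm] at hi
        simp only [Finset.mem_filter, Finset.mem_univ, true_and] at hi
        rw [rB_dot, xp_sub, dotProduct_sub, Pi.sub_apply] at hi
        apply mul_left_cancel₀ (hδpos m).ne'
        linarith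
      have h2 := ((hdot (y i) (l + 1) hl).sub (hdot (y i) l hl')).congr' h1
      have h3 := (hdot (y (j' 0)) (l + 1) hl).sub (hdot (y (j' 0)) l hl')
      have h4 := tendsto_nhds_unique h2 h3
      rw [dotProduct_sub, dotProduct_sub, h4]

/-- reindexing robust walks -/
theorem robust_reindex {n k : ℕ} {α β α' β' : Type*} (c : α → Fin n → ℝ) (y : β → Fin n → ℝ)
    (eA : α' ≃ α) (eB : β' ≃ β) {x : ℕ → Fin n → ℝ} {j : ℕ → β'}
    (h : RobustWalk (fun i => c (eA i)) (fun i => y (eB i)) k x j) :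
    RobustWalk c y k x (fun l => eB (j l)) := by
  classical
  refine ⟨?_, ?_, ?_, ?_, ?_, ?_⟩
  · intro l hl i
    have := h.mem l hl (eA.symm i)
    simpa using this
  · intro l hl m hm hlm
    exact h.inj l hl m hm (eB.injective hlm)
  · intro l hl i
    have := h.max l hl (eB.symm i)
    simpa using this
  · intro l hl m hm
    exact h.tie l hl m hm
  · obtain ⟨S, hS, hS1⟩ := h.first
    refine ⟨S.map eA.toEmbedding, by rwa [Finset.card_map], ?_⟩
    intro i hi
    rw [Finset.mem_map] at hi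
    obtain ⟨i', hi', rfl⟩ := hi
    exact hS1 i' hi'
  · intro l hl
    obtain ⟨SA, SB, h1, h2, h3⟩ := h.step l hl
    refine ⟨SA.map eA.toEmbedding, SB.map eB.toEmbedding, by rwa [Finset.card_map, Finset.card_map],
      ?_, ?_⟩
    · intro i hi
      rw [Finset.mem_map] at hi
      obtain ⟨i', hi', rfl⟩ := hi
      exact h2 i' hi'
    · intro i hi
      rw [Finset.mem_map] at hi
      obtain ⟨i', hi', rfl⟩ := hi
      exact h3 i' hi'

theorem rA_span {n : ℕ} {α : Type*} (c : α → Fin n → ℝ)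
    (hc : ∀ x : Fin n → ℝ, (∀ i, c i ⬝ᵥ x ≤ 0) → x = 0) (g : Fin (n + 1) → ℝ)
    (hg : ∀ i, rA (c i) ⬝ᵥ g = 0) (hne : Nonempty α) : g = 0 := by
  have h1 : ∀ i, c i ⬝ᵥ xp g = g (Fin.last n) := by
    intro i
    have := hg i
    rw [rA_dot] at this
    linarith
  have h2 : xp g = 0 := by
    rcases le_total (g (Fin.last n)) 0 with h | h
    · exact hc _ fun i => by rw [h1 i]; exact h
    · have h3 : -xp g = 0 := hc _ fun i => by
        rw [dotProduct_neg, h1 i]
        linarith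
      exact neg_eq_zero.1 h3
  obtain ⟨i⟩ := hne
  have h3 : g (Fin.last n) = 0 := by rw [← h1 i, h2, dotProduct_zero]
  exact ext_xp (w := 0) h2 h3

theorem rB_span {n : ℕ} {α : Type*} (c : α → Fin n → ℝ)
    (hc : ∀ x : Fin n → ℝ, (∀ i, c i ⬝ᵥ x ≤ 0) → x = 0) (g : Fin (n + 1) → ℝ)
    (hg : ∀ i, rB 1 (c i) ⬝ᵥ g = 0) (hne : Nonempty α) : g = 0 := by
  have h1 : ∀ i, c i ⬝ᵥ xp g = -g (Fin.last n) := by
    intro i
    have := hg i
    rw [rB_dot] at this
    linarith
  have h2 : xp g = 0 := by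
    rcases le_total 0 (g (Fin.last n)) with h | h
    · exact hc _ fun i => by rw [h1 i]; linarith
    · have h3 : -xp g = 0 := hc _ fun i => by
        rw [dotProduct_neg, h1 i]
        linarith
      exact neg_eq_zero.1 h3
  obtain ⟨i⟩ := hne
  have h3 : g (Fin.last n) = 0 := by
    have := h1 i
    rw [h2, dotProduct_zero] at this
    linarith
  exact ext_xp (w := 0) h2 h3

/-- M1: a base spindle -/
theorem base_of_rnw {n k : ℕ} {α β : Type} [Fintype α] [Fintype β] (c : α → Fin n → ℝ)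
    (y : β → Fin n → ℝ) (hk1 : 1 ≤ k) (hk : k ≤ n)
    (hc : ∀ x : Fin n → ℝ, (∀ i, c i ⬝ᵥ x ≤ 0) → x = 0)
    (hy : ∀ x : Fin n → ℝ, (∀ j, y j ⬝ᵥ x ≤ 0) → x = 0)
    (h : ¬ ∃ x j, RobustWalk c y k x j) :
    ∃ (a b : ℕ) (RA : Fin (n + 1) ⊕ Fin a → Fin (n + 1) → ℝ)
      (RB : Fin (n + 1) ⊕ Fin b → Fin (n + 1) → ℝ) (Y : Fin (n + 1) → ℝ), Base RA RB Y ∧
        n + 1 + a = Fintype.card α ∧ n + 1 + b = Fintype.card β := by
  have hneA : Nonempty α := by
    have h1 := span_ge c hc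
    rw [← Fintype.card_pos_iff]
    omega
  have hneB : Nonempty β := by
    have h1 := span_ge y hy
    rw [← Fintype.card_pos_iff]
    omega
  obtain ⟨a, eA, heA⟩ := exists_basis_equiv (fun i => rA (c i)) fun g hg => rA_span c hc g hg hneA
  obtain ⟨b, eB, heB⟩ := exists_basis_equiv (fun i => rB 1 (y i)) fun g hg => rB_span y hy g hg hneB
  obtain ⟨δ0, _, δ, _, _, hbase⟩ := exists_base (fun i => c (eA i)) (fun i => y (eB i)) hk1 hk
    (fun x hx => hc x fun i => by
      have := hx (eA.symm i)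
      simpa using this)
    (fun x hx => hy x fun i => by
      have := hx (eB.symm i)
      simpa using this) heA heB
    (fun ⟨x, j, hw⟩ => h ⟨x, _, robust_reindex c y eA eB hw⟩)
  refine ⟨a, b, _, _, _, hbase, ?_, ?_⟩
  · rw [← Fintype.card_congr eA, Fintype.card_sum, Fintype.card_fin, Fintype.card_fin]
  · rw [← Fintype.card_congr eB, Fintype.card_sum, Fintype.card_fin, Fintype.card_fin]

/-- M1 + lifting, with the dimension `N = card α + card β + 1 - n` -/
theorem violates_of_rnw_card {n k : ℕ} {α β : Type} [Fintype α] [Fintype β] (c : α → Fin n → ℝ)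
    (y : β → Fin n → ℝ) (hk1 : 1 ≤ k) (hk : k ≤ n)
    (hc : ∀ x : Fin n → ℝ, (∀ i, c i ⬝ᵥ x ≤ 0) → x = 0)
    (hy : ∀ x : Fin n → ℝ, (∀ j, y j ⬝ᵥ x ≤ 0) → x = 0)
    (h : ¬ ∃ x j, RobustWalk c y k x j) (N : ℕ) (hN : N + n = Fintype.card α + Fintype.card β + 1) :
    ∃ (A : Matrix (Fin N) (Fin (N + N)) ℝ) (b : Fin N → ℝ) (x' y' : Fin (N + N) → ℝ),
      Violates A b x' y' := by
  obtain ⟨a, b, RA, RB, Y, hB, ha, hb⟩ := base_of_rnw c y hk1 hk hc hy h
  have hNe : n + 1 + a + b + 2 = N := by omega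
  subst hNe
  exact CH74.lift hB

/-- M1 + lifting -/
theorem violates_of_rnw {n k : ℕ} {α β : Type} [Fintype α] [Fintype β] (c : α → Fin n → ℝ)
    (y : β → Fin n → ℝ) (hk1 : 1 ≤ k) (hk : k ≤ n)
    (hc : ∀ x : Fin n → ℝ, (∀ i, c i ⬝ᵥ x ≤ 0) → x = 0)
    (hy : ∀ x : Fin n → ℝ, (∀ j, y j ⬝ᵥ x ≤ 0) → x = 0)
    (h : ¬ ∃ x j, RobustWalk c y k x j) :
    ∃ (N : ℕ) (A : Matrix (Fin N) (Fin (N + N)) ℝ) (b : Fin N → ℝ) (x' y' : Fin (N + N) → ℝ),
      Violates A b x' y' := by
  obtain ⟨a, b, RA, RB, Y, hB, _, _⟩ := base_of_rnw c y hk1 hk hc hy h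
  obtain ⟨A, b', x', y', hv⟩ := CH74.lift hB
  exact ⟨_, A, b', x', y', hv⟩

end Pool.Agent.CH76
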