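import Pool.Agent.CH76.Rows

/-!
# CH76/Lims: limits of the parameters and of the walls
-/

namespace Pool.Agent.CH76

open Matrix Filter Topology

variable {V : Type*} (D : Data V)

variable {D} {P : ℕ → Par}

theorem Sq.T_pos (h : Sq D P) (n : ℕ) : 0 < (P n).T := by
  rw [h.T_eq n]
  exact pow_pos (h.ν_pos n) 2

theorem Sq.T_lim (h : Sq D P) : Tendsto (fun n => (P n).T) atTop (𝓝 0) := by
  have h1 : (fun n => (P n).T) = fun n => (P n).ν ^ 2 := funext h.T_eq
  rw [h1]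
  have h2 := h.ν_lim.pow 2
  simpa using h2

theorem Sq.μ_le (h : Sq D P) (n : ℕ) : (P n).μ ≤ 1 := by
  have h1 := h.μ_sq n
  have h2 := h.μ_pos n
  nlinarith [sq_nonneg (1 - (P n).ν)]

theorem Sq.μ_lim (h : Sq D P) : Tendsto (fun n => (P n).μ) atTop (𝓝 0) := by
  have h1 : (fun n => (P n).μ) = fun n => Real.sqrt (1 - (1 - (P n).ν) ^ 2) := by
    funext n
    have h2 := h.μ_sq n
    have h3 : 1 - (1 - (P n).ν) ^ 2 = (P n).μ ^ 2 := by linarith
    rw [h3, Real.sqrt_sq (h.μ_pos n).le]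
  rw [h1]
  have h2 : Tendsto (fun n => 1 - (1 - (P n).ν) ^ 2) atTop (𝓝 (1 - (1 - 0) ^ 2)) :=
    tendsto_const_nhds.sub ((tendsto_const_nhds.sub h.ν_lim).pow 2)
  have h3 : Tendsto (fun n => Real.sqrt (1 - (1 - (P n).ν) ^ 2)) atTop
      (𝓝 (Real.sqrt (1 - (1 - 0) ^ 2))) := (Real.continuous_sqrt.tendsto _).comp h2
  have h4 : Real.sqrt (1 - (1 - 0) ^ 2) = 0 := by norm_num
  rwa [h4] at h3

theorem Sq.ε_lim (h : Sq D P) : Tendsto (fun n => (P n).ε) atTop (𝓝 0) := by
  have h1 : Tendsto (fun n => (P n).ν * (P n).T) atTop (𝓝 (0 * 0)) := h.ν_lim.mul h.T_lim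
  rw [mul_zero] at h1
  exact squeeze_zero (fun n => (h.ε_pos n).le) h.ε_le h1

theorem Sq.εν_lim (h : Sq D P) : Tendsto (fun n => (P n).ε / (P n).ν) atTop (𝓝 0) := by
  refine squeeze_zero (fun n => (div_pos (h.ε_pos n) (h.ν_pos n)).le) (fun n => ?_) h.T_lim
  rw [div_le_iff₀ (h.ν_pos n), mul_comm]
  exact h.ε_le n

theorem Sq.μT_lim (h : Sq D P) : Tendsto (fun n => (P n).μ * (P n).T / (P n).ν) atTop (𝓝 0) := by
  have h1 : (fun n => (P n).μ * (P n).T / (P n).ν) = fun n => (P n).μ * (P n).ν := by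
    funext n
    have h2 := (h.ν_pos n).ne'
    rw [h.T_eq n]
    field_simp
  rw [h1]
  have h2 := h.μ_lim.mul h.ν_lim
  rwa [mul_zero] at h2

private theorem tden (h : Sq D P) : Tendsto (fun n => 1 + (P n).T ^ 2) atTop (𝓝 1) := by
  have h1 : Tendsto (fun n => 1 + (P n).T ^ 2) atTop (𝓝 (1 + 0 ^ 2)) :=
    tendsto_const_nhds.add (h.T_lim.pow 2)
  have h2 : (1 : ℝ) + 0 ^ 2 = 1 := by norm_num
  rwa [h2] at h1

private theorem tcs (h : Sq D P) :
    Tendsto (fun n => (1 - (P n).T ^ 2) / (1 + (P n).T ^ 2)) atTop (𝓝 1) := by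
  have h1 : Tendsto (fun n => 1 - (P n).T ^ 2) atTop (𝓝 (1 - 0 ^ 2)) :=
    tendsto_const_nhds.sub (h.T_lim.pow 2)
  have h2 := h1.div (tden h) one_ne_zero
  have h3 : ((1 : ℝ) - 0 ^ 2) / 1 = 1 := by norm_num
  rwa [h3] at h2

private theorem tsn (h : Sq D P) :
    Tendsto (fun n => 2 * (P n).T / (1 + (P n).T ^ 2)) atTop (𝓝 0) := by
  have h1 : Tendsto (fun n => 2 * (P n).T) atTop (𝓝 (2 * 0)) := tendsto_const_nhds.mul h.T_lim
  have h2 := h1.div (tden h) one_ne_zero
  have h3 : ((2 : ℝ) * 0) / 1 = 0 := by norm_num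
  rwa [h3] at h2

theorem Sq.cs_lim (h : Sq D P) (t : Fin 4) : Tendsto (fun n => cs (P n) t) atTop (𝓝 1) := by
  fin_cases t
  · exact tendsto_const_nhds
  · exact tcs h
  · exact tcs h
  · have h1 : Tendsto (fun n => 1 - (P n).ν) atTop (𝓝 (1 - 0)) := tendsto_const_nhds.sub h.ν_lim
    rw [sub_zero] at h1
    exact h1

theorem Sq.sn_lim (h : Sq D P) (t : Fin 4) : Tendsto (fun n => sn (P n) t) atTop (𝓝 0) := by
  fin_cases t
  · exact tendsto_const_nhds
  · exact tsn h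
  · have h1 := (tsn h).neg
    rw [neg_zero] at h1
    exact h1
  · exact h.μ_lim

theorem Sq.ee_lim (h : Sq D P) (t : Fin 4) : Tendsto (fun n => ee (P n) t) atTop (𝓝 0) := by
  fin_cases t
  · exact tendsto_const_nhds
  · exact tendsto_const_nhds
  · exact tendsto_const_nhds
  · exact h.ε_lim

theorem Sq.cs_sn (h : Sq D P) (n : ℕ) (t : Fin 4) : cs (P n) t ^ 2 + sn (P n) t ^ 2 = 1 := by
  have h1 : (1 : ℝ) + (P n).T ^ 2 ≠ 0 := by positivity
  fin_cases t
  · show (1 : ℝ) ^ 2 + 0 ^ 2 = 1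
    norm_num
  · show ((1 - (P n).T ^ 2) / (1 + (P n).T ^ 2)) ^ 2 + (2 * (P n).T / (1 + (P n).T ^ 2)) ^ 2 = 1
    field_simp
    ring
  · show ((1 - (P n).T ^ 2) / (1 + (P n).T ^ 2)) ^ 2 + (-(2 * (P n).T / (1 + (P n).T ^ 2))) ^ 2 = 1
    field_simp
    ring
  · exact h.μ_sq n

theorem Sq.PA_lim (h : Sq D P) (v : V) (j : V × Fin 4) :
    Tendsto (fun n => PA D (P n) v j) atTop (𝓝 (al D v j.1)) := by
  have h1 : Tendsto (fun n => cs (P n) j.2 * al D v j.1 - sn (P n) j.2 * be D v j.1) atTop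
      (𝓝 (1 * al D v j.1 - 0 * be D v j.1)) :=
    ((h.cs_lim j.2).mul tendsto_const_nhds).sub ((h.sn_lim j.2).mul tendsto_const_nhds)
  rw [one_mul, zero_mul, sub_zero] at h1
  exact h1

theorem Sq.PB_lim (h : Sq D P) (v : V) (j : V × Fin 4) :
    Tendsto (fun n => PB D (P n) v j) atTop (𝓝 (be D v j.1)) := by
  have h1 : Tendsto (fun n => cs (P n) j.2 * be D v j.1 + sn (P n) j.2 * al D v j.1) atTop
      (𝓝 (1 * be D v j.1 + 0 * al D v j.1)) :=
    ((h.cs_lim j.2).mul tendsto_const_nhds).add ((h.sn_lim j.2).mul tendsto_const_nhds)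
  rw [one_mul, zero_mul, add_zero] at h1
  exact h1

theorem Sq.PA_PB (h : Sq D P) (n : ℕ) (v : V) (j : V × Fin 4) :
    PA D (P n) v j ^ 2 + PB D (P n) v j ^ 2 = 1 := by
  have h1 := h.cs_sn n j.2
  have h2 := al_be D v j.1
  unfold PA PB
  linear_combination (al D v j.1 ^ 2 + be D v j.1 ^ 2) * h1 + h2

private theorem exists_min_pos {ι : Type*} [Finite ι] (g : ι → ℝ) (hg : ∀ i, 0 < g i) :
    ∃ γ : ℝ, 0 < γ ∧ ∀ i, γ ≤ g i := by
  rcases isEmpty_or_nonempty ι with h | h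
  · exact ⟨1, one_pos, fun i => (h.false i).elim⟩
  · obtain ⟨i0, hi⟩ := Finite.exists_min g
    exact ⟨g i0, hg i0, hi⟩

theorem Sq.gap [Finite V] (h : Sq D P) : ∃ γ : ℝ, 0 < γ ∧ ∀ᶠ n in atTop, ∀ v : V, ∀ j : V × Fin 4,
    j.1 ≠ v → PA D (P n) v j + (P n).T ≤ 1 - γ := by
  classical
  obtain ⟨γ, hγ, hle⟩ := exists_min_pos
    (fun q : V × V => if q.1 = q.2 then 1 else (1 - al D q.1 q.2) / 2) (by
      intro q
      split_ifs with h1
      · exact one_pos
      · have h2 := al_lt_one D h1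
        linarith)
  refine ⟨γ, hγ, ?_⟩
  rw [eventually_all]
  intro v
  rw [eventually_all]
  intro j
  by_cases hj : j.1 = v
  · exact Eventually.of_forall fun n h1 => (h1 hj).elim
  · have h1 := al_lt_one D (fun e : v = j.1 => hj e.symm)
    have h2 := hle (v, j.1)
    rw [if_neg (fun e : (v, j.1).1 = (v, j.1).2 => hj e.symm)] at h2
    have h3 : al D v j.1 + 0 < 1 - γ := by
      have h4 : γ ≤ (1 - al D v j.1) / 2 := h2
      linarith
    have h4 := (h.PA_lim v j).add h.T_lim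
    filter_upwards [h4.eventually_lt_const h3] with n hn _
    exact hn.le

/-- the four walls of a vertex are different -/
private theorem cs_sn_inj (h : Sq D P) (n : ℕ) (s t : Fin 4) (h1 : cs (P n) s = cs (P n) t)
    (h2 : sn (P n) s = sn (P n) t) : s = t := by
  have hν := h.ν_pos n
  have hν2 := h.ν_le n
  have hμ := h.μ_pos n
  have hT := h.T_pos n
  have hTe := h.T_eq n
  have hq : 0 < 2 * (P n).T / (1 + (P n).T ^ 2) := by positivity
  have h13 : (1 - (P n).T ^ 2) / (1 + (P n).T ^ 2) ≠ 1 - (P n).ν := by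
    intro e
    rw [div_eq_iff (by positivity)] at e
    rw [hTe] at e
    have e2 : (P n).ν * (1 + (P n).ν ^ 4 - 2 * (P n).ν ^ 3) = 0 := by linear_combination e
    rcases mul_eq_zero.1 e2 with e3 | e3
    · exact hν.ne' e3
    · have h5 : (P n).ν ^ 3 ≤ (1 / 2) ^ 3 := pow_le_pow_left₀ hν.le hν2 3
      have h6 : 0 < (P n).ν ^ 4 := pow_pos hν 4
      norm_num at h5
      linarith
  fin_cases s <;> fin_cases t <;>
    simp only [cs, sn, Fin.zero_eta, Fin.mk_one, Fin.reduceFinMk, Matrix.cons_val] at h1 h2 ⊢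
  all_goals first
    | rfl
    | (exfalso; linarith)
    | (exact (h13 h1).elim)
    | (exact (h13 h1.symm).elim)

/-- the `p`-parts in the coordinates of another vertex -/
private theorem PA_PB_change (Q : Par) (v v' : V) (j k : V × Fin 4)
    (h1 : PA D Q v j = PA D Q v k) (h2 : PB D Q v j = PB D Q v k) :
    PA D Q v' j = PA D Q v' k ∧ PB D Q v' j = PB D Q v' k := by
  have hu := ua_ub D v
  unfold PA PB al be at *
  constructor
  · linear_combination (ua D v' * ua D v + ub D v' * ub D v) * h1 +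
      (ub D v' * ua D v - ua D v' * ub D v) * h2 +
      (-(cs Q j.2 * (ua D v' * ua D j.1 + ub D v' * ub D j.1) -
        sn Q j.2 * (ua D v' * ub D j.1 - ub D v' * ua D j.1)) +
        (cs Q k.2 * (ua D v' * ua D k.1 + ub D v' * ub D k.1) -
        sn Q k.2 * (ua D v' * ub D k.1 - ub D v' * ua D k.1))) * hu
  · linear_combination (ua D v' * ua D v + ub D v' * ub D v) * h2 -
      (ub D v' * ua D v - ua D v' * ub D v) * h1 +
      (-(cs Q j.2 * (ua D v' * ub D j.1 - ub D v' * ua D j.1) +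
        sn Q j.2 * (ua D v' * ua D j.1 + ub D v' * ub D j.1)) +
        (cs Q k.2 * (ua D v' * ub D k.1 - ub D v' * ua D k.1) +
        sn Q k.2 * (ua D v' * ua D k.1 + ub D v' * ub D k.1))) * hu

/-- three different points of a circle are not on a line -/
private theorem circle_three (a b c d : ℝ) (h1 : a ^ 2 + b ^ 2 = 1) (h2 : c ^ 2 + d ^ 2 = 1)
    (h3 : (a - 1) * d - (c - 1) * b = 0) (h4 : ¬ (a = 1 ∧ b = 0)) (h5 : ¬ (c = 1 ∧ d = 0)) :
    a = c ∧ b = d := by
  have ha : a - 1 ≠ 0 := by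
    intro e
    apply h4
    have e1 : a = 1 := by linarith
    refine ⟨e1, ?_⟩
    rw [e1] at h1
    have : b ^ 2 = 0 := by linarith
    exact pow_eq_zero_iff (two_ne_zero) |>.1 this
  have hc : c - 1 ≠ 0 := by
    intro e
    apply h5
    have e1 : c = 1 := by linarith
    refine ⟨e1, ?_⟩
    rw [e1] at h2
    have : d ^ 2 = 0 := by linarith
    exact pow_eq_zero_iff (two_ne_zero) |>.1 this
  have e1 : (a - 1) * (c - 1) * (a - c) = 0 := by
    have h6 : (a - 1) ^ 2 * d ^ 2 = (c - 1) ^ 2 * b ^ 2 := by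
      linear_combination ((a - 1) * d + (c - 1) * b) * h3
    have h7 : b ^ 2 = 1 - a ^ 2 := by linarith
    have h8 : d ^ 2 = 1 - c ^ 2 := by linarith
    rw [h7, h8] at h6
    have h9 : 2 * ((a - 1) * (c - 1) * (a - c)) = 0 := by linear_combination -h6
    linarith
  have e2 : a - c = 0 := by
    rcases mul_eq_zero.1 e1 with e | e
    · rcases mul_eq_zero.1 e with e | e
      · exact (ha e).elim
      · exact (hc e).elim
    · exact e
  have e3 : a = c := by linarith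
  refine ⟨e3, ?_⟩
  rw [e3] at h3
  have h6 : (c - 1) * (d - b) = 0 := by linear_combination h3
  rcases mul_eq_zero.1 h6 with e | e
  · exact (hc e).elim
  · linarith

theorem Sq.dt_ne [Finite V] (h : Sq D P) : ∀ᶠ n in atTop, ∀ v : V, ∀ j k : V × Fin 4, j ≠ k →
    j ≠ (v, 0) → k ≠ (v, 0) → Dt D (P n) v j k ≠ 0 := by
  obtain ⟨γ, hγ, hgap⟩ := h.gap
  have hcs : ∀ᶠ n in atTop, ∀ t : Fin 4, 1 - γ < cs (P n) t := by
    rw [eventually_all]
    intro t
    exact (h.cs_lim t).eventually_const_lt (by linarith)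
  filter_upwards [hgap, hcs] with n hn hc v j k hjk hj hk
  have hT := h.T_pos n
  -- different walls have different `p`-parts
  have key : ∀ j k : V × Fin 4, PA D (P n) v j = PA D (P n) v k → PB D (P n) v j = PB D (P n) v k →
      j = k := by
    intro j k e1 e2
    obtain ⟨e3, e4⟩ := PA_PB_change (P n) v j.1 j k e1 e2
    have e5 : PA D (P n) j.1 j = cs (P n) j.2 := PA_self D (P n) j.1 j.2
    have e6 : PB D (P n) j.1 j = sn (P n) j.2 := PB_self D (P n) j.1 j.2
    by_cases hjk1 : k.1 = j.1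
    · have e7 : k = (j.1, k.2) := Prod.ext hjk1 rfl
      rw [e5, e7, PA_self] at e3
      rw [e6, e7, PB_self] at e4
      have e8 := cs_sn_inj h n j.2 k.2 e3 e4
      exact Prod.ext hjk1.symm e8
    · exfalso
      have h1 := hn j.1 k hjk1
      have h2 := hc j.2
      rw [e5] at e3
      linarith
  intro hD
  have h0a : PA D (P n) v (v, 0) = 1 := PA_self D (P n) v 0
  have h0b : PB D (P n) v (v, 0) = 0 := PB_self D (P n) v 0
  have := circle_three _ _ _ _ (h.PA_PB n v j) (h.PA_PB n v k) hD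
    (fun e => hj (key j (v, 0) (e.1.trans h0a.symm) (e.2.trans h0b.symm)))
    (fun e => hk (key k (v, 0) (e.1.trans h0a.symm) (e.2.trans h0b.symm)))
  exact hjk (key j k this.1 this.2)

end Pool.Agent.CH76
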