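import Pool.Agent.CH76.Lims

/-!
# CH76/Step1: the first wall of a walk which starts at the vertex `v` is `(v, 0)`
-/

namespace Pool.Agent.CH76

open Matrix Filter Topology

variable {V : Type*} {D : Data V} {P : ℕ → Par} {U : Ultrafilter ℕ} {X : ℕ → ℕ → Fin 5 → ℝ}
  {j : ℕ → V × Fin 4} {SA : ℕ → Finset (Fin 8)} {SB : ℕ → Finset (V × Fin 4)}
  {xb : ℕ → Fin 5 → ℝ} {v : V}

/-- The private wall `(v, 0)` is not above the first wall at the vertex. -/
theorem Ctx.j0_ineq (h : Ctx D P U X j SA SB xb v) : ∀ᶠ n in (U : Filter ℕ),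
    Rv D v ≤ PA D (P n) v (j 0) * Rv D v + ee (P n) (j 0).2 * (D.w (j 0).1 ⬝ᵥ D.vt v) := by
  filter_upwards [h.max, h.x0] with n hn hx
  have h1 := hn 0 (by norm_num) (v, 0)
  rw [hx, yrow_dot D (P n) v (v, 0), yrow_dot D (P n) v (j 0), PA_self, PB_self, rho_vt, sg_vt] at h1
  have h2 : cs (P n) 0 = 1 := rfl
  have h3 : ee (P n) 0 = 0 := rfl
  have h4 : ee (P n) ((v, 0) : V × Fin 4).2 = 0 := rfl
  rw [h2, h4] at h1
  linarith

theorem Ctx.j0 (h : Ctx D P U X j SA SB xb v) : j 0 = (v, 0) := by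
  have hR := Rv_pos D v
  have key := h.j0_ineq
  have hsq := h.sq
  by_cases hv : (j 0).1 = v
  · obtain ⟨n0, hn0⟩ := key.exists
    generalize hj : j 0 = j0 at hv key hn0 ⊢
    obtain ⟨v', t⟩ := j0
    have hv' : v' = v := hv
    subst hv'
    rw [PA_self] at hn0
    fin_cases t
    · rfl
    · exfalso
      have hT := hsq.T_pos n0
      have h1 : cs (P n0) 1 = (1 - (P n0).T ^ 2) / (1 + (P n0).T ^ 2) := rfl
      have h2 : ee (P n0) 1 = 0 := rfl
      change Rv D v' ≤ cs (P n0) 1 * Rv D v' + ee (P n0) 1 * (D.w v' ⬝ᵥ D.vt v') at hn0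
      rw [h2, zero_mul, add_zero, h1] at hn0
      have h3 : (1 - (P n0).T ^ 2) / (1 + (P n0).T ^ 2) < 1 := by
        rw [div_lt_one (by positivity)]
        nlinarith [sq_pos_of_pos hT]
      nlinarith
    · exfalso
      have hT := hsq.T_pos n0
      have h1 : cs (P n0) 2 = (1 - (P n0).T ^ 2) / (1 + (P n0).T ^ 2) := rfl
      have h2 : ee (P n0) 2 = 0 := rfl
      change Rv D v' ≤ cs (P n0) 2 * Rv D v' + ee (P n0) 2 * (D.w v' ⬝ᵥ D.vt v') at hn0
      rw [h2, zero_mul, add_zero, h1] at hn0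
      have h3 : (1 - (P n0).T ^ 2) / (1 + (P n0).T ^ 2) < 1 := by
        rw [div_lt_one (by positivity)]
        nlinarith [sq_pos_of_pos hT]
      nlinarith
    · exfalso
      have hlim : Tendsto (fun n => (P n).ε / (P n).ν * (D.w v' ⬝ᵥ D.vt v')) (U : Filter ℕ) (𝓝 0) := by
        have := (hsq.εν_lim.mono_left h.hU).mul_const (D.w v' ⬝ᵥ D.vt v')
        rwa [zero_mul] at this
      have hle : ∀ᶠ n in (U : Filter ℕ), Rv D v' ≤ (P n).ε / (P n).ν * (D.w v' ⬝ᵥ D.vt v') := by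
        filter_upwards [key] with n hn
        rw [PA_self] at hn
        have hν := hsq.ν_pos n
        change Rv D v' ≤ cs (P n) 3 * Rv D v' + ee (P n) 3 * (D.w v' ⬝ᵥ D.vt v') at hn
        have h1 : cs (P n) 3 = 1 - (P n).ν := rfl
        have h2 : ee (P n) 3 = (P n).ε := rfl
        rw [h1, h2] at hn
        rw [div_mul_eq_mul_div, le_div_iff₀ hν]
        linarith
      have := ge_of_tendsto hlim hle
      linarith
  · exfalso
    have hlim : Tendsto (fun n => PA D (P n) v (j 0) * Rv D v +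
        ee (P n) (j 0).2 * (D.w (j 0).1 ⬝ᵥ D.vt v)) (U : Filter ℕ)
        (𝓝 (al D v (j 0).1 * Rv D v + 0 * (D.w (j 0).1 ⬝ᵥ D.vt v))) :=
      (((hsq.PA_lim v (j 0)).mono_left h.hU).mul_const _).add
        (((hsq.ee_lim (j 0).2).mono_left h.hU).mul_const _)
    have h1 := ge_of_tendsto hlim key
    have h2 := al_lt_one D (v := v) (v' := (j 0).1) (fun e => hv e.symm)
    nlinarith

end Pool.Agent.CH76
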