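import Pool.Agent.CH76.Rows
import Pool.Agent.CH76.Lims
import Pool.Agent.CH76.Step1

/-!
# CH76/Slab: the slab of the vertex `v`
-/

namespace Pool.Agent.CH76

open Matrix Filter Topology

variable {V : Type*} {D : Data V} {P : ℕ → Par}
variable {U : Ultrafilter ℕ} {X : ℕ → ℕ → Fin 5 → ℝ} {j : ℕ → V × Fin 4}
  {SA : ℕ → Finset (Fin 8)} {SB : ℕ → Finset (V × Fin 4)} {xb : ℕ → Fin 5 → ℝ} {v : V}

theorem y_zero (p : Par) (v : V) (x : Fin 5 → ℝ) : yrow D p (v, 0) ⬝ᵥ x = rho D v x := by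
  rw [yrow_dot D p v, PA_self, PB_self]
  simp [cs, sn, ee]

theorem y_one (p : Par) (v : V) (x : Fin 5 → ℝ) : (yrow D p (v, 1) ⬝ᵥ x - rho D v x) * (1 + p.T ^ 2) =
    2 * p.T * (sg D v x - p.T * rho D v x) := by
  have hT : 1 + p.T ^ 2 ≠ 0 := by positivity
  rw [yrow_dot D p v, PA_self, PB_self]
  simp [cs, sn, ee]
  field_simp
  ring

theorem y_two (p : Par) (v : V) (x : Fin 5 → ℝ) : (yrow D p (v, 2) ⬝ᵥ x - rho D v x) * (1 + p.T ^ 2) =
    -(2 * p.T * (sg D v x + p.T * rho D v x)) := by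
  have hT : 1 + p.T ^ 2 ≠ 0 := by positivity
  rw [yrow_dot D p v, PA_self, PB_self]
  simp [cs, sn, ee]
  field_simp
  ring

theorem y_three (p : Par) (v : V) (x : Fin 5 → ℝ) : yrow D p (v, 3) ⬝ᵥ x - rho D v x =
    p.ε * (D.w v ⬝ᵥ x) - (p.ν * rho D v x - p.μ * sg D v x) := by
  rw [yrow_dot D p v, PA_self, PB_self]
  simp [cs, sn, ee]
  ring

theorem Ctx.slab (h : Ctx D P U X j SA SB xb v) : ∀ᶠ n in (U : Filter ℕ), ∀ l < 4,
    |sg D v (X n l)| ≤ (P n).T * rho D v (X n l) ∧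
    (P n).ε * (D.w v ⬝ᵥ X n l) ≤ (P n).ν * rho D v (X n l) - (P n).μ * sg D v (X n l) ∧
    0 ≤ rho D v (X n l) := by
  filter_upwards [h.max] with n hn l hl
  have h1 := hn l hl (v, 1)
  have h2 := hn l hl (v, 2)
  have h3 := hn l hl (v, 3)
  rw [h.j0, y_zero] at h1 h2 h3
  have hT := h.sq.T_pos n
  have e1 := y_one (D := D) (P n) v (X n l)
  have e2 := y_two (D := D) (P n) v (X n l)
  have e3 := y_three (D := D) (P n) v (X n l)
  have hT1 : 0 < 1 + (P n).T ^ 2 := by positivity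
  have a1 : sg D v (X n l) ≤ (P n).T * rho D v (X n l) := by
    by_contra hc
    push Not at hc
    have : 0 < 2 * (P n).T * (sg D v (X n l) - (P n).T * rho D v (X n l)) := by
      apply mul_pos (by positivity); linarith
    nlinarith
  have a2 : -((P n).T * rho D v (X n l)) ≤ sg D v (X n l) := by
    by_contra hc
    push Not at hc
    have : 0 < -(2 * (P n).T * (sg D v (X n l) + (P n).T * rho D v (X n l))) := by
      have : 0 < 2 * (P n).T * (-(sg D v (X n l) + (P n).T * rho D v (X n l))) := by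
        apply mul_pos (by positivity); linarith
      linarith
    nlinarith
  refine ⟨abs_le.2 ⟨a2, a1⟩, by linarith, ?_⟩
  have : 0 ≤ (P n).T * rho D v (X n l) := by linarith
  exact nonneg_of_mul_nonneg_right this hT

theorem Ctx.rho_t (h : Ctx D P U X j SA SB xb v) (l : ℕ) (hl : l < 4) :
    Tendsto (fun n => rho D v (X n l)) U (𝓝 (rho D v (xb l))) :=
  ((rho_cont D v).tendsto _).comp (h.lim l hl)

theorem Ctx.dot_t (h : Ctx D P U X j SA SB xb v) (l : ℕ) (hl : l < 4) (r : Fin 5 → ℝ) :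
    Tendsto (fun n => r ⬝ᵥ X n l) U (𝓝 (r ⬝ᵥ xb l)) := by
  have hc : Continuous fun x : Fin 5 → ℝ => r ⬝ᵥ x := by
    unfold dotProduct
    fun_prop
  exact (hc.tendsto _).comp (h.lim l hl)

theorem Ctx.sg_lim (h : Ctx D P U X j SA SB xb v) (l : ℕ) (hl : l < 4) : sg D v (xb l) = 0 := by
  have h1 := ((sg_cont D v).tendsto _).comp (h.lim l hl)
  refine tendsto_nhds_unique h1 ?_
  have hT := h.sq.T_lim.mono_left h.hU
  have h2 := hT.mul (h.rho_t l hl)
  rw [zero_mul] at h2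
  apply squeeze_zero_norm' _ h2
  filter_upwards [h.slab] with n hn
  rw [Real.norm_eq_abs]
  exact (hn l hl).1

theorem Ctx.rho_nonneg (h : Ctx D P U X j SA SB xb v) (l : ℕ) (hl : l < 4) : 0 ≤ rho D v (xb l) := by
  apply ge_of_tendsto (h.rho_t l hl)
  filter_upwards [h.slab] with n hn
  exact (hn l hl).2.2

theorem Ctx.memb (h : Ctx D P U X j SA SB xb v) (l : ℕ) (hl : l < 4) (i : Fin 8) :
    D.c i ⬝ᵥ xb l ≤ 1 := by
  apply le_of_tendsto (h.dot_t l hl (D.c i))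
  filter_upwards [h.mem] with n hn
  exact hn l hl i

/-- walls which are tight at `X n l` -/
theorem Ctx.tie1 (h : Ctx D P U X j SA SB xb v) (l m : ℕ) (hl : l < 4) (hm : m ≤ l)
    (hj : j m = (v, 1)) : ∀ᶠ n in (U : Filter ℕ), sg D v (X n l) = (P n).T * rho D v (X n l) := by
  filter_upwards [h.tie] with n hn
  have h1 := hn l hl m hm
  rw [h.j0, y_zero, hj] at h1
  have e1 := y_one (D := D) (P n) v (X n l)
  rw [h1, sub_self, zero_mul] at e1
  have hT := h.sq.T_pos n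
  rcases mul_eq_zero.1 e1.symm with h2 | h2
  · linarith
  · linarith

theorem Ctx.tie2 (h : Ctx D P U X j SA SB xb v) (l m : ℕ) (hl : l < 4) (hm : m ≤ l)
    (hj : j m = (v, 2)) : ∀ᶠ n in (U : Filter ℕ), sg D v (X n l) = -((P n).T * rho D v (X n l)) := by
  filter_upwards [h.tie] with n hn
  have h1 := hn l hl m hm
  rw [h.j0, y_zero, hj] at h1
  have e1 := y_two (D := D) (P n) v (X n l)
  rw [h1, sub_self, zero_mul] at e1
  have hT := h.sq.T_pos n
  rcases mul_eq_zero.1 (neg_eq_zero.1 e1.symm) with h2 | h2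
  · linarith
  · linarith

theorem Ctx.tie3 (h : Ctx D P U X j SA SB xb v) (l m : ℕ) (hl : l < 4) (hm : m ≤ l)
    (hj : j m = (v, 3)) : ∀ᶠ n in (U : Filter ℕ),
    (P n).ε * (D.w v ⬝ᵥ X n l) = (P n).ν * rho D v (X n l) - (P n).μ * sg D v (X n l) := by
  filter_upwards [h.tie] with n hn
  have h1 := hn l hl m hm
  rw [h.j0, y_zero, hj] at h1
  have e1 := y_three (D := D) (P n) v (X n l)
  linarith

theorem Ctx.tieo [Finite V] (h : Ctx D P U X j SA SB xb v) (l m : ℕ) (hl : l < 4) (hm : m ≤ l)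
    (hj : (j m).1 ≠ v) : ∃ W : ℝ, ∀ᶠ n in (U : Filter ℕ), rho D v (X n l) ≤ W * (P n).ε := by
  obtain ⟨γ, hγ, hgap⟩ := h.sq.gap
  have hlw : Tendsto (fun n => |D.w (j m).1 ⬝ᵥ X n l|) U (𝓝 |D.w (j m).1 ⬝ᵥ xb l|) :=
    (h.dot_t l hl (D.w (j m).1)).abs
  refine ⟨(|D.w (j m).1 ⬝ᵥ xb l| + 1) / γ, ?_⟩
  filter_upwards [h.tie, h.slab, h.hU hgap, hlw.eventually (gt_mem_nhds (lt_add_one _))] with n h1 h2 h3 h4
  have h5 := h1 l hl m hm
  rw [h.j0, y_zero, yrow_dot D (P n) v (j m)] at h5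
  obtain ⟨h6, _, h7⟩ := h2 l hl
  have h8 := h3 v (j m) hj
  have hε := h.sq.ε_pos n
  have hu := h.sq.PA_PB n v (j m)
  have hB : |PB D (P n) v (j m)| ≤ 1 := by
    rw [abs_le]
    constructor <;> nlinarith
  have hee : |ee (P n) (j m).2| ≤ (P n).ε := by
    generalize (j m).2 = t
    fin_cases t <;> simp [ee, hε.le, abs_of_pos hε]
  have h9 : PB D (P n) v (j m) * sg D v (X n l) ≤ (P n).T * rho D v (X n l) := by
    calc PB D (P n) v (j m) * sg D v (X n l) ≤ |PB D (P n) v (j m) * sg D v (X n l)| := le_abs_self _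
      _ = |PB D (P n) v (j m)| * |sg D v (X n l)| := abs_mul _ _
      _ ≤ 1 * ((P n).T * rho D v (X n l)) := mul_le_mul hB h6 (abs_nonneg _) zero_le_one
      _ = _ := one_mul _
  have h10 : ee (P n) (j m).2 * (D.w (j m).1 ⬝ᵥ X n l) ≤ (P n).ε * (|D.w (j m).1 ⬝ᵥ xb l| + 1) := by
    calc ee (P n) (j m).2 * (D.w (j m).1 ⬝ᵥ X n l) ≤ |ee (P n) (j m).2 * (D.w (j m).1 ⬝ᵥ X n l)| :=
          le_abs_self _
      _ = |ee (P n) (j m).2| * |D.w (j m).1 ⬝ᵥ X n l| := abs_mul _ _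
      _ ≤ _ := mul_le_mul hee h4.le (abs_nonneg _) hε.le
  have h11 : γ * rho D v (X n l) ≤ (P n).ε * (|D.w (j m).1 ⬝ᵥ xb l| + 1) := by nlinarith
  rw [div_mul_eq_mul_div, le_div_iff₀ hγ]
  linarith

theorem Ctx.rho_zero [Finite V] (h : Ctx D P U X j SA SB xb v) (l m : ℕ) (hl : l < 4) (hm : m ≤ l)
    (hj : j m = (v, 3) ∨ (j m).1 ≠ v) : rho D v (xb l) = 0 := by
  refine tendsto_nhds_unique (h.rho_t l hl) ?_
  rcases hj with hj | hj
  · have hlw : Tendsto (fun n => |D.w v ⬝ᵥ X n l|) U (𝓝 |D.w v ⬝ᵥ xb l|) := (h.dot_t l hl (D.w v)).abs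
    have e1 := h.sq.εν_lim.mono_left h.hU
    have e2 := h.sq.μT_lim.mono_left h.hU
    have hlr := (h.rho_t l hl)
    have hlim : Tendsto (fun n => (P n).ε / (P n).ν * |D.w v ⬝ᵥ X n l| +
        (P n).μ * (P n).T / (P n).ν * rho D v (X n l)) U (𝓝 0) := by
      have := (e1.mul hlw).add (e2.mul hlr)
      simpa using this
    apply squeeze_zero_norm' _ hlim
    filter_upwards [h.tie3 l m hl hm hj, h.slab] with n h1 h2
    obtain ⟨h3, _, h4⟩ := h2 l hl
    rw [Real.norm_eq_abs, abs_of_nonneg h4]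
    have hν := h.sq.ν_pos n
    have hμ := h.sq.μ_pos n
    have hε := h.sq.ε_pos n
    rw [div_mul_eq_mul_div, div_mul_eq_mul_div, ← add_div, le_div_iff₀ hν]
    have h5 : (P n).μ * sg D v (X n l) ≤ (P n).μ * ((P n).T * rho D v (X n l)) :=
      mul_le_mul_of_nonneg_left ((le_abs_self _).trans h3) hμ.le
    have h6 : (P n).ε * (D.w v ⬝ᵥ X n l) ≤ (P n).ε * |D.w v ⬝ᵥ X n l| :=
      mul_le_mul_of_nonneg_left (le_abs_self _) hε.le
    linarith
  · obtain ⟨W, hW⟩ := h.tieo l m hl hm hj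
    have e1 : Tendsto (fun n => W * (P n).ε) U (𝓝 0) := by
      have := (h.sq.ε_lim.mono_left h.hU).const_mul W
      simpa using this
    apply squeeze_zero_norm' _ e1
    filter_upwards [hW, h.slab] with n h1 h2
    rw [Real.norm_eq_abs, abs_of_nonneg (h2 l hl).2.2]
    exact h1

theorem Ctx.van1 (h : Ctx D P U X j SA SB xb v) (l : ℕ) (hl : l < 3) (hj : (v, 1) ∈ SB l) :
    ∀ᶠ n in (U : Filter ℕ), sg D v (X n (l + 1)) - sg D v (X n l) =
      (P n).T * (rho D v (X n (l + 1)) - rho D v (X n l)) := by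
  filter_upwards [h.stepB] with n hn
  have h1 := hn l hl _ hj
  rw [h.j0, y_zero] at h1
  have e1 := y_one (D := D) (P n) v (X n (l + 1) - X n l)
  rw [h1, sub_self, zero_mul, sg_sub, rho_sub] at e1
  have hT := h.sq.T_pos n
  rcases mul_eq_zero.1 e1.symm with h2 | h2
  · linarith
  · linarith

theorem Ctx.van2 (h : Ctx D P U X j SA SB xb v) (l : ℕ) (hl : l < 3) (hj : (v, 2) ∈ SB l) :
    ∀ᶠ n in (U : Filter ℕ), sg D v (X n (l + 1)) - sg D v (X n l) =
      -((P n).T * (rho D v (X n (l + 1)) - rho D v (X n l))) := by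
  filter_upwards [h.stepB] with n hn
  have h1 := hn l hl _ hj
  rw [h.j0, y_zero] at h1
  have e1 := y_two (D := D) (P n) v (X n (l + 1) - X n l)
  rw [h1, sub_self, zero_mul, sg_sub, rho_sub] at e1
  have hT := h.sq.T_pos n
  rcases mul_eq_zero.1 (neg_eq_zero.1 e1.symm) with h2 | h2
  · linarith
  · linarith

theorem Ctx.van3 (h : Ctx D P U X j SA SB xb v) (l : ℕ) (hl : l < 3) (hj : (v, 3) ∈ SB l) :
    ∀ᶠ n in (U : Filter ℕ), (P n).ε * (D.w v ⬝ᵥ X n (l + 1) - D.w v ⬝ᵥ X n l) =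
      (P n).ν * (rho D v (X n (l + 1)) - rho D v (X n l)) -
      (P n).μ * (sg D v (X n (l + 1)) - sg D v (X n l)) := by
  filter_upwards [h.stepB] with n hn
  have h1 := hn l hl _ hj
  rw [h.j0, y_zero] at h1
  have e1 := y_three (D := D) (P n) v (X n (l + 1) - X n l)
  rw [h1, sub_self, sg_sub, rho_sub, dotProduct_sub] at e1
  linarith

theorem Ctx.stepA_lim (h : Ctx D P U X j SA SB xb v) (l : ℕ) (hl : l < 3) (i : Fin 8) (hi : i ∈ SA l) :
    D.c i ⬝ᵥ xb (l + 1) = D.c i ⬝ᵥ xb l := by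
  have h1 := (h.dot_t (l + 1) (by omega) (D.c i)).sub (h.dot_t l (by omega) (D.c i))
  have h2 : Tendsto (fun _ : ℕ => (0 : ℝ)) U (𝓝 0) := tendsto_const_nhds
  have h3 := tendsto_nhds_unique (h1.congr' (by
    filter_upwards [h.stepA] with n hn
    have := hn l hl i hi
    rw [dotProduct_sub] at this
    exact this)) h2
  linarith

end Pool.Agent.CH76
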