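import Pool.Agent.CH76.Rows
import Pool.Agent.CH76.Lims
import Pool.Agent.CH76.Step1
import Pool.Agent.CH76.Slab

/-!
# CH76/Step2: the second point of the walk
-/

namespace Pool.Agent.CH76

open Matrix Filter Topology

variable {V : Type*} {D : Data V} {P : ℕ → Par}
variable {U : Ultrafilter ℕ} {X : ℕ → ℕ → Fin 5 → ℝ} {j : ℕ → V × Fin 4}
  {SA : ℕ → Finset (Fin 8)} {SB : ℕ → Finset (V × Fin 4)} {xb : ℕ → Fin 5 → ℝ} {v : V}

theorem Ctx.s2_xb0 (h : Ctx D P U X j SA SB xb v) : xb 0 = D.vt v := by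
  have h1 := h.lim 0 (by norm_num)
  have h2 : Tendsto (fun n => X n 0) U (𝓝 (D.vt v)) := by
    apply tendsto_const_nhds.congr'
    filter_upwards [h.x0] with n hn
    exact hn.symm
  exact tendsto_nhds_unique h1 h2

/-- the limit of the second point when a wall of another vertex, or the private wall, or nothing
vanishes on the first step: it is the vertex -/
theorem s2_near_of (h : Ctx D P U X j SA SB xb v) (hr : rho D v (xb 1) = Rv D v)
    (hA : 3 ≤ (SA 0).card) : xb 1 = D.vt v := by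
  have h0 := h.s2_xb0
  have hs := h.sg_lim 1 (by norm_num)
  have h1 : xb 1 - D.vt v = 0 := by
    apply D.g1 (SA 0) hA
    · rw [Pi.sub_apply, x_zero D v (xb 1), hr, hs, vt_zero]
      ring
    · rw [Pi.sub_apply, x_one D v (xb 1), hr, hs, vt_one]
      ring
    · intro i hi
      have h2 := h.stepA_lim 0 (by norm_num) i hi
      rw [dotProduct_sub, h2, h0, sub_self]
  exact sub_eq_zero.1 h1

theorem s2_rho_lim (h : Ctx D P U X j SA SB xb v) (l : ℕ) (hl : l < 4) :
    Tendsto (fun n => rho D v (X n l)) U (𝓝 (rho D v (xb l))) :=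
  ((rho_cont D v).tendsto _).comp (h.lim l hl)

theorem s2_sg_lim (h : Ctx D P U X j SA SB xb v) (l : ℕ) (hl : l < 4) :
    Tendsto (fun n => sg D v (X n l)) U (𝓝 0) := by
  have := ((sg_cont D v).tendsto _).comp (h.lim l hl)
  rw [h.sg_lim l hl] at this
  exact this

theorem s2_dot_lim (h : Ctx D P U X j SA SB xb v) (l : ℕ) (hl : l < 4) (r : Fin 5 → ℝ) :
    Tendsto (fun n => r ⬝ᵥ X n l) U (𝓝 (r ⬝ᵥ xb l)) := by
  have hc : Continuous fun x : Fin 5 → ℝ => r ⬝ᵥ x := by
    unfold dotProduct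
    fun_prop
  exact (hc.tendsto _).comp (h.lim l hl)

/-- a single vanishing wall -/
theorem s2_van (h : Ctx D P U X j SA SB xb v) (l : ℕ) (hl : l < 3) (i : V × Fin 4) (hi : i ∈ SB l) :
    ∀ᶠ n in (U : Filter ℕ), (PA D (P n) v i - 1) * (rho D v (X n (l + 1)) - rho D v (X n l)) +
      PB D (P n) v i * (sg D v (X n (l + 1)) - sg D v (X n l)) +
      ee (P n) i.2 * (D.w i.1 ⬝ᵥ X n (l + 1) - D.w i.1 ⬝ᵥ X n l) = 0 := by
  filter_upwards [h.stepB] with n hn
  have h1 := hn l hl i hi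
  rw [h.j0, yrow_dot D (P n) v i, yrow_dot D (P n) v (v, 0), PA_self, PB_self, rho_sub, sg_sub,
    dotProduct_sub] at h1
  have h2 : cs (P n) 0 = 1 := rfl
  have h3 : sn (P n) 0 = 0 := rfl
  have h4 : ee (P n) 0 = 0 := rfl
  rw [h2, h3, h4] at h1
  linear_combination h1

theorem s2_eq_or (h : Ctx D P U X j SA SB xb v) (i : V × Fin 4) :
    i = (v, 0) ∨ i = (v, 1) ∨ i = (v, 2) ∨ i = (v, 3) ∨ i.1 ≠ v := by
  obtain ⟨a, t⟩ := i
  by_cases ha : a = v
  · subst ha
    fin_cases t <;> simp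
  · right; right; right; right
    exact ha

theorem s2_j1_of [Finite V] (h : Ctx D P U X j SA SB xb v) (hr : 0 < rho D v (xb 1)) :
    j 1 = (v, 1) ∨ j 1 = (v, 2) := by
  have h0 := h.j0
  have h1 : j 1 ≠ (v, 0) := by
    intro h2
    have := h.inj 1 (by norm_num) 0 (by norm_num) (h2.trans h0.symm)
    omega
  rcases s2_eq_or h (j 1) with h2 | h2 | h2 | h2 | h2
  · exact (h1 h2).elim
  · exact Or.inl h2
  · exact Or.inr h2
  · exact (hr.ne' (h.rho_zero 1 1 (by norm_num) le_rfl (Or.inl h2))).elim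
  · exact (hr.ne' (h.rho_zero 1 1 (by norm_num) le_rfl (Or.inr h2))).elim

theorem s2_bd_of_lim {f : ℕ → ℝ} {a : ℝ} (hf : Tendsto f U (𝓝 a)) :
    ∀ᶠ n in (U : Filter ℕ), |f n| ≤ |a| + 1 := by
  have h1 : Tendsto (fun n => |f n|) U (𝓝 |a|) := hf.abs
  filter_upwards [h1.eventually (gt_mem_nhds (lt_add_one |a|))] with n hn
  exact hn.le

/-- two different further walls cannot vanish on the first step -/
theorem s2_no_two [Finite V] (h : Ctx D P U X j SA SB xb v) (a b : V × Fin 4) (ha : a ∈ SB 0)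
    (hb : b ∈ SB 0) (hab : a ≠ b) (ha0 : a ≠ (v, 0)) (hb0 : b ≠ (v, 0)) : False := by
  have hva := s2_van h 0 (by norm_num) a ha
  have hvb := s2_van h 0 (by norm_num) b hb
  have hdt := h.hU h.sq.dt_ne
  have hla := s2_bd_of_lim ((s2_dot_lim h 1 (by norm_num) (D.w a.1)).sub (s2_dot_lim h 0 (by norm_num) (D.w a.1)))
  have hlb := s2_bd_of_lim ((s2_dot_lim h 1 (by norm_num) (D.w b.1)).sub (s2_dot_lim h 0 (by norm_num) (D.w b.1)))
  obtain ⟨W, hW0, hWa, hWb⟩ : ∃ W : ℝ, 0 ≤ W ∧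
      (∀ᶠ n in (U : Filter ℕ), |D.w a.1 ⬝ᵥ X n 1 - D.w a.1 ⬝ᵥ X n 0| ≤ W) ∧
      (∀ᶠ n in (U : Filter ℕ), |D.w b.1 ⬝ᵥ X n 1 - D.w b.1 ⬝ᵥ X n 0| ≤ W) := by
    refine ⟨max (|D.w a.1 ⬝ᵥ xb 1 - D.w a.1 ⬝ᵥ xb 0| + 1) (|D.w b.1 ⬝ᵥ xb 1 - D.w b.1 ⬝ᵥ xb 0| + 1),
      ?_, ?_, ?_⟩
    · exact le_max_of_le_left (by positivity)
    · filter_upwards [hla] with n hn using hn.trans (le_max_left _ _)
    · filter_upwards [hlb] with n hn using hn.trans (le_max_right _ _)
  have key : ∀ᶠ n in (U : Filter ℕ), |sg D v (X n 1)| ≤ 4 * W * (P n).ν * (P n).T ∧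
      |rho D v (X n 1) - Rv D v| ≤ 2 * W * (P n).ν * (P n).T := by
    filter_upwards [hva, hvb, hdt, hWa, hWb, h.x0] with n h1 h2 h3 h4 h5 h6
    have hne := h3 v a b hab ha0 hb0
    have hε := h.sq.ε_dt n v a b hne
    have hν := h.sq.ν_pos n
    have hT := h.sq.T_pos n
    have hε0 := h.sq.ε_pos n
    rw [h6] at h1 h2
    simp only [zero_add] at h1 h2
    rw [h6] at h4 h5
    rw [rho_vt, sg_vt] at h1 h2
    set A := PA D (P n) v a with hA
    set B := PB D (P n) v a with hB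
    set A' := PA D (P n) v b with hA'
    set B' := PB D (P n) v b with hB'
    set dr := rho D v (X n 1) - Rv D v with hdr
    set ds := sg D v (X n 1) with hds
    have hu := h.sq.PA_PB n v a
    have hu' := h.sq.PA_PB n v b
    rw [← hA, ← hB] at hu
    rw [← hA', ← hB'] at hu'
    set E := ee (P n) a.2 * (D.w a.1 ⬝ᵥ X n 1 - D.w a.1 ⬝ᵥ D.vt v) with hE
    set E' := ee (P n) b.2 * (D.w b.1 ⬝ᵥ X n 1 - D.w b.1 ⬝ᵥ D.vt v) with hE'
    have hee : ∀ t : Fin 4, |ee (P n) t| ≤ (P n).ε := by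
      intro t
      fin_cases t <;> simp [ee, hε0.le, abs_of_pos hε0]
    have hE1 : |E| ≤ (P n).ε * W := by
      rw [hE, abs_mul]
      exact mul_le_mul (hee _) h4 (abs_nonneg _) hε0.le
    have hE2 : |E'| ≤ (P n).ε * W := by
      rw [hE', abs_mul]
      exact mul_le_mul (hee _) h5 (abs_nonneg _) hε0.le
    have hAb : |A - 1| ≤ 2 := by
      rw [abs_le]
      constructor <;> nlinarith
    have hAb' : |A' - 1| ≤ 2 := by
      rw [abs_le]
      constructor <;> nlinarith
    have hBb : |B| ≤ 1 := by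
      rw [abs_le]
      constructor <;> nlinarith
    have hBb' : |B'| ≤ 1 := by
      rw [abs_le]
      constructor <;> nlinarith
    have hDt : Dt D (P n) v a b = (A - 1) * B' - (A' - 1) * B := rfl
    have hpos : 0 < |Dt D (P n) v a b| := abs_pos.2 hne
    have e1 : ds * Dt D (P n) v a b = -((A - 1) * E' - (A' - 1) * E) := by
      rw [hDt]
      linear_combination (A - 1) * h2 - (A' - 1) * h1
    have e2 : dr * Dt D (P n) v a b = -(B' * E - B * E') := by
      rw [hDt]
      linear_combination B' * h1 - B * h2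
    have b1 : |ds| * |Dt D (P n) v a b| ≤ 4 * ((P n).ε * W) := by
      rw [← abs_mul, e1, abs_neg]
      calc |(A - 1) * E' - (A' - 1) * E| ≤ |(A - 1) * E'| + |(A' - 1) * E| := abs_sub _ _
        _ = |A - 1| * |E'| + |A' - 1| * |E| := by rw [abs_mul (A - 1) E', abs_mul (A' - 1) E]
        _ ≤ 2 * ((P n).ε * W) + 2 * ((P n).ε * W) := by gcongr
        _ = 4 * ((P n).ε * W) := by ring
    have b2 : |dr| * |Dt D (P n) v a b| ≤ 2 * ((P n).ε * W) := by
      rw [← abs_mul, e2, abs_neg]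
      calc |B' * E - B * E'| ≤ |B' * E| + |B * E'| := abs_sub _ _
        _ = |B'| * |E| + |B| * |E'| := by rw [abs_mul B' E, abs_mul B E']
        _ ≤ 1 * ((P n).ε * W) + 1 * ((P n).ε * W) := by gcongr
        _ = 2 * ((P n).ε * W) := by ring
    have b3 : (P n).ε * W ≤ (P n).ν * (P n).T * |Dt D (P n) v a b| * W :=
      mul_le_mul_of_nonneg_right hε hW0
    constructor
    · refine le_of_mul_le_mul_right ?_ hpos
      calc |ds| * |Dt D (P n) v a b| ≤ 4 * ((P n).ε * W) := b1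
        _ ≤ 4 * ((P n).ν * (P n).T * |Dt D (P n) v a b| * W) := by gcongr
        _ = 4 * W * (P n).ν * (P n).T * |Dt D (P n) v a b| := by ring
    · refine le_of_mul_le_mul_right ?_ hpos
      calc |dr| * |Dt D (P n) v a b| ≤ 2 * ((P n).ε * W) := b2
        _ ≤ 2 * ((P n).ν * (P n).T * |Dt D (P n) v a b| * W) := by gcongr
        _ = 2 * W * (P n).ν * (P n).T * |Dt D (P n) v a b| := by ring
  have hνl : Tendsto (fun n => (P n).ν) U (𝓝 0) := h.sq.ν_lim.mono_left h.hU
  have hTl : Tendsto (fun n => (P n).T) U (𝓝 0) := h.sq.T_lim.mono_left h.hU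
  have hR : rho D v (xb 1) = Rv D v := by
    have h1 : Tendsto (fun n => rho D v (X n 1) - Rv D v) U (𝓝 0) := by
      apply squeeze_zero_norm' (a := fun n => 2 * W * (P n).ν * (P n).T)
      · filter_upwards [key] with n hn
        rw [Real.norm_eq_abs]
        exact hn.2
      · have := (hνl.const_mul (2 * W)).mul hTl
        simpa using this
    have h2 := (s2_rho_lim h 1 (by norm_num)).sub_const (Rv D v)
    exact sub_eq_zero.1 (tendsto_nhds_unique h2 h1)
  have hRp := Rv_pos D v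
  have hzero : Tendsto (fun n => rho D v (X n 1)) U (𝓝 0) := by
    have hb : ∀ᶠ n in (U : Filter ℕ), |sg D v (X n 1)| = (P n).T * rho D v (X n 1) := by
      rcases s2_j1_of h (by rw [hR]; exact hRp) with h1 | h1
      · filter_upwards [h.tie1 1 1 (by norm_num) le_rfl h1, h.slab] with n h2 h3
        rw [h2, abs_of_nonneg (mul_nonneg (h.sq.T_pos n).le (h3 1 (by norm_num)).2.2)]
      · filter_upwards [h.tie2 1 1 (by norm_num) le_rfl h1, h.slab] with n h2 h3
        rw [h2, abs_neg, abs_of_nonneg (mul_nonneg (h.sq.T_pos n).le (h3 1 (by norm_num)).2.2)]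
    apply squeeze_zero_norm' (a := fun n => 4 * W * (P n).ν)
    · filter_upwards [key, hb, h.slab] with n h1 h2 h3
      rw [Real.norm_eq_abs, abs_of_nonneg (h3 1 (by norm_num)).2.2]
      have hT := h.sq.T_pos n
      have h4 := h1.1
      rw [h2] at h4
      nlinarith
    · have := hνl.const_mul (4 * W)
      simpa using this
  have := tendsto_nhds_unique (s2_rho_lim h 1 (by norm_num)) hzero
  rw [hR] at this
  exact hRp.ne' this

theorem s2_half_of [Finite V] (h : Ctx D P U X j SA SB xb v)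
    (hr : ∀ᶠ n in (U : Filter ℕ), rho D v (X n 1) = Rv D v / 2) (hA : 3 ≤ (SA 0).card) :
    xb 1 0 = D.vt v 0 / 2 ∧ xb 1 1 = D.vt v 1 / 2 ∧ (∀ i, D.c i ⬝ᵥ xb 1 ≤ 1) ∧
      ∃ T : Finset (Fin 8), 3 ≤ T.card ∧ ∀ i ∈ T, D.c i ⬝ᵥ xb 1 = D.c i ⬝ᵥ D.vt v := by
  have h1 : rho D v (xb 1) = Rv D v / 2 := by
    refine tendsto_nhds_unique (s2_rho_lim h 1 (by norm_num)) ?_
    apply tendsto_const_nhds.congr'
    filter_upwards [hr] with n hn
    exact hn.symm
  have h2 := h.sg_lim 1 (by norm_num)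
  refine ⟨?_, ?_, fun i => h.memb 1 (by norm_num) i, SA 0, hA, fun i hi => ?_⟩
  · rw [x_zero D v (xb 1), h1, h2, vt_zero]
    ring
  · rw [x_one D v (xb 1), h1, h2, vt_one]
    ring
  · rw [h.stepA_lim 0 (by norm_num) i hi, h.s2_xb0]

theorem Ctx.step2 [Finite V] (h : Ctx D P U X j SA SB xb v) :
    (xb 1 = D.vt v ∨ (xb 1 0 = D.vt v 0 / 2 ∧ xb 1 1 = D.vt v 1 / 2 ∧ (∀ i, D.c i ⬝ᵥ xb 1 ≤ 1) ∧
      ∃ T : Finset (Fin 8), 3 ≤ T.card ∧ ∀ i ∈ T, D.c i ⬝ᵥ xb 1 = D.c i ⬝ᵥ D.vt v)) ∧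
    0 < rho D v (xb 1) ∧ (j 1 = (v, 1) ∨ j 1 = (v, 2)) := by
  classical
  have hRp := Rv_pos D v
  suffices hs : (xb 1 = D.vt v ∨ (xb 1 0 = D.vt v 0 / 2 ∧ xb 1 1 = D.vt v 1 / 2 ∧
      (∀ i, D.c i ⬝ᵥ xb 1 ≤ 1) ∧
      ∃ T : Finset (Fin 8), 3 ≤ T.card ∧ ∀ i ∈ T, D.c i ⬝ᵥ xb 1 = D.c i ⬝ᵥ D.vt v)) ∧
      0 < rho D v (xb 1) from ⟨hs.1, hs.2, s2_j1_of h hs.2⟩
  have hnear : rho D v (xb 1) = Rv D v → 3 ≤ (SA 0).card → (xb 1 = D.vt v ∨
      (xb 1 0 = D.vt v 0 / 2 ∧ xb 1 1 = D.vt v 1 / 2 ∧ (∀ i, D.c i ⬝ᵥ xb 1 ≤ 1) ∧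
      ∃ T : Finset (Fin 8), 3 ≤ T.card ∧ ∀ i ∈ T, D.c i ⬝ᵥ xb 1 = D.c i ⬝ᵥ D.vt v)) ∧
      0 < rho D v (xb 1) := fun h1 h2 => ⟨Or.inl (s2_near_of h h1 h2), by rw [h1]; exact hRp⟩
  have hcard := h.card 0 (by norm_num)
  set K := (SB 0).erase (v, 0) with hK
  have hKc : (SB 0).card ≤ K.card + 1 := by
    have : (SB 0).card - 1 ≤ K.card := by
      rw [hK]
      exact Finset.pred_card_le_card_erase
    omega
  have hmem : ∀ a ∈ K, a ∈ SB 0 ∧ a ≠ (v, 0) := fun a ha =>
    ⟨Finset.mem_of_mem_erase ha, Finset.ne_of_mem_erase ha⟩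
  have hK1 : K.card ≤ 1 := by
    by_contra hcon
    obtain ⟨a, ha, b, hb, hab⟩ := Finset.one_lt_card.1 (not_le.1 hcon)
    exact s2_no_two h a b (hmem a ha).1 (hmem b hb).1 hab (hmem a ha).2 (hmem b hb).2
  have hνl : Tendsto (fun n => (P n).ν) U (𝓝 0) := h.sq.ν_lim.mono_left h.hU
  have hTl : Tendsto (fun n => (P n).T) U (𝓝 0) := h.sq.T_lim.mono_left h.hU
  rcases Nat.lt_or_ge 0 K.card with hK0 | hK0
  · -- exactly one further wall
    have hA : 3 ≤ (SA 0).card := by omega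
    obtain ⟨a, ha⟩ := Finset.card_pos.1 hK0
    obtain ⟨ha1, ha2⟩ := hmem a ha
    rcases s2_eq_or h a with h2 | h2 | h2 | h2 | h2
    · exact (ha2 h2).elim
    · -- the wall (v, 1)
      subst h2
      have hv := h.van1 0 (by norm_num) ha1
      have hlow : ∀ᶠ n in (U : Filter ℕ), Rv D v / 2 ≤ rho D v (X n 1) := by
        filter_upwards [hv, h.slab, h.x0] with n h3 h4 h5
        have hT := h.sq.T_pos n
        have h6 := (abs_le.1 (h4 1 (by norm_num)).1).1
        simp only [zero_add] at h3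
        rw [h5, rho_vt, sg_vt] at h3
        nlinarith
      have hge : Rv D v / 2 ≤ rho D v (xb 1) := ge_of_tendsto (s2_rho_lim h 1 (by norm_num)) hlow
      have hpos : 0 < rho D v (xb 1) := by linarith
      refine ⟨Or.inr (s2_half_of h ?_ hA), hpos⟩
      rcases s2_j1_of h hpos with h3 | h3
      · have ht := h.tie1 1 1 (by norm_num) le_rfl h3
        filter_upwards [hv, ht, h.x0] with n h4 h5 h6
        have hT := h.sq.T_pos n
        simp only [zero_add] at h4
        rw [h6, rho_vt, sg_vt, h5] at h4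
        nlinarith
      · have ht := h.tie2 1 1 (by norm_num) le_rfl h3
        filter_upwards [hv, ht, h.x0] with n h4 h5 h6
        have hT := h.sq.T_pos n
        simp only [zero_add] at h4
        rw [h6, rho_vt, sg_vt, h5] at h4
        have h7 : (P n).T * (2 * rho D v (X n 1) - Rv D v) = 0 := by linarith
        rcases mul_eq_zero.1 h7 with h8 | h8
        · exact (hT.ne' h8).elim
        · linarith
    · -- the wall (v, 2)
      subst h2
      have hv := h.van2 0 (by norm_num) ha1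
      have hlow : ∀ᶠ n in (U : Filter ℕ), Rv D v / 2 ≤ rho D v (X n 1) := by
        filter_upwards [hv, h.slab, h.x0] with n h3 h4 h5
        have hT := h.sq.T_pos n
        have h6 := (abs_le.1 (h4 1 (by norm_num)).1).2
        simp only [zero_add] at h3
        rw [h5, rho_vt, sg_vt] at h3
        nlinarith
      have hge : Rv D v / 2 ≤ rho D v (xb 1) := ge_of_tendsto (s2_rho_lim h 1 (by norm_num)) hlow
      have hpos : 0 < rho D v (xb 1) := by linarith
      refine ⟨Or.inr (s2_half_of h ?_ hA), hpos⟩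
      rcases s2_j1_of h hpos with h3 | h3
      · have ht := h.tie1 1 1 (by norm_num) le_rfl h3
        filter_upwards [hv, ht, h.x0] with n h4 h5 h6
        have hT := h.sq.T_pos n
        simp only [zero_add] at h4
        rw [h6, rho_vt, sg_vt, h5] at h4
        have h7 : (P n).T * (2 * rho D v (X n 1) - Rv D v) = 0 := by linarith
        rcases mul_eq_zero.1 h7 with h8 | h8
        · exact (hT.ne' h8).elim
        · linarith
      · have ht := h.tie2 1 1 (by norm_num) le_rfl h3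
        filter_upwards [hv, ht, h.x0] with n h4 h5 h6
        have hT := h.sq.T_pos n
        simp only [zero_add] at h4
        rw [h6, rho_vt, sg_vt, h5] at h4
        nlinarith
    · -- the private wall (v, 3)
      subst h2
      apply hnear _ hA
      have hv := h.van3 0 (by norm_num) ha1
      have hlW := s2_bd_of_lim ((s2_dot_lim h 1 (by norm_num) (D.w v)).sub (s2_dot_lim h 0 (by norm_num) (D.w v)))
      have hlr := s2_bd_of_lim (s2_rho_lim h 1 (by norm_num))
      have hε := h.sq.εν_lim.mono_left h.hU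
      have hμT := h.sq.μT_lim.mono_left h.hU
      have h1 : Tendsto (fun n => rho D v (X n 1) - Rv D v) U (𝓝 0) := by
        apply squeeze_zero_norm' (a := fun n => (P n).ε / (P n).ν *
          (|D.w v ⬝ᵥ xb 1 - D.w v ⬝ᵥ xb 0| + 1) + (P n).μ * (P n).T / (P n).ν * (|rho D v (xb 1)| + 1))
        · filter_upwards [hv, hlW, hlr, h.slab, h.x0] with n h3 h4 h5 h6 h7
          have hν := h.sq.ν_pos n
          have hT := h.sq.T_pos n
          have hμ := h.sq.μ_pos n
          have hε0 := h.sq.ε_pos n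
          have h8 := (h6 1 (by norm_num)).1
          have h9 := (h6 1 (by norm_num)).2.2
          rw [abs_of_nonneg h9] at h5
          simp only [zero_add] at h3
          rw [h7, rho_vt, sg_vt] at h3
          rw [h7] at h4
          rw [Real.norm_eq_abs]
          have h10 : (P n).ν * (rho D v (X n 1) - Rv D v) = (P n).ε * (D.w v ⬝ᵥ X n 1 -
            D.w v ⬝ᵥ D.vt v) + (P n).μ * sg D v (X n 1) := by linarith
          have h11 : |rho D v (X n 1) - Rv D v| = |(P n).ε * (D.w v ⬝ᵥ X n 1 -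
            D.w v ⬝ᵥ D.vt v) + (P n).μ * sg D v (X n 1)| / (P n).ν := by
            rw [← h10, abs_mul, abs_of_pos hν]
            field_simp
          rw [h11]
          rw [div_mul_eq_mul_div, div_mul_eq_mul_div, ← add_div]
          apply div_le_div_of_nonneg_right _ hν.le
          refine (abs_add_le _ _).trans ?_
          rw [abs_mul, abs_mul, abs_of_pos hε0, abs_of_pos hμ]
          have h12 : (P n).μ * |sg D v (X n 1)| ≤ (P n).μ * ((P n).T * (|rho D v (xb 1)| + 1)) := by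
            apply mul_le_mul_of_nonneg_left _ hμ.le
            exact h8.trans (mul_le_mul_of_nonneg_left h5 hT.le)
          have h13 := mul_le_mul_of_nonneg_left h4 hε0.le
          linarith
        · have := (hε.mul_const (|D.w v ⬝ᵥ xb 1 - D.w v ⬝ᵥ xb 0| + 1)).add
            (hμT.mul_const (|rho D v (xb 1)| + 1))
          simpa using this
      have h2 := (s2_rho_lim h 1 (by norm_num)).sub_const (Rv D v)
      exact sub_eq_zero.1 (tendsto_nhds_unique h2 h1)
    · -- a wall of another vertex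
      apply hnear _ hA
      have hv := s2_van h 0 (by norm_num) a ha1
      have hPA := (h.sq.PA_lim v a).mono_left h.hU
      have hPB := (h.sq.PB_lim v a).mono_left h.hU
      have hee := (h.sq.ee_lim a.2).mono_left h.hU
      have hl := ((hPA.sub_const 1).mul ((s2_rho_lim h 1 (by norm_num)).sub
        (s2_rho_lim h 0 (by norm_num)))).add (hPB.mul ((s2_sg_lim h 1 (by norm_num)).sub
        (s2_sg_lim h 0 (by norm_num)))) |>.add (hee.mul ((s2_dot_lim h 1 (by norm_num) (D.w a.1)).sub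
        (s2_dot_lim h 0 (by norm_num) (D.w a.1))))
      have h0 : Tendsto (fun _ : ℕ => (0 : ℝ)) U (𝓝 0) := tendsto_const_nhds
      have h3 := tendsto_nhds_unique (hl.congr' hv) h0
      rw [h.s2_xb0, rho_vt] at h3
      have h4 := al_lt_one D (Ne.symm h2)
      have h5 : (al D v a.1 - 1) * (rho D v (xb 1) - Rv D v) = 0 := by linarith
      rcases mul_eq_zero.1 h5 with h6 | h6
      · linarith
      · exact sub_eq_zero.1 h6
  · -- no further wall: four rows
    have hA : 4 ≤ (SA 0).card := by omega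
    have h1 : xb 1 - D.vt v = 0 := by
      apply D.g4 (SA 0) hA v _ ((rho D v (xb 1) - Rv D v) / Rv D v)
      · rw [Pi.sub_apply, x_zero D v (xb 1), h.sg_lim 1 (by norm_num), vt_zero]
        field_simp
        ring
      · rw [Pi.sub_apply, x_one D v (xb 1), h.sg_lim 1 (by norm_num), vt_one]
        field_simp
        ring
      · intro i hi
        have h2 := h.stepA_lim 0 (by norm_num) i hi
        rw [dotProduct_sub, h2, h.s2_xb0, sub_self]
    have h2 : xb 1 = D.vt v := sub_eq_zero.1 h1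
    refine ⟨Or.inl h2, ?_⟩
    rw [h2, rho_vt]
    exact hRp

end Pool.Agent.CH76
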