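import Pool.Agent.CH76.Rows
import Pool.Agent.CH76.Lims
import Pool.Agent.CH76.Step1
import Pool.Agent.CH76.Slab
import Pool.Agent.CH76.Step2

/-!
# CH76/Step3: the third point of the walk lies over the origin, the third wall is the private wall
-/

namespace Pool.Agent.CH76

open Matrix Filter Topology

variable {V : Type*} {D : Data V} {P : ℕ → Par}
variable {U : Ultrafilter ℕ} {X : ℕ → ℕ → Fin 5 → ℝ} {j : ℕ → V × Fin 4}
  {SA : ℕ → Finset (Fin 8)} {SB : ℕ → Finset (V × Fin 4)} {xb : ℕ → Fin 5 → ℝ} {v : V}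

theorem Ctx.rho_tend (h : Ctx D P U X j SA SB xb v) (l : ℕ) (hl : l < 4) :
    Tendsto (fun n => rho D v (X n l)) U (𝓝 (rho D v (xb l))) :=
  ((rho_cont D v).tendsto (xb l)).comp (h.lim l hl)

theorem Ctx.sg_tend (h : Ctx D P U X j SA SB xb v) (l : ℕ) (hl : l < 4) :
    Tendsto (fun n => sg D v (X n l)) U (𝓝 0) := by
  have h1 : Tendsto (fun n => sg D v (X n l)) U (𝓝 (sg D v (xb l))) :=
    ((sg_cont D v).tendsto (xb l)).comp (h.lim l hl)
  rwa [h.sg_lim l hl] at h1

theorem dot_cont3 (a : Fin 5 → ℝ) : Continuous fun x : Fin 5 → ℝ => a ⬝ᵥ x := by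
  simp only [dotProduct, Fin.sum_univ_five]
  fun_prop

theorem Ctx.dot_tend (h : Ctx D P U X j SA SB xb v) (a : Fin 5 → ℝ) (l : ℕ) (hl : l < 4) :
    Tendsto (fun n => a ⬝ᵥ X n l) U (𝓝 (a ⬝ᵥ xb l)) :=
  ((dot_cont3 a).tendsto (xb l)).comp (h.lim l hl)

/-- in the second step the second wall is `(v, 1)` or `(v, 2)`, the third one is different -/
theorem Ctx.j2_cases [Finite V] (h : Ctx D P U X j SA SB xb v) :
    (j 2 = (v, 1) ∧ j 1 = (v, 2)) ∨ (j 2 = (v, 2) ∧ j 1 = (v, 1)) ∨ j 2 = (v, 3) ∨ (j 2).1 ≠ v := by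
  by_cases h1 : (j 2).1 = v
  · have h2 : j 2 = (v, (j 2).2) := by
      rw [← h1]
    have h3 : (j 2).2 ≠ 0 := by
      intro h0
      rw [h0, ← h.j0] at h2
      have := h.inj 2 (by norm_num) 0 (by norm_num) h2
      omega
    have h12 : j 2 ≠ j 1 := by
      intro h0
      have := h.inj 2 (by norm_num) 1 (by norm_num) h0
      omega
    have h4 : (j 2).2 = 1 ∨ (j 2).2 = 2 ∨ (j 2).2 = 3 := by
      have h5 := (j 2).2.isLt
      rcases hq : (j 2).2 with ⟨q, hq5⟩
      rw [hq] at h3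
      interval_cases q
      · exact absurd rfl h3
      · left; rfl
      · right; left; rfl
      · right; right; rfl
    rcases h4 with h4 | h4 | h4
    · rw [h4] at h2
      rcases h.step2.2.2 with h5 | h5
      · exact absurd (h2.trans h5.symm) h12
      · exact Or.inl ⟨h2, h5⟩
    · rw [h4] at h2
      rcases h.step2.2.2 with h5 | h5
      · exact Or.inr (Or.inl ⟨h2, h5⟩)
      · exact absurd (h2.trans h5.symm) h12
    · rw [h4] at h2
      exact Or.inr (Or.inr (Or.inl h2))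
  · exact Or.inr (Or.inr (Or.inr h1))

/-- if both walls `(v, 1)` and `(v, 2)` are tight then the point lies over the origin -/
theorem Ctx.both (h : Ctx D P U X j SA SB xb v)
    (h12 : (j 2 = (v, 1) ∧ j 1 = (v, 2)) ∨ (j 2 = (v, 2) ∧ j 1 = (v, 1))) :
    ∀ᶠ n in (U : Filter ℕ), rho D v (X n 2) = 0 ∧ sg D v (X n 2) = 0 := by
  have key : (∀ᶠ n in (U : Filter ℕ), sg D v (X n 2) = (P n).T * rho D v (X n 2)) ∧
      (∀ᶠ n in (U : Filter ℕ), sg D v (X n 2) = -((P n).T * rho D v (X n 2))) := by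
    rcases h12 with ⟨h1, h2⟩ | ⟨h1, h2⟩
    · exact ⟨h.tie1 2 2 (by norm_num) (by norm_num) h1, h.tie2 2 1 (by norm_num) (by norm_num) h2⟩
    · exact ⟨h.tie1 2 1 (by norm_num) (by norm_num) h2, h.tie2 2 2 (by norm_num) (by norm_num) h1⟩
  filter_upwards [key.1, key.2] with n h1 h2
  have hT : 0 < (P n).T := h.sq.T_pos n
  have h3 : (P n).T * rho D v (X n 2) = 0 := by linarith
  rcases mul_eq_zero.1 h3 with h4 | h4
  · exact absurd h4 hT.ne'
  · refine ⟨h4, ?_⟩
    rw [h1, h4, mul_zero]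

theorem Ctx.rho2 [Finite V] (h : Ctx D P U X j SA SB xb v) : rho D v (xb 2) = 0 := by
  have key : ((j 2 = (v, 1) ∧ j 1 = (v, 2)) ∨ (j 2 = (v, 2) ∧ j 1 = (v, 1))) → rho D v (xb 2) = 0 := by
    intro h1
    have h2 : Tendsto (fun n => rho D v (X n 2)) U (𝓝 0) := by
      refine tendsto_const_nhds.congr' ?_
      filter_upwards [h.both h1] with n h3
      exact h3.1.symm
    exact tendsto_nhds_unique (h.rho_tend 2 (by norm_num)) h2
  rcases h.j2_cases with h1 | h1 | h1 | h1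
  · exact key (Or.inl h1)
  · exact key (Or.inr h1)
  · exact h.rho_zero 2 2 (by norm_num) (by norm_num) (Or.inl h1)
  · exact h.rho_zero 2 2 (by norm_num) (by norm_num) (Or.inr h1)

/-- `rho` really changes in the second step -/
theorem Ctx.drho_ne [Finite V] (h : Ctx D P U X j SA SB xb v)
    (h0 : Tendsto (fun n => rho D v (X n 2) - rho D v (X n 1)) U (𝓝 0)) : False := by
  have h1 := (h.rho_tend 2 (by norm_num)).sub (h.rho_tend 1 (by norm_num))
  have h2 := tendsto_nhds_unique h1 h0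
  rw [h.rho2] at h2
  have h3 := h.step2.2.1
  linarith

/-- relation between the two coordinates in the second step -/
theorem Ctx.dsg [Finite V] (h : Ctx D P U X j SA SB xb v) :
    (j 1 = (v, 1) ∧ ∀ᶠ n in (U : Filter ℕ), sg D v (X n 2) - sg D v (X n 1) =
      (P n).T * (rho D v (X n 2) - rho D v (X n 1))) ∨
    (j 1 = (v, 2) ∧ ∀ᶠ n in (U : Filter ℕ), sg D v (X n 2) - sg D v (X n 1) =
      -((P n).T * (rho D v (X n 2) - rho D v (X n 1)))) := by
  rcases h.step2.2.2 with h1 | h1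
  · left
    refine ⟨h1, ?_⟩
    filter_upwards [h.tie1 2 1 (by norm_num) (by norm_num) h1,
      h.tie1 1 1 (by norm_num) (by norm_num) h1] with n h2 h3
    rw [h2, h3]
    ring
  · right
    refine ⟨h1, ?_⟩
    filter_upwards [h.tie2 2 1 (by norm_num) (by norm_num) h1,
      h.tie2 1 1 (by norm_num) (by norm_num) h1] with n h2 h3
    rw [h2, h3]
    ring

theorem Ctx.dsg_tend (h : Ctx D P U X j SA SB xb v) :
    Tendsto (fun n => sg D v (X n 2) - sg D v (X n 1)) U (𝓝 0) := by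
  have := (h.sg_tend 2 (by norm_num)).sub (h.sg_tend 1 (by norm_num))
  rwa [sub_zero] at this

/-- no further wall vanishes on the second step -/
theorem Ctx.SB1 [Finite V] (h : Ctx D P U X j SA SB xb v) (k : V × Fin 4) (hk : k ∈ SB 1) :
    k = j 0 ∨ k = j 1 := by
  by_contra hcon
  push Not at hcon
  obtain ⟨hk0, hk1⟩ := hcon
  rw [h.j0] at hk0
  by_cases h1 : k.1 = v
  · obtain ⟨k1, k2⟩ := k
    simp only at h1
    subst h1
    have h4 : k2 = 1 ∨ k2 = 2 ∨ k2 = 3 := by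
      rcases k2 with ⟨q, hq5⟩
      interval_cases q
      · exact absurd rfl hk0
      · left; rfl
      · right; left; rfl
      · right; right; rfl
    rcases h4 with h4 | h4 | h4
    · subst h4
      rcases h.dsg with ⟨h5, h6⟩ | ⟨h5, h6⟩
      · exact hk1 h5.symm
      · apply h.drho_ne
        refine tendsto_const_nhds.congr' ?_
        filter_upwards [h6, h.van1 1 (by norm_num) hk] with n h7 h8
        have hT : 0 < (P n).T := h.sq.T_pos n
        have h9 : (P n).T * (rho D k1 (X n 2) - rho D k1 (X n 1)) = 0 := by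
          have h8' : sg D k1 (X n 2) - sg D k1 (X n 1) =
            (P n).T * (rho D k1 (X n 2) - rho D k1 (X n 1)) := h8
          linarith
        rcases mul_eq_zero.1 h9 with h10 | h10
        · exact absurd h10 hT.ne'
        · exact h10.symm
    · subst h4
      rcases h.dsg with ⟨h5, h6⟩ | ⟨h5, h6⟩
      · apply h.drho_ne
        refine tendsto_const_nhds.congr' ?_
        filter_upwards [h6, h.van2 1 (by norm_num) hk] with n h7 h8
        have hT : 0 < (P n).T := h.sq.T_pos n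
        have h9 : (P n).T * (rho D k1 (X n 2) - rho D k1 (X n 1)) = 0 := by
          have h8' : sg D k1 (X n 2) - sg D k1 (X n 1) =
            -((P n).T * (rho D k1 (X n 2) - rho D k1 (X n 1))) := h8
          linarith
        rcases mul_eq_zero.1 h9 with h10 | h10
        · exact absurd h10 hT.ne'
        · exact h10.symm
      · exact hk1 h5.symm
    · subst h4
      -- the private wall
      have hv := h.van3 1 (by norm_num) hk
      have hw : Tendsto (fun n => D.w k1 ⬝ᵥ X n 2 - D.w k1 ⬝ᵥ X n 1) U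
          (𝓝 (D.w k1 ⬝ᵥ xb 2 - D.w k1 ⬝ᵥ xb 1)) :=
        (h.dot_tend (D.w k1) 2 (by norm_num)).sub (h.dot_tend (D.w k1) 1 (by norm_num))
      have h5 : Tendsto (fun n => (P n).ε / (P n).ν * (D.w k1 ⬝ᵥ X n 2 - D.w k1 ⬝ᵥ X n 1)) U (𝓝 0) := by
        have := (h.sq.εν_lim.mono_left h.hU).mul hw
        rwa [zero_mul] at this
      have hr : Tendsto (fun n => rho D k1 (X n 2) - rho D k1 (X n 1)) U
          (𝓝 (rho D k1 (xb 2) - rho D k1 (xb 1))) :=
        (h.rho_tend 2 (by norm_num)).sub (h.rho_tend 1 (by norm_num))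
      have h6 : Tendsto (fun n => (P n).μ * (P n).T / (P n).ν *
          (rho D k1 (X n 2) - rho D k1 (X n 1))) U (𝓝 0) := by
        have := (h.sq.μT_lim.mono_left h.hU).mul hr
        rwa [zero_mul] at this
      apply h.drho_ne
      rcases h.dsg with ⟨_, h7⟩ | ⟨_, h7⟩
      · have h8 := h5.add h6
        rw [add_zero] at h8
        refine h8.congr' ?_
        filter_upwards [h7, hv] with n h9 h10
        have hν : (P n).ν ≠ 0 := (h.sq.ν_pos n).ne'
        have h10' : (P n).ε * (D.w k1 ⬝ᵥ X n 2 - D.w k1 ⬝ᵥ X n 1) =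
          (P n).ν * (rho D k1 (X n 2) - rho D k1 (X n 1)) -
          (P n).μ * (sg D k1 (X n 2) - sg D k1 (X n 1)) := h10
        rw [h9] at h10'
        field_simp
        linarith
      · have h8 := h5.sub h6
        rw [sub_zero] at h8
        refine h8.congr' ?_
        filter_upwards [h7, hv] with n h9 h10
        have hν : (P n).ν ≠ 0 := (h.sq.ν_pos n).ne'
        have h10' : (P n).ε * (D.w k1 ⬝ᵥ X n 2 - D.w k1 ⬝ᵥ X n 1) =
          (P n).ν * (rho D k1 (X n 2) - rho D k1 (X n 1)) -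
          (P n).μ * (sg D k1 (X n 2) - sg D k1 (X n 1)) := h10
        rw [h9] at h10'
        field_simp
        linarith
  · -- a wall of another vertex
    have hal : al D v k.1 - 1 ≠ 0 := by
      have := al_lt_one D (Ne.symm h1)
      linarith
    have h2 : ∀ᶠ n in (U : Filter ℕ), (PA D (P n) v k - 1) *
        (rho D v (X n 2) - rho D v (X n 1)) + PB D (P n) v k * (sg D v (X n 2) - sg D v (X n 1)) +
        ee (P n) k.2 * (D.w k.1 ⬝ᵥ X n 2 - D.w k.1 ⬝ᵥ X n 1) = 0 := by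
      filter_upwards [h.stepB] with n hn
      have h3 := hn 1 (by norm_num) k hk
      rw [h.j0, yrow_dot D (P n) v k, yrow_dot D (P n) v (v, 0), rho_sub, sg_sub, PA_self, PB_self,
        dotProduct_sub, dotProduct_sub] at h3
      have c0 : cs (P n) 0 = 1 := rfl
      have s0 : sn (P n) 0 = 0 := rfl
      have e0 : ee (P n) (v, (0 : Fin 4)).2 = 0 := rfl
      rw [c0, s0, e0] at h3
      have h3' : PA D (P n) v k * (rho D v (X n 2) - rho D v (X n 1)) +
        PB D (P n) v k * (sg D v (X n 2) - sg D v (X n 1)) +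
        ee (P n) k.2 * (D.w k.1 ⬝ᵥ X n 2 - D.w k.1 ⬝ᵥ X n 1) =
        1 * (rho D v (X n 2) - rho D v (X n 1)) + 0 * (sg D v (X n 2) - sg D v (X n 1)) +
        0 * (D.w v ⬝ᵥ X n 2 - D.w v ⬝ᵥ X n 1) := h3
      linarith
    have hw : Tendsto (fun n => D.w k.1 ⬝ᵥ X n 2 - D.w k.1 ⬝ᵥ X n 1) U
        (𝓝 (D.w k.1 ⬝ᵥ xb 2 - D.w k.1 ⬝ᵥ xb 1)) :=
      (h.dot_tend (D.w k.1) 2 (by norm_num)).sub (h.dot_tend (D.w k.1) 1 (by norm_num))
    have hr : Tendsto (fun n => rho D v (X n 2) - rho D v (X n 1)) U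
        (𝓝 (rho D v (xb 2) - rho D v (xb 1))) :=
      (h.rho_tend 2 (by norm_num)).sub (h.rho_tend 1 (by norm_num))
    have h4 : Tendsto (fun n => (PA D (P n) v k - 1) *
        (rho D v (X n 2) - rho D v (X n 1)) + PB D (P n) v k * (sg D v (X n 2) - sg D v (X n 1)) +
        ee (P n) k.2 * (D.w k.1 ⬝ᵥ X n 2 - D.w k.1 ⬝ᵥ X n 1)) U
        (𝓝 ((al D v k.1 - 1) * (rho D v (xb 2) - rho D v (xb 1)) + be D v k.1 * 0 +
          0 * (D.w k.1 ⬝ᵥ xb 2 - D.w k.1 ⬝ᵥ xb 1))) :=
      ((((h.sq.PA_lim v k).mono_left h.hU).sub tendsto_const_nhds).mul hr |>.add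
        (((h.sq.PB_lim v k).mono_left h.hU).mul h.dsg_tend)).add
        (((h.sq.ee_lim k.2).mono_left h.hU).mul hw)
    have h5 : Tendsto (fun n => (PA D (P n) v k - 1) *
        (rho D v (X n 2) - rho D v (X n 1)) + PB D (P n) v k * (sg D v (X n 2) - sg D v (X n 1)) +
        ee (P n) k.2 * (D.w k.1 ⬝ᵥ X n 2 - D.w k.1 ⬝ᵥ X n 1)) U (𝓝 0) := by
      refine tendsto_const_nhds.congr' ?_
      filter_upwards [h2] with n hn
      exact hn.symm
    have h6 := tendsto_nhds_unique h4 h5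
    have h7 : (al D v k.1 - 1) * (rho D v (xb 2) - rho D v (xb 1)) = 0 := by linarith
    rcases mul_eq_zero.1 h7 with h8 | h8
    · exact hal h8
    · have h9 := h.step2.2.1
      rw [h.rho2] at h8
      linarith

theorem Ctx.step3 [Finite V] (h : Ctx D P U X j SA SB xb v) :
    xb 2 0 = 0 ∧ xb 2 1 = 0 ∧ (∃ T : Finset (Fin 8), 3 ≤ T.card ∧ ∀ i ∈ T, D.c i ⬝ᵥ xb 2 = D.c i ⬝ᵥ xb 1) ∧
    0 < D.w v ⬝ᵥ xb 2 ∧ j 2 = (v, 3) := by
  classical
  have hr := h.rho2
  have hs := h.sg_lim 2 (by norm_num)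
  have hx0 : xb 2 0 = 0 := by
    rw [x_zero D v (xb 2), hr, hs]
    ring
  have hx1 : xb 2 1 = 0 := by
    rw [x_one D v (xb 2), hr, hs]
    ring
  have hT : ∃ T : Finset (Fin 8), 3 ≤ T.card ∧ ∀ i ∈ T, D.c i ⬝ᵥ xb 2 = D.c i ⬝ᵥ xb 1 := by
    refine ⟨SA 1, ?_, fun i hi => h.stepA_lim 1 (by norm_num) i hi⟩
    have h1 : SB 1 ⊆ {j 0, j 1} := by
      intro k hk
      rcases h.SB1 k hk with h2 | h2
      · simp [h2]
      · simp [h2]
    have h2 := (Finset.card_le_card h1).trans Finset.card_le_two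
    have h3 := h.card 1 (by norm_num)
    omega
  have hw : 0 < D.w v ⬝ᵥ xb 2 := by
    refine D.hC v (xb 1) (xb 2) (xb 2) h.step2.1 hx0 hx1 (fun i => h.memb 2 (by norm_num) i) hT hx0 hx1
      (fun i => h.memb 2 (by norm_num) i) ?_
    obtain ⟨T, h1, _⟩ := hT
    exact ⟨T, by omega, fun i _ => rfl⟩
  refine ⟨hx0, hx1, hT, hw, ?_⟩
  have hwt := h.dot_tend (D.w v) 2 (by norm_num)
  have key : ((j 2 = (v, 1) ∧ j 1 = (v, 2)) ∨ (j 2 = (v, 2) ∧ j 1 = (v, 1))) → False := by
    intro h1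
    have h2 : ∀ᶠ n in (U : Filter ℕ), D.w v ⬝ᵥ X n 2 ≤ 0 := by
      filter_upwards [h.both h1, h.slab] with n h3 h4
      have h5 := (h4 2 (by norm_num)).2.1
      rw [h3.1, h3.2] at h5
      have hε := h.sq.ε_pos n
      by_contra h6
      push Not at h6
      have := mul_pos hε h6
      linarith
    have h3 := le_of_tendsto hwt h2
    linarith
  rcases h.j2_cases with h1 | h1 | h1 | h1
  · exact (key (Or.inl h1)).elim
  · exact (key (Or.inr h1)).elim
  · exact h1
  · exfalso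
    obtain ⟨W, hW⟩ := h.tieo 2 2 (by norm_num) (by norm_num) h1
    have h2 : ∀ᶠ n in (U : Filter ℕ), D.w v ⬝ᵥ X n 2 ≤ ((P n).ν + (P n).μ * (P n).T) * W := by
      filter_upwards [hW, h.slab] with n h3 h4
      obtain ⟨h5, h6, h7⟩ := h4 2 (by norm_num)
      have hε := h.sq.ε_pos n
      have hν := h.sq.ν_pos n
      have hμ := h.sq.μ_pos n
      have hT := h.sq.T_pos n
      have h8 : -(sg D v (X n 2)) ≤ (P n).T * rho D v (X n 2) := (neg_le_abs _).trans h5
      have h9 : (P n).μ * -(sg D v (X n 2)) ≤ (P n).μ * ((P n).T * rho D v (X n 2)) :=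
        mul_le_mul_of_nonneg_left h8 hμ.le
      have h10 : (P n).ε * (D.w v ⬝ᵥ X n 2) ≤ ((P n).ν + (P n).μ * (P n).T) * rho D v (X n 2) := by
        nlinarith
      have h11 : ((P n).ν + (P n).μ * (P n).T) * rho D v (X n 2) ≤
          ((P n).ν + (P n).μ * (P n).T) * (W * (P n).ε) :=
        mul_le_mul_of_nonneg_left h3 (by positivity)
      have h12 : (P n).ε * (D.w v ⬝ᵥ X n 2) ≤ (P n).ε * (((P n).ν + (P n).μ * (P n).T) * W) := by
        calc (P n).ε * (D.w v ⬝ᵥ X n 2) ≤ ((P n).ν + (P n).μ * (P n).T) * (W * (P n).ε) :=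
              h10.trans h11
          _ = (P n).ε * (((P n).ν + (P n).μ * (P n).T) * W) := by ring
      exact le_of_mul_le_mul_left h12 hε
    have h3 : Tendsto (fun n => ((P n).ν + (P n).μ * (P n).T) * W) U (𝓝 0) := by
      have h4 := ((h.sq.ν_lim.mono_left h.hU).add ((h.sq.μ_lim.mono_left h.hU).mul
        (h.sq.T_lim.mono_left h.hU))).mul_const W
      simpa using h4
    have h5 := le_of_tendsto_of_tendsto hwt h3 h2
    linarith

end Pool.Agent.CH76
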