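import Pool.Agent.CH76.Rows
import Pool.Agent.CH76.Lims
import Pool.Agent.CH76.Step1
import Pool.Agent.CH76.Slab
import Pool.Agent.CH76.Step2
import Pool.Agent.CH76.Step3

/-!
# CH76/Step4: the last step of the walk is impossible
-/

namespace Pool.Agent.CH76

open Matrix Filter Topology

variable {V : Type*} {D : Data V} {P : ℕ → Par}
variable {U : Ultrafilter ℕ} {X : ℕ → ℕ → Fin 5 → ℝ} {j : ℕ → V × Fin 4}
  {SA : ℕ → Finset (Fin 8)} {SB : ℕ → Finset (V × Fin 4)} {xb : ℕ → Fin 5 → ℝ} {v : V}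

/-- both points of the last step lie on the boundary ray of the slab which belongs to `j 1` -/
theorem Ctx.ray4 [Finite V] (h : Ctx D P U X j SA SB xb v) :
    ∃ σ : ℝ, |σ| = 1 ∧ ((σ = 1 ∧ j 1 = (v, 1)) ∨ (σ = -1 ∧ j 1 = (v, 2))) ∧
    (∀ l, 1 ≤ l → l < 4 → ∀ᶠ n in (U : Filter ℕ),
      sg D v (X n l) = σ * ((P n).T * rho D v (X n l))) := by
  rcases h.step2.2.2 with h1 | h1
  · refine ⟨1, by simp, Or.inl ⟨rfl, h1⟩, fun l hl1 hl => ?_⟩
    filter_upwards [h.tie1 l 1 hl hl1 h1] with n h2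
    rw [h2, one_mul]
  · refine ⟨-1, by simp, Or.inr ⟨rfl, h1⟩, fun l hl1 hl => ?_⟩
    filter_upwards [h.tie2 l 1 hl hl1 h1] with n h2
    rw [h2]
    ring

/-- the private wall is tight at both points of the last step -/
theorem Ctx.priv4 [Finite V] (h : Ctx D P U X j SA SB xb v) (l : ℕ) (hl2 : 2 ≤ l) (hl : l < 4) :
    ∀ᶠ n in (U : Filter ℕ),
    (P n).ε * (D.w v ⬝ᵥ X n l) = (P n).ν * rho D v (X n l) - (P n).μ * sg D v (X n l) :=
  h.tie3 l 2 hl hl2 h.step3.2.2.2.2

theorem Ctx.slope_lim (h : Ctx D P U X j SA SB xb v) (W : ℝ) :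
    Tendsto (fun n => ((P n).ν + (P n).μ * (P n).T) * W) U (𝓝 0) := by
  have h4 := ((h.sq.ν_lim.mono_left h.hU).add ((h.sq.μ_lim.mono_left h.hU).mul
    (h.sq.T_lim.mono_left h.hU))).mul_const W
  simpa using h4

/-- a bound for the height in terms of `rho` -/
theorem Ctx.height (h : Ctx D P U X j SA SB xb v) (n : ℕ) (σ r s x W : ℝ) (hσ : |σ| = 1)
    (h1 : s = σ * ((P n).T * r)) (h2 : (P n).ε * x = (P n).ν * r - (P n).μ * s)
    (h3 : |r| ≤ W * (P n).ε) : |x| ≤ ((P n).ν + (P n).μ * (P n).T) * W := by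
  have hε := h.sq.ε_pos n
  have hν := h.sq.ν_pos n
  have hμ := h.sq.μ_pos n
  have hT := h.sq.T_pos n
  have h4 : (P n).ε * |x| ≤ (P n).ε * (((P n).ν + (P n).μ * (P n).T) * W) := by
    calc (P n).ε * |x| = |(P n).ε * x| := by rw [abs_mul, abs_of_pos hε]
      _ = |(P n).ν * r - (P n).μ * s| := by rw [h2]
      _ ≤ |(P n).ν * r| + |(P n).μ * s| := abs_sub _ _
      _ = (P n).ν * |r| + (P n).μ * ((P n).T * |r|) := by
          rw [h1, abs_mul, abs_mul, abs_mul, abs_mul, hσ, abs_of_pos hν, abs_of_pos hμ,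
            abs_of_pos hT, one_mul]
      _ = ((P n).ν + (P n).μ * (P n).T) * |r| := by ring
      _ ≤ ((P n).ν + (P n).μ * (P n).T) * (W * (P n).ε) :=
          mul_le_mul_of_nonneg_left h3 (by positivity)
      _ = (P n).ε * (((P n).ν + (P n).μ * (P n).T) * W) := by ring
  exact le_of_mul_le_mul_left h4 hε

/-- possibilities for a wall which is none of the first three -/
theorem Ctx.fourth [Finite V] (h : Ctx D P U X j SA SB xb v) (k : V × Fin 4) (h0 : k ≠ j 0)
    (h1 : k ≠ j 1) (h2 : k ≠ j 2) :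
    (k = (v, 1) ∧ j 1 = (v, 2)) ∨ (k = (v, 2) ∧ j 1 = (v, 1)) ∨ k.1 ≠ v := by
  by_cases hk : k.1 = v
  · obtain ⟨k1, k2⟩ := k
    simp only at hk
    subst hk
    rw [h.j0] at h0
    rw [h.step3.2.2.2.2] at h2
    have h4 : k2 = 1 ∨ k2 = 2 := by
      rcases k2 with ⟨q, hq5⟩
      interval_cases q
      · exact absurd rfl h0
      · left; rfl
      · right; rfl
      · exact absurd rfl h2
    rcases h4 with h4 | h4
    · subst h4
      rcases h.step2.2.2 with h5 | h5
      · exact absurd h5.symm h1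
      · exact Or.inl ⟨rfl, h5⟩
    · subst h4
      rcases h.step2.2.2 with h5 | h5
      · exact Or.inr (Or.inl ⟨rfl, h5⟩)
      · exact absurd h5.symm h1
  · exact Or.inr (Or.inr hk)

/-- the private functional is not positive at the last point -/
theorem Ctx.w3_le [Finite V] (h : Ctx D P U X j SA SB xb v) : D.w v ⬝ᵥ xb 3 ≤ 0 := by
  obtain ⟨σ, hσ, hσ2, hray⟩ := h.ray4
  have hwt := h.dot_tend (D.w v) 3 (by norm_num)
  have hb : ∃ W : ℝ, ∀ᶠ n in (U : Filter ℕ), |rho D v (X n 3)| ≤ W * (P n).ε := by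
    have hne0 : j 3 ≠ j 0 := by
      intro h0
      have := h.inj 3 (by norm_num) 0 (by norm_num) h0
      omega
    have hne1 : j 3 ≠ j 1 := by
      intro h0
      have := h.inj 3 (by norm_num) 1 (by norm_num) h0
      omega
    have hne2 : j 3 ≠ j 2 := by
      intro h0
      have := h.inj 3 (by norm_num) 2 (by norm_num) h0
      omega
    rcases h.fourth (j 3) hne0 hne1 hne2 with ⟨h1, h2⟩ | ⟨h1, h2⟩ | h1
    · refine ⟨0, ?_⟩
      filter_upwards [h.tie1 3 3 (by norm_num) (by norm_num) h1,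
        h.tie2 3 1 (by norm_num) (by norm_num) h2] with n h3 h4
      have hT : 0 < (P n).T := h.sq.T_pos n
      have h5 : (P n).T * rho D v (X n 3) = 0 := by linarith
      rcases mul_eq_zero.1 h5 with h6 | h6
      · exact absurd h6 hT.ne'
      · rw [h6]; simp
    · refine ⟨0, ?_⟩
      filter_upwards [h.tie2 3 3 (by norm_num) (by norm_num) h1,
        h.tie1 3 1 (by norm_num) (by norm_num) h2] with n h3 h4
      have hT : 0 < (P n).T := h.sq.T_pos n
      have h5 : (P n).T * rho D v (X n 3) = 0 := by linarith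
      rcases mul_eq_zero.1 h5 with h6 | h6
      · exact absurd h6 hT.ne'
      · rw [h6]; simp
    · obtain ⟨W, hW⟩ := h.tieo 3 3 (by norm_num) (by norm_num) h1
      refine ⟨W, ?_⟩
      filter_upwards [hW, h.slab] with n h3 h4
      rw [abs_of_nonneg (h4 3 (by norm_num)).2.2]
      exact h3
  obtain ⟨W, hW⟩ := hb
  refine le_of_tendsto_of_tendsto hwt (h.slope_lim W) ?_
  filter_upwards [hW, hray 3 (by norm_num) (by norm_num), h.priv4 3 (by norm_num) (by norm_num)]
    with n h1 h2 h3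
  exact (le_abs_self _).trans (h.height n σ _ _ _ W hσ h2 h3 h1)

/-- if `rho` changes only by `O(ε)` in the last step then the private functional does not change -/
theorem Ctx.dw4 [Finite V] (h : Ctx D P U X j SA SB xb v)
    (hb : ∃ W : ℝ, ∀ᶠ n in (U : Filter ℕ), |rho D v (X n 3) - rho D v (X n 2)| ≤ W * (P n).ε) :
    False := by
  obtain ⟨W, hW⟩ := hb
  obtain ⟨σ, hσ, hσ2, hray⟩ := h.ray4
  have h1 : Tendsto (fun n => D.w v ⬝ᵥ X n 3 - D.w v ⬝ᵥ X n 2) U
      (𝓝 (D.w v ⬝ᵥ xb 3 - D.w v ⬝ᵥ xb 2)) :=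
    (h.dot_tend (D.w v) 3 (by norm_num)).sub (h.dot_tend (D.w v) 2 (by norm_num))
  have h2 : Tendsto (fun n => D.w v ⬝ᵥ X n 3 - D.w v ⬝ᵥ X n 2) U (𝓝 0) := by
    apply squeeze_zero_norm' _ (h.slope_lim W)
    filter_upwards [hW, hray 3 (by norm_num) (by norm_num), hray 2 (by norm_num) (by norm_num),
      h.priv4 3 (by norm_num) (by norm_num), h.priv4 2 (by norm_num) (by norm_num)]
      with n h3 h4 h5 h6 h7
    rw [Real.norm_eq_abs]
    refine h.height n σ (rho D v (X n 3) - rho D v (X n 2)) (sg D v (X n 3) - sg D v (X n 2)) _ W hσ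
      ?_ ?_ h3
    · rw [h4, h5]; ring
    · rw [mul_sub, h6, h7]; ring
  have h3 := tendsto_nhds_unique h1 h2
  have h4 := h.w3_le
  have h5 := h.step3.2.2.2.1
  linarith

/-- no further wall vanishes on the last step -/
theorem Ctx.SB2 [Finite V] (h : Ctx D P U X j SA SB xb v) (k : V × Fin 4) (hk : k ∈ SB 2) :
    k = j 0 ∨ k = j 1 ∨ k = j 2 := by
  by_contra hcon
  push Not at hcon
  obtain ⟨hk0, hk1, hk2⟩ := hcon
  obtain ⟨σ, hσ, hσ2, hray⟩ := h.ray4
  rcases h.fourth k hk0 hk1 hk2 with ⟨h1, h2⟩ | ⟨h1, h2⟩ | h1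
  · subst h1
    refine h.dw4 ⟨0, ?_⟩
    filter_upwards [h.van1 2 (by norm_num) hk, h.tie2 3 1 (by norm_num) (by norm_num) h2,
      h.tie2 2 1 (by norm_num) (by norm_num) h2] with n h3 h4 h5
    have hT : 0 < (P n).T := h.sq.T_pos n
    have h3' : sg D v (X n 3) - sg D v (X n 2) = (P n).T * (rho D v (X n 3) - rho D v (X n 2)) := h3
    have h6 : (P n).T * (rho D v (X n 3) - rho D v (X n 2)) = 0 := by linarith
    rcases mul_eq_zero.1 h6 with h7 | h7
    · exact absurd h7 hT.ne'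
    · rw [h7]; simp
  · subst h1
    refine h.dw4 ⟨0, ?_⟩
    filter_upwards [h.van2 2 (by norm_num) hk, h.tie1 3 1 (by norm_num) (by norm_num) h2,
      h.tie1 2 1 (by norm_num) (by norm_num) h2] with n h3 h4 h5
    have hT : 0 < (P n).T := h.sq.T_pos n
    have h3' : sg D v (X n 3) - sg D v (X n 2) =
      -((P n).T * (rho D v (X n 3) - rho D v (X n 2))) := h3
    have h6 : (P n).T * (rho D v (X n 3) - rho D v (X n 2)) = 0 := by linarith
    rcases mul_eq_zero.1 h6 with h7 | h7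
    · exact absurd h7 hT.ne'
    · rw [h7]; simp
  · obtain ⟨γ, hγ, hgap⟩ := h.sq.gap
    have hlw : Tendsto (fun n => |D.w k.1 ⬝ᵥ X n 3 - D.w k.1 ⬝ᵥ X n 2|) U
        (𝓝 |D.w k.1 ⬝ᵥ xb 3 - D.w k.1 ⬝ᵥ xb 2|) :=
      ((h.dot_tend (D.w k.1) 3 (by norm_num)).sub (h.dot_tend (D.w k.1) 2 (by norm_num))).abs
    refine h.dw4 ⟨(|D.w k.1 ⬝ᵥ xb 3 - D.w k.1 ⬝ᵥ xb 2| + 1) / γ, ?_⟩
    filter_upwards [h.stepB, h.hU hgap, hray 3 (by norm_num) (by norm_num),
      hray 2 (by norm_num) (by norm_num), hlw.eventually (gt_mem_nhds (lt_add_one _))]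
      with n hn hg h4 h5 h6
    have hε := h.sq.ε_pos n
    have hT : 0 < (P n).T := h.sq.T_pos n
    have h3 := hn 2 (by norm_num) k hk
    rw [h.j0, yrow_dot D (P n) v k, yrow_dot D (P n) v (v, 0), rho_sub, sg_sub, PA_self, PB_self,
      dotProduct_sub, dotProduct_sub] at h3
    have c0 : cs (P n) 0 = 1 := rfl
    have s0 : sn (P n) 0 = 0 := rfl
    have e0 : ee (P n) (v, (0 : Fin 4)).2 = 0 := rfl
    rw [c0, s0, e0] at h3
    have h3' : PA D (P n) v k * (rho D v (X n 3) - rho D v (X n 2)) +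
      PB D (P n) v k * (sg D v (X n 3) - sg D v (X n 2)) +
      ee (P n) k.2 * (D.w k.1 ⬝ᵥ X n 3 - D.w k.1 ⬝ᵥ X n 2) =
      1 * (rho D v (X n 3) - rho D v (X n 2)) + 0 * (sg D v (X n 3) - sg D v (X n 2)) +
      0 * (D.w v ⬝ᵥ X n 3 - D.w v ⬝ᵥ X n 2) := h3
    set r := rho D v (X n 3) - rho D v (X n 2) with hr
    have hs : sg D v (X n 3) - sg D v (X n 2) = σ * ((P n).T * r) := by
      rw [h4, h5, hr]; ring
    rw [hs] at h3'
    set y := D.w k.1 ⬝ᵥ X n 3 - D.w k.1 ⬝ᵥ X n 2 with hy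
    have hg' := hg v k h1
    have hAB := h.sq.PA_PB n v k
    have hB : |PB D (P n) v k| ≤ 1 := by
      rw [abs_le]
      constructor <;> nlinarith [sq_nonneg (PA D (P n) v k)]
    have he : |ee (P n) k.2| ≤ (P n).ε := by
      have : ee (P n) k.2 = 0 ∨ ee (P n) k.2 = (P n).ε := by
        rcases k.2 with ⟨q, hq5⟩
        interval_cases q
        · left; rfl
        · left; rfl
        · left; rfl
        · right; rfl
      rcases this with h7 | h7
      · rw [h7, abs_zero]; exact hε.le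
      · rw [h7, abs_of_pos hε]
    have h7 : (1 - PA D (P n) v k) * r = PB D (P n) v k * (σ * ((P n).T * r)) + ee (P n) k.2 * y := by
      linarith
    have hpos : 0 < 1 - PA D (P n) v k := by linarith
    have h8 : (1 - PA D (P n) v k) * |r| ≤ (P n).T * |r| + (P n).ε * |y| := by
      calc (1 - PA D (P n) v k) * |r| = |(1 - PA D (P n) v k) * r| := by
            rw [abs_mul, abs_of_pos hpos]
        _ = |PB D (P n) v k * (σ * ((P n).T * r)) + ee (P n) k.2 * y| := by rw [h7]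
        _ ≤ |PB D (P n) v k * (σ * ((P n).T * r))| + |ee (P n) k.2 * y| := abs_add_le _ _
        _ = |PB D (P n) v k| * ((P n).T * |r|) + |ee (P n) k.2| * |y| := by
            rw [abs_mul, abs_mul, abs_mul, abs_mul, hσ, abs_of_pos hT, one_mul]
        _ ≤ 1 * ((P n).T * |r|) + (P n).ε * |y| := by
            apply add_le_add
            · exact mul_le_mul_of_nonneg_right hB (by positivity)
            · exact mul_le_mul_of_nonneg_right he (abs_nonneg _)
        _ = (P n).T * |r| + (P n).ε * |y| := by ring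
    have h9 : γ * |r| ≤ (P n).ε * |y| := by
      have := abs_nonneg r
      nlinarith
    have h10 : γ * |r| ≤ (P n).ε * (|D.w k.1 ⬝ᵥ xb 3 - D.w k.1 ⬝ᵥ xb 2| + 1) :=
      h9.trans (mul_le_mul_of_nonneg_left h6.le hε.le)
    rw [div_mul_eq_mul_div, le_div_iff₀ hγ]
    linarith

theorem Ctx.step4 [Finite V] (h : Ctx D P U X j SA SB xb v) : False := by
  classical
  obtain ⟨hx0, hx1, hT, hw, hj2⟩ := h.step3
  have hr : rho D v (xb 3) = 0 := h.rho_zero 3 2 (by norm_num) (by norm_num) (Or.inl hj2)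
  have hs := h.sg_lim 3 (by norm_num)
  have hy0 : xb 3 0 = 0 := by
    rw [x_zero D v (xb 3), hr, hs]
    ring
  have hy1 : xb 3 1 = 0 := by
    rw [x_one D v (xb 3), hr, hs]
    ring
  have h1 : SB 2 ⊆ {j 0, j 1, j 2} := by
    intro k hk
    rcases h.SB2 k hk with h2 | h2 | h2 <;> simp [h2]
  have h2 := (Finset.card_le_card h1).trans Finset.card_le_three
  have h3 := h.card 2 (by norm_num)
  have h4 := D.hC v (xb 1) (xb 2) (xb 3) h.step2.1 hx0 hx1 (fun i => h.memb 2 (by norm_num) i) hT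
    hy0 hy1 (fun i => h.memb 3 (by norm_num) i)
    ⟨SA 2, by omega, fun i hi => h.stepA_lim 2 (by norm_num) i hi⟩
  have h5 := h.w3_le
  linarith

end Pool.Agent.CH76
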