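import Pool.Agent.CH76.SqEx
import Pool.Agent.CH76.Step4

/-!
# CH76/Main: for small parameters the cylinder model has no robust walk
-/

namespace Pool.Agent.CH76

open Matrix Filter Topology

private theorem ultra_const {F : Type*} [Finite F] (U : Ultrafilter ℕ) (f : ℕ → F) :
    ∃ v, ∀ᶠ n in (U : Filter ℕ), f n = v := by
  obtain ⟨v, hv⟩ := Ultrafilter.eq_pure_of_finite (U.map f)
  refine ⟨v, ?_⟩
  have h1 : {v} ∈ U.map f := by
    rw [hv]
    exact Ultrafilter.mem_pure.2 rfl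
  rw [Ultrafilter.mem_map] at h1
  exact h1

private theorem ultra_lim {V : Type*} [NormedAddCommGroup V] [ProperSpace V] (U : Ultrafilter ℕ) (f : ℕ → V)
    (R : ℝ) (hf : ∀ᶠ n in (U : Filter ℕ), ‖f n‖ ≤ R) : ∃ p, Tendsto f U (𝓝 p) := by
  have h1 : Metric.closedBall (0 : V) R ∈ U.map f := by
    rw [Ultrafilter.mem_map]
    filter_upwards [hf] with n hn
    simpa using hn
  obtain ⟨p, _, hp⟩ := (isCompact_closedBall (0 : V) R).ultrafilter_le_nhds' (U.map f) h1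
  exact ⟨p, hp⟩

theorem exists_rnw {V : Type*} [Fintype V] [DecidableEq V] (D : Data V) :
    ∃ y : V × Fin 4 → Fin 5 → ℝ,
      (∀ x, (∀ j, y j ⬝ᵥ x ≤ 0) → x = 0) ∧ ¬ ∃ x j, RobustWalk D.c y 4 x j := by
  obtain ⟨P, hP⟩ := exists_sq D
  by_contra hcon
  push Not at hcon
  have h1 : ∀ n, ∃ x j, RobustWalk D.c (yrow D (P n)) 4 x j := fun n =>
    hcon (yrow D (P n)) fun x hx => yrow_span D P hP n x hx
  choose X J hW using h1
  have h2 : ∀ n, ∃ v, X n 0 = D.vt v := by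
    intro n
    obtain ⟨S, hS, hS1⟩ := (hW n).first
    exact D.hV (X n 0) ((hW n).mem 0 (by norm_num)) ⟨S, hS, hS1⟩
  choose vv hvv using h2
  have h3 : ∀ n, ∀ l : Fin 3, ∃ (SA : Finset (Fin 8)) (SB : Finset (V × Fin 4)),
      5 ≤ SA.card + SB.card ∧
      (∀ i ∈ SA, D.c i ⬝ᵥ (X n ((l : ℕ) + 1) - X n (l : ℕ)) = 0) ∧
      (∀ i ∈ SB, yrow D (P n) i ⬝ᵥ (X n ((l : ℕ) + 1) - X n (l : ℕ)) =
        yrow D (P n) (J n 0) ⬝ᵥ (X n ((l : ℕ) + 1) - X n (l : ℕ))) := by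
    intro n l
    exact (hW n).step l (by omega)
  choose SA SB hc hA hB using h3
  let U : Ultrafilter ℕ := hyperfilter ℕ
  have hU : (U : Filter ℕ) ≤ atTop := Nat.hyperfilter_le_atTop
  obtain ⟨⟨jc, sa, sb, v⟩, hcst⟩ := ultra_const U (fun n =>
    ((fun l : Fin 4 => J n l, fun l : Fin 3 => SA n l, fun l : Fin 3 => SB n l, vv n) :
      (Fin 4 → V × Fin 4) × (Fin 3 → Finset (Fin 8)) × (Fin 3 → Finset (V × Fin 4)) × V))
  have hcst' : ∀ᶠ n in (U : Filter ℕ), (∀ l : Fin 4, J n l = jc l) ∧ (∀ l : Fin 3, SA n l = sa l) ∧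
      (∀ l : Fin 3, SB n l = sb l) ∧ vv n = v := by
    filter_upwards [hcst] with n hn
    simp only [Prod.mk.injEq] at hn
    exact ⟨fun l => congrFun hn.1 l, fun l => congrFun hn.2.1 l, fun l => congrFun hn.2.2.1 l, hn.2.2.2⟩
  obtain ⟨M, hM⟩ := exists_bound D.c D.hc
  have hlim : ∀ l : Fin 4, ∃ p, Tendsto (fun n => X n l) U (𝓝 p) := fun l =>
    ultra_lim U (fun n => X n l) M (Eventually.of_forall fun n => hM _ ((hW n).mem l l.2))
  choose pb hpb using hlim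
  have hctx : Ctx D P U X (fun l => if h : l < 4 then jc ⟨l, h⟩ else jc 0)
      (fun l => if h : l < 3 then sa ⟨l, h⟩ else ∅) (fun l => if h : l < 3 then sb ⟨l, h⟩ else ∅)
      (fun l => if h : l < 4 then pb ⟨l, h⟩ else 0) v := by
    have e0 : (if h : (0 : ℕ) < 4 then jc ⟨0, h⟩ else jc 0) = jc 0 := rfl
    refine ⟨hP, hU, ?_, ?_, ?_, ?_, ?_, ?_, ?_, ?_, ?_⟩
    · filter_upwards [hcst'] with n hn
      rw [hvv n, hn.2.2.2]
    · exact Eventually.of_forall fun n => (hW n).mem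
    · intro l hl m hm hlm
      rw [dif_pos hl, dif_pos hm] at hlm
      obtain ⟨n, hn⟩ := hcst'.exists
      have h4 := hn.1 ⟨l, hl⟩
      have h5 := hn.1 ⟨m, hm⟩
      exact (hW n).inj l hl m hm (h4.trans (hlm.trans h5.symm))
    · filter_upwards [hcst'] with n hn l hl i
      have h4 : J n 0 = jc 0 := hn.1 0
      rw [e0, ← h4]
      exact (hW n).max l hl i
    · filter_upwards [hcst'] with n hn l hl m hm
      have h4 : J n 0 = jc 0 := hn.1 0
      have h5 : J n m = jc ⟨m, by omega⟩ := hn.1 ⟨m, by omega⟩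
      rw [e0, dif_pos (by omega : m < 4), ← h4, ← h5]
      exact (hW n).tie l hl m hm
    · intro l hl
      rw [dif_pos hl, dif_pos hl]
      obtain ⟨n, hn⟩ := hcst'.exists
      rw [← hn.2.1, ← hn.2.2.1]
      exact hc n ⟨l, hl⟩
    · filter_upwards [hcst'] with n hn l hl i hi
      rw [dif_pos hl, ← hn.2.1] at hi
      exact hA n ⟨l, hl⟩ i hi
    · filter_upwards [hcst'] with n hn l hl i hi
      rw [dif_pos hl, ← hn.2.2.1] at hi
      have h4 : J n 0 = jc 0 := hn.1 0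
      rw [e0, ← h4]
      exact hB n ⟨l, hl⟩ i hi
    · intro l hl
      rw [dif_pos hl]
      exact hpb ⟨l, hl⟩
  exact hctx.step4

end Pool.Agent.CH76
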