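import Pool.Agent.CH76.Defs
import Pool.Agent.CH76.Lib

/-!
# CH76/Rows: the walls of the example, and the context after passing to an ultrafilter
-/

namespace Pool.Agent.CH76

open Matrix Filter Topology

variable {V : Type*} (D : Data V)

/-- the length of the `p`-part of a vertex -/
noncomputable def Rv (v : V) : ℝ := Real.sqrt (D.vt v 0 ^ 2 + D.vt v 1 ^ 2)

theorem Rv_arg_pos (v : V) : 0 < D.vt v 0 ^ 2 + D.vt v 1 ^ 2 := by
  rcases D.hp v with h | h
  · have := sq_pos_of_ne_zero h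
    positivity
  · have := sq_pos_of_ne_zero h
    positivity

theorem Rv_pos (v : V) : 0 < Rv D v := Real.sqrt_pos.2 (Rv_arg_pos D v)

theorem Rv_sq (v : V) : Rv D v ^ 2 = D.vt v 0 ^ 2 + D.vt v 1 ^ 2 := Real.sq_sqrt (Rv_arg_pos D v).le

/-- first coordinate of the direction of `vt v` -/
noncomputable def ua (v : V) : ℝ := D.vt v 0 / Rv D v

/-- second coordinate of the direction of `vt v` -/
noncomputable def ub (v : V) : ℝ := D.vt v 1 / Rv D v

theorem ua_ub (v : V) : ua D v ^ 2 + ub D v ^ 2 = 1 := by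
  have h := Rv_pos D v
  unfold ua ub
  rw [div_pow, div_pow, ← add_div, Rv_sq, div_self (Rv_arg_pos D v).ne']

theorem vt_zero (v : V) : D.vt v 0 = Rv D v * ua D v := by
  have h := Rv_pos D v
  unfold ua
  field_simp

theorem vt_one (v : V) : D.vt v 1 = Rv D v * ub D v := by
  have h := Rv_pos D v
  unfold ub
  field_simp

/-- component of the `p`-part along the direction of `v` -/
noncomputable def rho (v : V) (x : Fin 5 → ℝ) : ℝ := ua D v * x 0 + ub D v * x 1

/-- transversal component of the `p`-part -/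
noncomputable def sg (v : V) (x : Fin 5 → ℝ) : ℝ := ua D v * x 1 - ub D v * x 0

theorem rho_vt (v : V) : rho D v (D.vt v) = Rv D v := by
  unfold rho
  rw [vt_zero, vt_one]
  linear_combination Rv D v * ua_ub D v

theorem sg_vt (v : V) : sg D v (D.vt v) = 0 := by
  unfold sg
  rw [vt_zero, vt_one]
  ring

theorem rho_sub (v : V) (x x' : Fin 5 → ℝ) : rho D v (x - x') = rho D v x - rho D v x' := by
  simp only [rho, Pi.sub_apply]
  ring

theorem sg_sub (v : V) (x x' : Fin 5 → ℝ) : sg D v (x - x') = sg D v x - sg D v x' := by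
  simp only [sg, Pi.sub_apply]
  ring

theorem x_zero (v : V) (x : Fin 5 → ℝ) : x 0 = ua D v * rho D v x - ub D v * sg D v x := by
  unfold rho sg
  linear_combination - x 0 * ua_ub D v

theorem x_one (v : V) (x : Fin 5 → ℝ) : x 1 = ub D v * rho D v x + ua D v * sg D v x := by
  unfold rho sg
  linear_combination - x 1 * ua_ub D v

theorem rho_cont (v : V) : Continuous (rho D v) := by
  unfold rho
  fun_prop

theorem sg_cont (v : V) : Continuous (sg D v) := by
  unfold sg
  fun_prop

/-- cosine of the angle between two directions -/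
noncomputable def al (v v' : V) : ℝ := ua D v * ua D v' + ub D v * ub D v'

/-- sine of the angle between two directions -/
noncomputable def be (v v' : V) : ℝ := ua D v * ub D v' - ub D v * ua D v'

theorem al_self (v : V) : al D v v = 1 := by
  unfold al
  linear_combination ua_ub D v

theorem be_self (v : V) : be D v v = 0 := by
  unfold be
  ring

theorem al_be (v v' : V) : al D v v' ^ 2 + be D v v' ^ 2 = 1 := by
  unfold al be
  linear_combination (ua D v' ^ 2 + ub D v' ^ 2) * ua_ub D v + ua_ub D v'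

theorem al_lt_one {v v' : V} (h : v ≠ v') : al D v v' < 1 := by
  have h1 := Rv_pos D v
  have h2 := Rv_pos D v'
  have h3 := al_be D v v'
  rcases D.hdir v v' h with h4 | h4
  · have h5 : be D v v' ≠ 0 := by
      intro h0
      apply h4
      rw [vt_zero D v, vt_one D v, vt_zero D v', vt_one D v']
      unfold be at h0
      linear_combination Rv D v * Rv D v' * h0
    have h6 := sq_pos_of_ne_zero h5
    nlinarith
  · have h5 : Rv D v * Rv D v' * al D v v' < 0 := by
      have : Rv D v * Rv D v' * al D v v' = D.vt v 0 * D.vt v' 0 + D.vt v 1 * D.vt v' 1 := by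
        rw [vt_zero D v, vt_one D v, vt_zero D v', vt_one D v']
        unfold al
        ring
      rw [this]
      exact h4
    have h6 : 0 < Rv D v * Rv D v' := mul_pos h1 h2
    by_contra h7
    push Not at h7
    nlinarith

/-- the parameters -/
structure Par where
  /-- depth of the private walls -/
  ν : ℝ
  /-- sine of the angle of the private walls -/
  μ : ℝ
  /-- tangent of the half angle of the slabs -/
  T : ℝ
  /-- size of the `q`-parts -/
  ε : ℝ

/-- cosines of the angles of the four walls of a vertex -/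
noncomputable def cs (P : Par) : Fin 4 → ℝ :=
  ![1, (1 - P.T ^ 2) / (1 + P.T ^ 2), (1 - P.T ^ 2) / (1 + P.T ^ 2), 1 - P.ν]

/-- sines of the angles of the four walls of a vertex -/
noncomputable def sn (P : Par) : Fin 4 → ℝ :=
  ![0, 2 * P.T / (1 + P.T ^ 2), -(2 * P.T / (1 + P.T ^ 2)), P.μ]

/-- heights of the `q`-parts -/
noncomputable def ee (P : Par) : Fin 4 → ℝ := ![0, 0, 0, P.ε]

/-- the walls -/
noncomputable def yrow (P : Par) (j : V × Fin 4) : Fin 5 → ℝ :=
  ![cs P j.2 * ua D j.1 - sn P j.2 * ub D j.1, cs P j.2 * ub D j.1 + sn P j.2 * ua D j.1, 0, 0, 0] +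
    ee P j.2 • D.w j.1

/-- the `p`-part of a wall in the coordinates of `v`: component along `v` -/
noncomputable def PA (P : Par) (v : V) (j : V × Fin 4) : ℝ :=
  cs P j.2 * al D v j.1 - sn P j.2 * be D v j.1

/-- the `p`-part of a wall in the coordinates of `v`: transversal component -/
noncomputable def PB (P : Par) (v : V) (j : V × Fin 4) : ℝ :=
  cs P j.2 * be D v j.1 + sn P j.2 * al D v j.1

theorem yrow_dot (P : Par) (v : V) (j : V × Fin 4) (x : Fin 5 → ℝ) :
    yrow D P j ⬝ᵥ x = PA D P v j * rho D v x + PB D P v j * sg D v x +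
      ee P j.2 * (D.w j.1 ⬝ᵥ x) := by
  unfold yrow
  rw [add_dotProduct, smul_dotProduct, smul_eq_mul]
  congr 1
  simp only [dotProduct, Fin.sum_univ_five]
  simp only [Matrix.cons_val, zero_mul, add_zero]
  unfold PA PB al be rho sg
  linear_combination (-(cs P j.2 * ua D j.1 - sn P j.2 * ub D j.1) * x 0 -
    (cs P j.2 * ub D j.1 + sn P j.2 * ua D j.1) * x 1) * ua_ub D v

theorem PA_self (P : Par) (v : V) (t : Fin 4) : PA D P v (v, t) = cs P t := by
  unfold PA
  rw [al_self, be_self]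
  ring

theorem PB_self (P : Par) (v : V) (t : Fin 4) : PB D P v (v, t) = sn P t := by
  unfold PB
  rw [al_self, be_self]
  ring

/-- the determinant which decides whether two walls are independent modulo the wall `(v, 0)` -/
noncomputable def Dt (P : Par) (v : V) (j k : V × Fin 4) : ℝ :=
  (PA D P v j - 1) * PB D P v k - (PA D P v k - 1) * PB D P v j

/-- the sequence of parameters -/
structure Sq (P : ℕ → Par) : Prop where
  ν_pos : ∀ n, 0 < (P n).ν
  ν_le : ∀ n, (P n).ν ≤ 1 / 2
  μ_pos : ∀ n, 0 < (P n).μ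
  μ_sq : ∀ n, (1 - (P n).ν) ^ 2 + (P n).μ ^ 2 = 1
  T_eq : ∀ n, (P n).T = (P n).ν ^ 2
  ε_pos : ∀ n, 0 < (P n).ε
  ε_le : ∀ n, (P n).ε ≤ (P n).ν * (P n).T
  ε_dt : ∀ n v j k, Dt D (P n) v j k ≠ 0 → (P n).ε ≤ (P n).ν * (P n).T * |Dt D (P n) v j k|
  ν_lim : Tendsto (fun n => (P n).ν) atTop (𝓝 0)

/-- The situation after passing to an ultrafilter: `X n l` (`l < 4`) are the points of the walk with
the parameters `P n`, the walls `j`, the vertex `v` and the sets of vanishing rows are constant, the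
points converge. -/
structure Ctx (P : ℕ → Par) (U : Ultrafilter ℕ) (X : ℕ → ℕ → Fin 5 → ℝ) (j : ℕ → V × Fin 4)
    (SA : ℕ → Finset (Fin 8)) (SB : ℕ → Finset (V × Fin 4)) (xb : ℕ → Fin 5 → ℝ) (v : V) : Prop where
  sq : Sq D P
  hU : (U : Filter ℕ) ≤ atTop
  x0 : ∀ᶠ n in (U : Filter ℕ), X n 0 = D.vt v
  mem : ∀ᶠ n in (U : Filter ℕ), ∀ l < 4, ∀ i, D.c i ⬝ᵥ X n l ≤ 1
  inj : ∀ l < 4, ∀ m < 4, j l = j m → l = m
  max : ∀ᶠ n in (U : Filter ℕ), ∀ l < 4, ∀ i, yrow D (P n) i ⬝ᵥ X n l ≤ yrow D (P n) (j 0) ⬝ᵥ X n l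
  tie : ∀ᶠ n in (U : Filter ℕ), ∀ l < 4, ∀ m ≤ l,
    yrow D (P n) (j m) ⬝ᵥ X n l = yrow D (P n) (j 0) ⬝ᵥ X n l
  card : ∀ l < 3, 5 ≤ (SA l).card + (SB l).card
  stepA : ∀ᶠ n in (U : Filter ℕ), ∀ l < 3, ∀ i ∈ SA l, D.c i ⬝ᵥ (X n (l + 1) - X n l) = 0
  stepB : ∀ᶠ n in (U : Filter ℕ), ∀ l < 3, ∀ i ∈ SB l,
    yrow D (P n) i ⬝ᵥ (X n (l + 1) - X n l) = yrow D (P n) (j 0) ⬝ᵥ (X n (l + 1) - X n l)
  lim : ∀ l < 4, Tendsto (fun n => X n l) U (𝓝 (xb l))

end Pool.Agent.CH76
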