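import Pool.Agent.CH76.Rows

/-!
# CH76/SqEx: existence of the parameters
-/

namespace Pool.Agent.CH76

open Matrix Filter Topology

variable {V : Type*} (D : Data V)

theorem sx_pos_lower {ι : Type*} [Finite ι] (f : ι → ℝ) (hf : ∀ i, 0 < f i) :
    ∃ m : ℝ, 0 < m ∧ ∀ i, m ≤ f i := by
  rcases isEmpty_or_nonempty ι with h | h
  · exact ⟨1, one_pos, fun i => (h.false i).elim⟩
  · obtain ⟨i, hi⟩ := Finite.exists_min f
    exact ⟨f i, hf i, hi⟩

theorem exists_sq [Finite V] : ∃ P : ℕ → Par, Sq D P := by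
  classical
  have key : ∀ n : ℕ, ∃ p : Par, p.ν = 1 / ((n : ℝ) + 2) ∧ p.μ = Real.sqrt (1 - (1 - p.ν) ^ 2) ∧
      p.T = p.ν ^ 2 ∧ 0 < p.ε ∧ p.ε ≤ p.ν * p.T ∧
      ∀ v j k, Dt D p v j k ≠ 0 → p.ε ≤ p.ν * p.T * |Dt D p v j k| := by
    intro n
    set ν : ℝ := 1 / ((n : ℝ) + 2) with hν
    set μ : ℝ := Real.sqrt (1 - (1 - ν) ^ 2) with hμ
    have hν0 : 0 < ν := by positivity
    obtain ⟨m, hm, hle⟩ := sx_pos_lower
      (fun i : V × (V × Fin 4) × (V × Fin 4) =>
        if Dt D ⟨ν, μ, ν ^ 2, 0⟩ i.1 i.2.1 i.2.2 = 0 then (1 : ℝ)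
        else |Dt D ⟨ν, μ, ν ^ 2, 0⟩ i.1 i.2.1 i.2.2|) (by
          intro i
          split_ifs with h
          · exact one_pos
          · exact abs_pos.2 h)
    refine ⟨⟨ν, μ, ν ^ 2, min (ν * ν ^ 2) (ν * ν ^ 2 * m)⟩, rfl, rfl, rfl, ?_, ?_, ?_⟩
    · exact lt_min (by positivity) (by positivity)
    · exact min_le_left _ _
    · intro v j k hne
      have h1 := hle (v, j, k)
      have h2 : Dt D ⟨ν, μ, ν ^ 2, min (ν * ν ^ 2) (ν * ν ^ 2 * m)⟩ v j k =
        Dt D ⟨ν, μ, ν ^ 2, 0⟩ v j k := rfl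
      rw [h2] at hne ⊢
      simp only [if_neg hne] at h1
      refine (min_le_right _ _).trans ?_
      exact mul_le_mul_of_nonneg_left h1 (by positivity)
  choose P h1 h2 h3 h4 h5 h6 using key
  have hpos : ∀ n, 0 < (P n).ν := fun n => by rw [h1]; positivity
  have hle : ∀ n, (P n).ν ≤ 1 / 2 := fun n => by
    rw [h1]
    apply one_div_le_one_div_of_le (by norm_num)
    have : (0 : ℝ) ≤ n := Nat.cast_nonneg n
    linarith
  have harg : ∀ n, 0 < 1 - (1 - (P n).ν) ^ 2 := fun n => by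
    have a := hpos n
    have b := hle n
    nlinarith
  refine ⟨P, hpos, hle, fun n => ?_, fun n => ?_, h3, h4, h5, h6, ?_⟩
  · rw [h2]
    exact Real.sqrt_pos.2 (harg n)
  · have : (P n).μ ^ 2 = 1 - (1 - (P n).ν) ^ 2 := by
      rw [h2]
      exact Real.sq_sqrt (harg n).le
    rw [this]
    ring
  · have h7 : (fun n => (P n).ν) = fun n : ℕ => 1 / ((n : ℝ) + 2) := funext h1
    rw [h7]
    have h8 : Tendsto (fun n : ℕ => (n : ℝ) + 2) atTop atTop :=
      tendsto_atTop_add_const_right _ _ tendsto_natCast_atTop_atTop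
    have h9 := h8.inv_tendsto_atTop
    refine h9.congr fun n => ?_
    rw [Pi.inv_apply, one_div]

theorem yrow_span (P : ℕ → Par) (h : Sq D P) (n : ℕ) (x : Fin 5 → ℝ)
    (hx : ∀ j, yrow D (P n) j ⬝ᵥ x ≤ 0) : x = 0 := by
  have h0 : ∀ v, ua D v * x 0 + ub D v * x 1 ≤ 0 := by
    intro v
    have := hx (v, 0)
    rw [yrow_dot D (P n) v, PA_self, PB_self] at this
    simpa [cs, sn, ee, rho] using this
  have h1 : x 0 = 0 ∧ x 1 = 0 := by
    apply D.hpspan
    intro v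
    rw [vt_zero, vt_one]
    have := mul_le_mul_of_nonneg_left (h0 v) (Rv_pos D v).le
    rw [mul_zero] at this
    linarith
  have h2 : x 2 = 0 ∧ x 3 = 0 ∧ x 4 = 0 := by
    apply D.hwspan
    intro v
    have := hx (v, 3)
    rw [yrow_dot D (P n) v] at this
    have hr : rho D v x = 0 := by rw [rho, h1.1, h1.2]; ring
    have hs : sg D v x = 0 := by rw [sg, h1.1, h1.2]; ring
    have he : ee (P n) 3 = (P n).ε := rfl
    rw [hr, hs, he, mul_zero, mul_zero, zero_add, zero_add] at this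
    have hε := h.ε_pos n
    by_contra hc
    push Not at hc
    have := mul_pos hε hc
    linarith
  funext i
  fin_cases i
  · exact h1.1
  · exact h1.2
  · exact h2.1
  · exact h2.2.1
  · exact h2.2.2

end Pool.Agent.CH76
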